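import Mathlib

/-!
# Project F2 (high girth Nash-Williams), block B2a: a sparse basis of cells

Labels are pairs of vertices in a common row (`true`) or column (`false`).  There is a family of
cells (sets of at most four labels, all degrees even), every label in a bounded number of cells,
such that every set of labels with even degrees is a sum of cells modulo two.
-/

set_option autoImplicit false
set_option linter.unusedSectionVars false
set_option linter.unusedSimpArgs false

namespace F2

open Finset

section alg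

variable {Q : Type*} [AddCommGroup Q] [Module (ZMod 2) Q]

theorem two_self (x : Q) : x + x = 0 := by
  have h : (2 : ZMod 2) • x = 0 := by
    have : (2 : ZMod 2) = 0 := by decide
    rw [this, zero_smul]
  rwa [two_smul] at h

theorem eq_of_add_eq_zero' {x y : Q} (h : x + y = 0) : x = y := by
  have h1 := two_self y
  calc x = x + (y + y) := by rw [h1, add_zero]
    _ = (x + y) + y := by abel
    _ = y := by rw [h, zero_add]

theorem path_potential (N : ℕ) (e : ℕ → ℕ → Q)
    (h3 : ∀ i, i + 2 < N → e i (i + 1) + e i (i + 2) + e (i + 1) (i + 2) = 0)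
    (h4 : ∀ i j, i + 1 < j → j + 1 < N →
      e i j + e (i + 1) j + e i (j + 1) + e (i + 1) (j + 1) = 0) :
    ∃ p : ℕ → Q, ∀ i j, i < j → j < N → e i j = p i + p j := by
  let p : ℕ → Q := fun i => ∑ k ∈ range i, e k (k + 1)
  have hp : ∀ i, p (i + 1) = p i + e i (i + 1) := fun i => sum_range_succ _ _
  refine ⟨p, ?_⟩
  have key : ∀ d i, i + d + 1 < N → e i (i + d + 1) = p i + p (i + d + 1) := by
    intro d
    induction d using Nat.strong_induction_on with
    | _ d ih =>
      intro i hi
      rcases d with _ | d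
      · have h1 := hp i
        have h2 := two_self (p i)
        rw [add_zero, h1]
        rw [← add_assoc, h2, zero_add]
      · rcases d with _ | d
        · have h1 := h3 i (by omega)
          have h2 := ih 0 (by omega) i (by omega)
          have h3' := ih 0 (by omega) (i + 1) (by omega)
          simp only [add_zero] at h2 h3'
          have e1 : i + (0 + 1) + 1 = i + 2 := by omega
          have e2 : i + 1 + 1 = i + 2 := by omega
          rw [e2] at h3'
          rw [e1]
          rw [h2, h3'] at h1
          have h5 := two_self (p (i + 1))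
          apply eq_of_add_eq_zero'
          calc e i (i + 2) + (p i + p (i + 2))
              = (p i + p (i + 1) + e i (i + 2) + (p (i + 1) + p (i + 2)))
                - (p (i + 1) + p (i + 1)) := by abel
            _ = 0 := by rw [h1, h5, sub_zero]
        · have h1 := h4 i (i + d + 2) (by omega) (by omega)
          have a1 := ih (d + 1) (by omega) i (by omega)
          have a2 := ih d (by omega) (i + 1) (by omega)
          have a3 := ih (d + 1) (by omega) (i + 1) (by omega)
          have e1 : i + (d + 1) + 1 = i + d + 2 := by omega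
          have e2 : i + 1 + d + 1 = i + d + 2 := by omega
          have e3 : i + 1 + (d + 1) + 1 = i + d + 2 + 1 := by omega
          have e4 : i + (d + 1 + 1) + 1 = i + d + 2 + 1 := by omega
          rw [e1] at a1
          rw [e2] at a2
          rw [e3] at a3
          rw [e4]
          rw [a1, a2, a3] at h1
          apply eq_of_add_eq_zero'
          have h5 := two_self (p (i + 1))
          have h6 := two_self (p (i + d + 2))
          calc e i (i + d + 2 + 1) + (p i + p (i + d + 2 + 1))
              = (p i + p (i + d + 2) + (p (i + 1) + p (i + d + 2)) + e i (i + d + 2 + 1)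
                  + (p (i + 1) + p (i + d + 2 + 1)))
                - (p (i + 1) + p (i + 1)) - (p (i + d + 2) + p (i + d + 2)) := by abel
            _ = 0 := by rw [h1, h5, h6, sub_zero, sub_zero]
  intro i j hij hj
  obtain ⟨d, rfl⟩ : ∃ d, j = i + d + 1 := ⟨j - i - 1, by omega⟩
  exact key d i hj

theorem grid_potential (s : ℕ) (δ : ℕ → ℕ → Q)
    (h : ∀ x y, x + 1 < s → y + 1 < s →
      δ x y + δ x (y + 1) + δ (x + 1) y + δ (x + 1) (y + 1) = 0) :
    ∃ α β : ℕ → Q, ∀ x y, x < s → y < s → δ x y = α x + β y := by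
  refine ⟨fun x => δ x 0, fun y => δ 0 y + δ 0 0, ?_⟩
  intro x
  induction x with
  | zero =>
    intro y _ _
    have h1 := two_self (δ 0 0)
    change δ 0 y = δ 0 0 + (δ 0 y + δ 0 0)
    calc δ 0 y = δ 0 y + (δ 0 0 + δ 0 0) := by rw [h1, add_zero]
      _ = δ 0 0 + (δ 0 y + δ 0 0) := by abel
  | succ x ihx =>
    intro y hx
    induction y with
    | zero =>
      intro _
      change δ (x + 1) 0 = δ (x + 1) 0 + (δ 0 0 + δ 0 0)
      rw [two_self, add_zero]
    | succ y ihy =>
      intro hy
      have h1 := h x y hx hy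
      have h2 := ihx y (by omega) (by omega)
      have h3 := ihx (y + 1) (by omega) hy
      have h4 := ihy (by omega)
      simp only at h2 h3 h4
      rw [h2, h3, h4] at h1
      change δ (x + 1) (y + 1) = δ (x + 1) 0 + (δ 0 (y + 1) + δ 0 0)
      apply eq_of_add_eq_zero'
      have h5 := two_self (δ x 0)
      have h6 := two_self (δ 0 y)
      have h7 := two_self (δ 0 0)
      calc δ (x + 1) (y + 1) + (δ (x + 1) 0 + (δ 0 (y + 1) + δ 0 0))
          = (δ x 0 + (δ 0 y + δ 0 0) + (δ x 0 + (δ 0 (y + 1) + δ 0 0)) +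
              (δ (x + 1) 0 + (δ 0 y + δ 0 0)) + δ (x + 1) (y + 1))
            - (δ x 0 + δ x 0) - (δ 0 y + δ 0 y) - (δ 0 0 + δ 0 0) := by abel
        _ = 0 := by rw [h1, h5, h6, h7, sub_zero, sub_zero, sub_zero]

end alg


section cells

variable {V : Type*} [DecidableEq V]

/-- labels: a pair of vertices with a colour -/
abbrev Lab (V : Type*) := Bool × Sym2 V

/-- the vector of a set of labels -/
noncomputable def vec (C : Finset (Lab V)) : Lab V →₀ ZMod 2 := ∑ f ∈ C, Finsupp.single f 1

theorem vec_apply (C : Finset (Lab V)) (f : Lab V) : vec C f = if f ∈ C then 1 else 0 := by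
  unfold vec
  rw [Finsupp.finsetSum_apply]
  simp [Finsupp.single_apply]

/-- extraction of a set of cells -/
theorem exists_cells (𝒞 : Finset (Finset (Lab V))) (ℓ : Finset (Lab V))
    (h : vec ℓ ∈ Submodule.span (ZMod 2) ((fun C => vec C) '' (𝒞 : Set (Finset (Lab V))))) :
    ∃ S ⊆ 𝒞, ∀ f, f ∈ ℓ ↔ Odd (S.filter (fun C => f ∈ C)).card := by
  rw [Submodule.mem_span_image_finset_iff_exists_fun] at h
  obtain ⟨c', hc'⟩ := h
  obtain ⟨c, hc⟩ : ∃ c : Finset (Lab V) → ZMod 2, ∑ C ∈ 𝒞, c C • vec C = vec ℓ := by
    refine ⟨fun C => if h : C ∈ 𝒞 then c' ⟨C, h⟩ else 0, ?_⟩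
    rw [← hc', ← Finset.sum_coe_sort 𝒞]
    refine sum_congr rfl fun i _ => ?_
    simp [i.2]
  refine ⟨𝒞.filter (fun C => c C = 1), filter_subset _ _, fun f => ?_⟩
  have h1 : vec ℓ f = ∑ C ∈ 𝒞, c C * (if f ∈ C then 1 else 0) := by
    rw [← hc, Finsupp.finsetSum_apply]
    refine sum_congr rfl fun C _ => ?_
    rw [Finsupp.smul_apply, vec_apply, smul_eq_mul]
  have h2 : ∑ C ∈ 𝒞, c C * (if f ∈ C then (1 : ZMod 2) else 0) =
      (((𝒞.filter (fun C => c C = 1)).filter (fun C => f ∈ C)).card : ZMod 2) := by
    rw [card_eq_sum_ones, Nat.cast_sum, sum_filter, sum_filter]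
    refine sum_congr rfl fun C _ => ?_
    have h3 : ∀ z : ZMod 2, z = 0 ∨ z = 1 := by decide
    rcases h3 (c C) with h4 | h4
    · rw [h4, zero_mul, if_neg (by decide : ¬ (0 : ZMod 2) = 1)]
    · rw [h4, if_pos rfl, one_mul]
      split_ifs <;> simp
  rw [vec_apply, h2] at h1
  rw [← ZMod.natCast_eq_one_iff_odd, ← h1]
  split_ifs with h3
  · simp [h3]
  · simp [h3]

variable [Fintype V]

/-- even degree and a potential give membership in the span -/
theorem mem_span_of_potential (𝒞 : Finset (Finset (Lab V))) (ℓ : Finset (Lab V))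
    (hl : ∀ f ∈ ℓ, ¬ f.2.IsDiag)
    (he : ∀ v, Even (ℓ.filter (fun f => v ∈ f.2)).card)
    (p : V → (Lab V →₀ ZMod 2) ⧸
      Submodule.span (ZMod 2) ((fun C => vec C) '' (𝒞 : Set (Finset (Lab V)))))
    (hp : ∀ f ∈ ℓ, ∀ u v, f.2 = s(u, v) →
      Submodule.Quotient.mk (Finsupp.single f 1) = p u + p v) :
    vec ℓ ∈ Submodule.span (ZMod 2) ((fun C => vec C) '' (𝒞 : Set (Finset (Lab V)))) := by
  rw [← Submodule.Quotient.mk_eq_zero]
  have h1 : (Submodule.Quotient.mk (vec ℓ) : (Lab V →₀ ZMod 2) ⧸
      Submodule.span (ZMod 2) ((fun C => vec C) '' (𝒞 : Set (Finset (Lab V))))) =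
      ∑ f ∈ ℓ, Submodule.Quotient.mk (Finsupp.single f 1) := by
    unfold vec
    exact map_sum (Submodule.mkQ _) _ _
  rw [h1]
  have h2 : ∀ f ∈ ℓ, (Submodule.Quotient.mk (Finsupp.single f 1) : (Lab V →₀ ZMod 2) ⧸
      Submodule.span (ZMod 2) ((fun C => vec C) '' (𝒞 : Set (Finset (Lab V))))) =
      ∑ v : V, if v ∈ f.2 then p v else 0 := by
    rintro ⟨b, e⟩ hf
    induction e using Sym2.ind with
    | _ u v =>
      rw [hp _ hf u v rfl]
      have huv : u ≠ v := fun h => hl _ hf (by simpa using h)
      have h3 : ∀ x : V, (if x ∈ s(u, v) then p x else 0) =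
          (if x = u then p x else 0) + (if x = v then p x else 0) := by
        intro x
        by_cases hx : x = u
        · subst hx
          simp [huv]
        · by_cases hy : x = v
          · subst hy
            simp [hx]
          · simp [hx, hy]
      simp only [h3]
      rw [sum_add_distrib]
      simp
  rw [sum_congr rfl h2, sum_comm]
  refine sum_eq_zero fun v _ => ?_
  rw [← sum_filter, sum_const]
  obtain ⟨k, hk⟩ := he v
  rw [hk, add_smul]
  exact two_self _

/-- an enumeration of the set `R` -/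
noncomputable def en [Nonempty V] (R : Finset V) (i : ℕ) : V :=
  if h : i < R.card then (R.equivFin.symm ⟨i, h⟩ : V) else Classical.arbitrary V

theorem en_mem [Nonempty V] {R : Finset V} {i : ℕ} (h : i < R.card) : en R i ∈ R := by
  unfold en
  rw [dif_pos h]
  exact Subtype.prop _

theorem en_inj [Nonempty V] {R : Finset V} {i j : ℕ} (hi : i < R.card) (hj : j < R.card)
    (h : en R i = en R j) : i = j := by
  unfold en at h
  rw [dif_pos hi, dif_pos hj] at h
  have h1 := R.equivFin.symm.injective (Subtype.ext h)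
  exact congrArg Fin.val h1

theorem en_surj [Nonempty V] {R : Finset V} {v : V} (h : v ∈ R) :
    ∃ i, i < R.card ∧ en R i = v := by
  refine ⟨R.equivFin ⟨v, h⟩, (R.equivFin ⟨v, h⟩).2, ?_⟩
  unfold en
  rw [dif_pos (R.equivFin ⟨v, h⟩).2]
  simp

/-- the cells of a row or column -/
def rowCell (b : Bool) (e : ℕ → V) (i j : ℕ) : Finset (Lab V) :=
  if i + 1 = j then {(b, s(e i, e (i + 1))), (b, s(e i, e (i + 2))), (b, s(e (i + 1), e (i + 2)))}
  else {(b, s(e i, e j)), (b, s(e (i + 1), e j)), (b, s(e i, e (j + 1))),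
    (b, s(e (i + 1), e (j + 1)))}

/-- the cells identifying row labels and column labels inside of a part -/
def twoCell (e : ℕ → V) (i : ℕ) : Finset (Lab V) :=
  {(true, s(e i, e (i + 1))), (false, s(e i, e (i + 1)))}

/-- the cells of the grid -/
def gridCell (w : ℕ → ℕ → V) (x y : ℕ) : Finset (Lab V) :=
  {(true, s(w x y, w x (y + 1))), (true, s(w (x + 1) y, w (x + 1) (y + 1))),
    (false, s(w x y, w (x + 1) y)), (false, s(w x (y + 1), w (x + 1) (y + 1)))}

variable (ro co : V → ℕ)

/-- the labels: both ends in one row (`true`) or in one column (`false`) -/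
def IsLab (f : Lab V) : Prop :=
  ¬ f.2.IsDiag ∧ ∀ u v, f.2 = s(u, v) → if f.1 = true then ro u = ro v else co u = co v

/-- rows, columns, parts -/
def Rw (x : ℕ) : Finset V := univ.filter (fun v => ro v = x)
def Pt (x y : ℕ) : Finset V := univ.filter (fun v => ro v = x ∧ co v = y)

/-- all cells -/
noncomputable def allCells [Nonempty V] (s : ℕ) (w : ℕ → ℕ → V) : Finset (Finset (Lab V)) :=
  ((((range s ×ˢ (range (Fintype.card V) ×ˢ range (Fintype.card V))).filter
      (fun t => t.2.1 < t.2.2 ∧ t.2.2 + 1 < (Rw ro t.1).card)).image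
      (fun t => rowCell true (en (Rw ro t.1)) t.2.1 t.2.2)) ∪
    (((range s ×ˢ (range (Fintype.card V) ×ˢ range (Fintype.card V))).filter
      (fun t => t.2.1 < t.2.2 ∧ t.2.2 + 1 < (Rw co t.1).card)).image
      (fun t => rowCell false (en (Rw co t.1)) t.2.1 t.2.2))) ∪
    ((((range s ×ˢ (range s ×ˢ range (Fintype.card V))).filter
      (fun t => t.2.2 + 1 < (Pt ro co t.1 t.2.1).card)).image
      (fun t => twoCell (en (Pt ro co t.1 t.2.1)) t.2.2)) ∪
    (((range s ×ˢ range s).filter (fun t => t.1 + 1 < s ∧ t.2 + 1 < s)).image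
      (fun t => gridCell w t.1 t.2)))

theorem sum_rowCell {Q : Type*} [AddCommGroup Q] (b : Bool) {e : ℕ → V} {N : ℕ}
    (he : ∀ i j, i < N → j < N → e i = e j → i = j) {i j : ℕ} (hij : i < j) (hj : j + 1 < N)
    (q : Lab V → Q) :
    ∑ f ∈ rowCell b e i j, q f = if i + 1 = j then
      q (b, s(e i, e (i + 1))) + q (b, s(e i, e (i + 2))) + q (b, s(e (i + 1), e (i + 2)))
      else q (b, s(e i, e j)) + q (b, s(e (i + 1), e j)) + q (b, s(e i, e (j + 1))) +
        q (b, s(e (i + 1), e (j + 1))) := by
  unfold rowCell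
  have hne : ∀ a c, a < N → c < N → a ≠ c → e a ≠ e c := fun a c ha hc hac h =>
    hac (he a c ha hc h)
  split_ifs with h
  · have h1 := hne i (i + 1) (by omega) (by omega) (by omega)
    have h2 := hne i (i + 2) (by omega) (by omega) (by omega)
    have h3 := hne (i + 1) (i + 2) (by omega) (by omega) (by omega)
    rw [sum_insert, sum_insert, sum_singleton]
    · abel
    · simp [h1, h2, h3]
    · simp [h1, h2, h3, h1.symm]
  · have h1 := hne i (i + 1) (by omega) (by omega) (by omega)
    have h2 := hne i j (by omega) (by omega) (by omega)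
    have h3 := hne i (j + 1) (by omega) (by omega) (by omega)
    have h4 := hne (i + 1) j (by omega) (by omega) (by omega)
    have h5 := hne (i + 1) (j + 1) (by omega) (by omega) (by omega)
    have h6 := hne j (j + 1) (by omega) (by omega) (by omega)
    rw [sum_insert, sum_insert, sum_insert, sum_singleton]
    · abel
    · simp [h1, h2, h3, h4, h5, h6, h6.symm, h1.symm]
    · simp [h1, h2, h3, h4, h5, h6, h6.symm, h1.symm, h4.symm]
    · simp [h1, h2, h3, h4, h5, h6, h6.symm, h1.symm, h4.symm]

theorem sum_twoCell {Q : Type*} [AddCommGroup Q] (e : ℕ → V) (i : ℕ) (q : Lab V → Q) :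
    ∑ f ∈ twoCell e i, q f = q (true, s(e i, e (i + 1))) + q (false, s(e i, e (i + 1))) := by
  unfold twoCell
  rw [sum_insert, sum_singleton]
  simp

theorem sum_gridCell {Q : Type*} [AddCommGroup Q] {ro co : V → ℕ} {s : ℕ} {w : ℕ → ℕ → V}
    (hw : ∀ x y, x < s → y < s → ro (w x y) = x ∧ co (w x y) = y) {x y : ℕ} (hx : x + 1 < s)
    (hy : y + 1 < s) (q : Lab V → Q) :
    ∑ f ∈ gridCell w x y, q f = q (true, s(w x y, w x (y + 1))) +
      q (true, s(w (x + 1) y, w (x + 1) (y + 1))) + q (false, s(w x y, w (x + 1) y)) +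
      q (false, s(w x (y + 1), w (x + 1) (y + 1))) := by
  unfold gridCell
  have h00 := hw x y (by omega) (by omega)
  have h01 := hw x (y + 1) (by omega) (by omega)
  have h10 := hw (x + 1) y (by omega) (by omega)
  have h11 := hw (x + 1) (y + 1) (by omega) (by omega)
  have n1 : w x y ≠ w (x + 1) y := fun h => by
    have := h00.1; rw [h, h10.1] at this; omega
  have n2 : w x y ≠ w (x + 1) (y + 1) := fun h => by
    have := h00.1; rw [h, h11.1] at this; omega
  have n3 : w x y ≠ w x (y + 1) := fun h => by
    have := h00.2; rw [h, h01.2] at this; omega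
  have n4 : w x (y + 1) ≠ w (x + 1) y := fun h => by
    have := h01.1; rw [h, h10.1] at this; omega
  have n5 : w x (y + 1) ≠ w (x + 1) (y + 1) := fun h => by
    have := h01.1; rw [h, h11.1] at this; omega
  rw [sum_insert, sum_insert, sum_insert, sum_singleton]
  · abel
  · simp [n1, n2, n3, n4, n5]
  · simp [n1, n2, n3, n4, n5]
  · simp [n1, n2, n3, n4, n5]

/-- the basis theorem: spanning -/
theorem span_cells [Nonempty V] (s : ℕ) (ro co : V → ℕ) (hro : ∀ v, ro v < s)
    (hco : ∀ v, co v < s) (w : ℕ → ℕ → V)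
    (hw : ∀ x y, x < s → y < s → ro (w x y) = x ∧ co (w x y) = y)
    (ℓ : Finset (Lab V)) (hl : ∀ f ∈ ℓ, IsLab ro co f)
    (he : ∀ v, Even (ℓ.filter (fun f => v ∈ f.2)).card) :
    ∃ S ⊆ allCells ro co s w, ∀ f, f ∈ ℓ ↔ Odd (S.filter (fun C => f ∈ C)).card := by
  classical
  apply exists_cells
  set 𝒞 := allCells ro co s w with h𝒞
  set Q := (Lab V →₀ ZMod 2) ⧸
      Submodule.span (ZMod 2) ((fun C => vec C) '' (𝒞 : Set (Finset (Lab V)))) with hQ
  let q : Lab V → Q := fun f => Submodule.Quotient.mk (Finsupp.single f 1)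
  have hzero : ∀ C ∈ 𝒞, ∑ f ∈ C, q f = 0 := by
    intro C hC
    have h1 : (Submodule.Quotient.mk (vec C) : Q) = ∑ f ∈ C, q f := by
      unfold vec
      exact map_sum (Submodule.mkQ _) _ _
    rw [← h1, Submodule.Quotient.mk_eq_zero]
    exact Submodule.subset_span ⟨C, hC, rfl⟩
  have hcard : ∀ R : Finset V, R.card ≤ Fintype.card V := fun R => card_le_univ R
  -- potentials of the rows and columns
  have hline : ∀ (b : Bool) (R : Finset V), (∀ i j, i < j → j + 1 < R.card →
      rowCell b (en R) i j ∈ 𝒞) → ∃ p : V → Q, ∀ u ∈ R, ∀ v ∈ R, u ≠ v →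
        q (b, s(u, v)) = p u + p v := by
    intro b R hR
    have hinj : ∀ i j, i < R.card → j < R.card → en R i = en R j → i = j :=
      fun i j hi hj h => en_inj hi hj h
    obtain ⟨p, hp⟩ := path_potential (Q := Q) R.card (fun i j => q (b, s(en R i, en R j)))
      (by
        intro i hi
        have h1 := hzero _ (hR i (i + 1) (by omega) (by omega))
        rwa [sum_rowCell b hinj (by omega) (by omega), if_pos rfl] at h1)
      (by
        intro i j hij hj
        have h1 := hzero _ (hR i j (by omega) (by omega))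
        rwa [sum_rowCell b hinj (by omega) (by omega), if_neg (by omega)] at h1)
    have hidx : ∀ v ∈ R, ∃ i, i < R.card ∧ en R i = v := fun v hv => en_surj hv
    choose! ix hix using hidx
    refine ⟨fun v => p (ix v), fun u hu v hv huv => ?_⟩
    obtain ⟨h1, h2⟩ := hix u hu
    obtain ⟨h3, h4⟩ := hix v hv
    have hne : ix u ≠ ix v := fun h => huv (by rw [← h2, ← h4, h])
    rcases lt_or_gt_of_ne hne with h5 | h5
    · have h6 := hp _ _ h5 h3
      rwa [h2, h4] at h6
    · have h6 := hp _ _ h5 h1
      rw [h2, h4] at h6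
      rw [Sym2.eq_swap, h6, add_comm]
  have hrow : ∀ x, x < s → ∀ i j, i < j → j + 1 < (Rw ro x).card →
      rowCell true (en (Rw ro x)) i j ∈ 𝒞 := by
    intro x hx i j hij hj
    have hc := hcard (Rw ro x)
    rw [h𝒞]
    unfold allCells
    refine mem_union_left _ (mem_union_left _ (mem_image.2 ⟨(x, i, j), ?_, rfl⟩))
    simp only [mem_filter, mem_product, mem_range]
    exact ⟨⟨hx, by omega, by omega⟩, hij, hj⟩
  have hcol : ∀ x, x < s → ∀ i j, i < j → j + 1 < (Rw co x).card →
      rowCell false (en (Rw co x)) i j ∈ 𝒞 := by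
    intro x hx i j hij hj
    have hc := hcard (Rw co x)
    rw [h𝒞]
    unfold allCells
    refine mem_union_left _ (mem_union_right _ (mem_image.2 ⟨(x, i, j), ?_, rfl⟩))
    simp only [mem_filter, mem_product, mem_range]
    exact ⟨⟨hx, by omega, by omega⟩, hij, hj⟩
  have hR := fun x (hx : x < s) => hline true (Rw ro x) (hrow x hx)
  have hC := fun x (hx : x < s) => hline false (Rw co x) (hcol x hx)
  choose! P hP using hR
  choose! P' hP' using hC
  have mR : ∀ v, v ∈ Rw ro (ro v) := fun v => by simp [Rw]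
  have mC : ∀ v, v ∈ Rw co (co v) := fun v => by simp [Rw]
  -- the difference is constant on the parts
  have hpart : ∀ x y, x < s → y < s → ∃ d : Q, ∀ v ∈ Pt ro co x y, P x v + P' y v = d := by
    intro x y hx hy
    refine ⟨P x (en (Pt ro co x y) 0) + P' y (en (Pt ro co x y) 0), fun v hv => ?_⟩
    obtain ⟨i, hi, rfl⟩ := en_surj hv
    induction i with
    | zero => rfl
    | succ i ih =>
      have hi' : i < (Pt ro co x y).card := by omega
      rw [← ih hi' (en_mem hi')]
      have m1 : en (Pt ro co x y) i ∈ Pt ro co x y := en_mem hi'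
      have m2 : en (Pt ro co x y) (i + 1) ∈ Pt ro co x y := en_mem hi
      have hne : en (Pt ro co x y) i ≠ en (Pt ro co x y) (i + 1) := fun h => by
        have := en_inj hi' hi h
        omega
      have hcell : twoCell (en (Pt ro co x y)) i ∈ 𝒞 := by
        have hc := hcard (Pt ro co x y)
        rw [h𝒞]
        unfold allCells
        refine mem_union_right _ (mem_union_left _ (mem_image.2 ⟨(x, y, i), ?_, rfl⟩))
        simp only [mem_filter, mem_product, mem_range]
        exact ⟨⟨hx, hy, by omega⟩, hi⟩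
      have h1 := hzero _ hcell
      rw [sum_twoCell] at h1
      have m1' := (mem_filter.1 m1).2
      have m2' := (mem_filter.1 m2).2
      have h2 := hP x hx _ (mem_filter.2 ⟨mem_univ _, m1'.1⟩) _
        (mem_filter.2 ⟨mem_univ _, m2'.1⟩) hne
      have h3 := hP' y hy _ (mem_filter.2 ⟨mem_univ _, m1'.2⟩) _
        (mem_filter.2 ⟨mem_univ _, m2'.2⟩) hne
      rw [h2, h3] at h1
      apply eq_of_add_eq_zero'
      rw [← h1]
      abel
  choose! δ hδ using hpart
  obtain ⟨α, β, hαβ⟩ := grid_potential (Q := Q) s δ (by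
    intro x y hx hy
    have hcell : gridCell w x y ∈ 𝒞 := by
      rw [h𝒞]
      unfold allCells
      refine mem_union_right _ (mem_union_right _ (mem_image.2 ⟨(x, y), ?_, rfl⟩))
      simp only [mem_filter, mem_product, mem_range]
      exact ⟨⟨by omega, by omega⟩, hx, hy⟩
    have h1 := hzero _ hcell
    rw [sum_gridCell hw hx hy] at h1
    have h00 := hw x y (by omega) (by omega)
    have h01 := hw x (y + 1) (by omega) (by omega)
    have h10 := hw (x + 1) y (by omega) (by omega)
    have h11 := hw (x + 1) (y + 1) (by omega) (by omega)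
    have n1 : w x y ≠ w (x + 1) y := fun h => by
      have := h00.1; rw [h, h10.1] at this; omega
    have n3 : w x y ≠ w x (y + 1) := fun h => by
      have := h00.2; rw [h, h01.2] at this; omega
    have n5 : w x (y + 1) ≠ w (x + 1) (y + 1) := fun h => by
      have := h01.1; rw [h, h11.1] at this; omega
    have n6 : w (x + 1) y ≠ w (x + 1) (y + 1) := fun h => by
      have := h10.2; rw [h, h11.2] at this; omega
    rw [hP x (by omega) _ (by simp [Rw, h00.1]) _ (by simp [Rw, h01.1]) n3,
      hP (x + 1) hx _ (by simp [Rw, h10.1]) _ (by simp [Rw, h11.1]) n6,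
      hP' y (by omega) _ (by simp [Rw, h00.2]) _ (by simp [Rw, h10.2]) n1,
      hP' (y + 1) hy _ (by simp [Rw, h01.2]) _ (by simp [Rw, h11.2]) n5] at h1
    have e00 := hδ x y (by omega) (by omega) (w x y) (by simp [Pt, h00])
    have e01 := hδ x (y + 1) (by omega) (by omega) (w x (y + 1)) (by simp [Pt, h01])
    have e10 := hδ (x + 1) y (by omega) (by omega) (w (x + 1) y) (by simp [Pt, h10])
    have e11 := hδ (x + 1) (y + 1) (by omega) (by omega) (w (x + 1) (y + 1)) (by simp [Pt, h11])
    rw [← e00, ← e01, ← e10, ← e11, ← h1]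
    abel)
  refine mem_span_of_potential 𝒞 ℓ (fun f hf => (hl f hf).1) he
    (fun v => P (ro v) v + α (ro v)) ?_
  rintro ⟨b, e⟩ hf u v huv
  obtain ⟨hd, hlab⟩ := hl _ hf
  simp only at huv
  subst huv
  have hne : u ≠ v := fun h => hd (by simp [h])
  have h1 := hlab u v rfl
  cases b with
  | true =>
    simp only [if_true] at h1
    have h2 := hP (ro u) (hro u) u (mR u) v (by rw [h1]; exact mR v) hne
    change q (true, s(u, v)) = _
    rw [h2, ← h1]
    have h3 := two_self (α (ro u))
    calc P (ro u) u + P (ro u) v = P (ro u) u + P (ro u) v + (α (ro u) + α (ro u)) := by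
          rw [h3, add_zero]
      _ = _ := by abel
  | false =>
    simp only [Bool.false_eq_true, if_false] at h1
    have h2 := hP' (co u) (hco u) u (mC u) v (by rw [h1]; exact mC v) hne
    change q (false, s(u, v)) = _
    rw [h2]
    have a1 := hδ (ro u) (co u) (hro u) (hco u) u (by simp [Pt])
    have a2 := hδ (ro v) (co v) (hro v) (hco v) v (by simp [Pt])
    rw [hαβ _ _ (hro u) (hco u)] at a1
    rw [hαβ _ _ (hro v) (hco v)] at a2
    rw [← h1] at a2
    apply eq_of_add_eq_zero'
    have t1 := two_self (P (ro u) u)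
    have t2 := two_self (P (ro v) v)
    have t3 := two_self (β (co u))
    have t4 := two_self (α (ro u))
    have t5 := two_self (α (ro v))
    have b1 : P' (co u) u = P (ro u) u + (α (ro u) + β (co u)) := by
      rw [← a1, ← add_assoc, t1, zero_add]
    have b2 : P' (co u) v = P (ro v) v + (α (ro v) + β (co u)) := by
      rw [← a2, ← add_assoc, t2, zero_add]
    rw [b1, b2]
    calc P (ro u) u + (α (ro u) + β (co u)) + (P (ro v) v + (α (ro v) + β (co u))) +
          (P (ro u) u + α (ro u) + (P (ro v) v + α (ro v)))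
        = (P (ro u) u + P (ro u) u) + (P (ro v) v + P (ro v) v) + (β (co u) + β (co u)) +
          (α (ro u) + α (ro u)) + (α (ro v) + α (ro v)) := by abel
      _ = 0 := by rw [t1, t2, t3, t4, t5]; simp

end cells

end F2
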