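import Mathlib

/-!
# The local lemma in weighted product spaces (helper16)

`Weighted w`: every `w i` is a probability weight on the finite type `α`. `wt w ω` is the weight of
a point, `EE w f` an expectation, `PP w A` a probability. The events `Ev y` depend on the
coordinates in `S y`, `1 ≤ |S y| ≤ L`, and for every coordinate `i` the sum of the probabilities of
the events through `i` is at most `1 / (8 L)`. Then some point avoids all events (`lll_pos`), and
conditioning on avoiding all events changes the expectation of a function `f ≥ 0` that depends on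
the coordinates in `T` by a factor at most `2 ^ |T|` (`lll_exp`). Ready to use: `lll_exists`,
`lll_exists_le` (a point of positive weight that avoids all events, with a small sum of local
functions).
-/

set_option autoImplicit false
set_option linter.unusedSectionVars false

namespace F2

open Finset

section LLL

variable {ι α Y : Type*} [Fintype ι] [DecidableEq ι] [Fintype α] [DecidableEq α]

/-- every `w i` is a probability weight -/
structure Weighted (w : ι → α → ℝ) : Prop where
  nonneg : ∀ i a, 0 ≤ w i a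
  one : ∀ i, ∑ a, w i a = 1

/-- the weight of a point of the product space -/
noncomputable def wt (w : ι → α → ℝ) (ω : ι → α) : ℝ := ∏ i, w i (ω i)

/-- the expectation -/
noncomputable def EE (w : ι → α → ℝ) (f : (ι → α) → ℝ) : ℝ := ∑ ω, wt w ω * f ω

/-- the probability of an event -/
noncomputable def PP (w : ι → α → ℝ) (A : Finset (ι → α)) : ℝ := ∑ ω ∈ A, wt w ω

/-- the event depends on the coordinates in `S` -/
def Dep (A : Finset (ι → α)) (S : Finset ι) : Prop :=
  ∀ ω ω' : ι → α, (∀ i ∈ S, ω i = ω' i) → ω ∈ A → ω' ∈ A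

/-- the function depends on the coordinates in `S` -/
def DepF (f : (ι → α) → ℝ) (S : Finset ι) : Prop :=
  ∀ ω ω' : ι → α, (∀ i ∈ S, ω i = ω' i) → f ω = f ω'

/-- the points outside all events of `s` -/
def avd (Ev : Y → Finset (ι → α)) (s : Finset Y) : Finset (ι → α) :=
  univ.filter (fun ω => ∀ y ∈ s, ω ∉ Ev y)

/-- `a` on `S`, `b` off `S` -/
def mixS (S : Finset ι) (a b : ι → α) : ι → α := fun i => if i ∈ S then a i else b i

theorem mixS_of_mem {S : Finset ι} {i : ι} (a b : ι → α) (h : i ∈ S) : mixS S a b i = a i :=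
  if_pos h

theorem mixS_of_notMem {S : Finset ι} {i : ι} (a b : ι → α) (h : i ∉ S) :
    mixS S a b i = b i := if_neg h

theorem mixS_mixS (S : Finset ι) (a b : ι → α) : mixS S (mixS S a b) (mixS S b a) = a := by
  funext i
  by_cases h : i ∈ S
  · rw [mixS_of_mem _ _ h, mixS_of_mem _ _ h]
  · rw [mixS_of_notMem _ _ h, mixS_of_notMem _ _ h]

theorem wt_nonneg {w : ι → α → ℝ} (hw : Weighted w) (ω : ι → α) : 0 ≤ wt w ω :=
  prod_nonneg fun i _ => hw.nonneg i (ω i)

theorem wt_sum {w : ι → α → ℝ} (hw : Weighted w) : ∑ ω, wt w ω = 1 := by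
  unfold wt
  rw [← Fintype.piFinset_univ, ← Finset.prod_univ_sum]
  simp only [hw.one, prod_const_one]

theorem wt_mixS (w : ι → α → ℝ) (S : Finset ι) (a b : ι → α) :
    wt w (mixS S a b) * wt w (mixS S b a) = wt w a * wt w b := by
  unfold wt
  rw [← prod_mul_distrib, ← prod_mul_distrib]
  refine prod_congr rfl fun i _ => ?_
  by_cases h : i ∈ S
  · rw [mixS_of_mem _ _ h, mixS_of_mem _ _ h]
  · rw [mixS_of_notMem _ _ h, mixS_of_notMem _ _ h, mul_comm]

/-- functions of disjoint sets of coordinates are independent -/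
theorem EE_mul {w : ι → α → ℝ} (hw : Weighted w) {f g : (ι → α) → ℝ} {S T : Finset ι}
    (hf : DepF f S) (hg : DepF g T) (hST : Disjoint S T) :
    EE w (fun ω => f ω * g ω) = EE w f * EE w g := by
  have hinv : Function.Involutive
      (fun p : (ι → α) × (ι → α) => (mixS S p.1 p.2, mixS S p.2 p.1)) := by
    intro p
    exact Prod.ext (mixS_mixS S p.1 p.2) (mixS_mixS S p.2 p.1)
  have h1 : EE w f * EE w g =
      ∑ p : (ι → α) × (ι → α), wt w p.1 * f p.1 * (wt w p.2 * g p.2) := by
    unfold EE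
    rw [Fintype.sum_mul_sum, Fintype.sum_prod_type]
  have h2 : EE w (fun ω => f ω * g ω) =
      ∑ p : (ι → α) × (ι → α), wt w p.1 * wt w p.2 * (f p.1 * g p.1) := by
    rw [Fintype.sum_prod_type]
    unfold EE
    refine sum_congr rfl fun a _ => ?_
    have : ∑ b, wt w a * wt w b * (f a * g a) = (∑ b, wt w b) * (wt w a * (f a * g a)) := by
      rw [sum_mul]
      exact sum_congr rfl fun b _ => by ring
    rw [this, wt_sum hw, one_mul]
  rw [h1, h2, ← Equiv.sum_comp (hinv.toPerm _)]
  refine sum_congr rfl fun p _ => ?_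
  have h3 : f (mixS S p.1 p.2) = f p.1 :=
    hf _ _ fun i hi => mixS_of_mem _ _ hi
  have h4 : g (mixS S p.1 p.2) = g p.2 :=
    hg _ _ fun i hi => mixS_of_notMem _ _ (disjoint_right.1 hST hi)
  change wt w (mixS S p.1 p.2) * wt w (mixS S p.2 p.1) *
    (f (mixS S p.1 p.2) * g (mixS S p.1 p.2)) = _
  rw [wt_mixS, h3, h4]
  ring

/-- the indicator function of an event -/
noncomputable def ind (A : Finset (ι → α)) (ω : ι → α) : ℝ := if ω ∈ A then 1 else 0

theorem ind_nonneg (A : Finset (ι → α)) (ω : ι → α) : 0 ≤ ind A ω := by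
  unfold ind; split <;> norm_num

theorem EE_ind (w : ι → α → ℝ) (A : Finset (ι → α)) : EE w (ind A) = PP w A := by
  unfold EE PP ind
  simp only [mul_ite, mul_one, mul_zero]
  rw [Finset.sum_ite_mem, univ_inter]

theorem EE_mul_ind (w : ι → α → ℝ) (f : (ι → α) → ℝ) (A : Finset (ι → α)) :
    EE w (fun ω => f ω * ind A ω) = ∑ ω ∈ A, wt w ω * f ω := by
  unfold EE ind
  simp only [mul_ite, mul_one, mul_zero]
  rw [Finset.sum_ite_mem, univ_inter]

theorem DepF_ind {A : Finset (ι → α)} {S : Finset ι} (h : Dep A S) : DepF (ind A) S := by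
  intro ω ω' he
  unfold ind
  by_cases h1 : ω ∈ A
  · rw [if_pos h1, if_pos (h ω ω' he h1)]
  · rw [if_neg h1, if_neg fun h2 => h1 (h ω' ω (fun i hi => (he i hi).symm) h2)]

theorem EE_mono {w : ι → α → ℝ} (hw : Weighted w) {f g : (ι → α) → ℝ} (h : ∀ ω, f ω ≤ g ω) :
    EE w f ≤ EE w g :=
  sum_le_sum fun ω _ => mul_le_mul_of_nonneg_left (h ω) (wt_nonneg hw ω)

theorem EE_nonneg {w : ι → α → ℝ} (hw : Weighted w) {f : (ι → α) → ℝ} (h : ∀ ω, 0 ≤ f ω) :
    0 ≤ EE w f := sum_nonneg fun ω _ => mul_nonneg (wt_nonneg hw ω) (h ω)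

theorem PP_nonneg {w : ι → α → ℝ} (hw : Weighted w) (A : Finset (ι → α)) : 0 ≤ PP w A :=
  sum_nonneg fun ω _ => wt_nonneg hw ω

theorem PP_mono {w : ι → α → ℝ} (hw : Weighted w) {A B : Finset (ι → α)} (h : A ⊆ B) :
    PP w A ≤ PP w B := sum_le_sum_of_subset_of_nonneg h fun ω _ _ => wt_nonneg hw ω

theorem EE_add (w : ι → α → ℝ) (f g : (ι → α) → ℝ) :
    EE w (fun ω => f ω + g ω) = EE w f + EE w g := by
  unfold EE
  rw [← sum_add_distrib]
  exact sum_congr rfl fun ω _ => mul_add _ _ _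

theorem EE_sum {β : Type*} (w : ι → α → ℝ) (s : Finset β) (f : β → (ι → α) → ℝ) :
    EE w (fun ω => ∑ j ∈ s, f j ω) = ∑ j ∈ s, EE w (f j) := by
  unfold EE
  rw [sum_comm]
  exact sum_congr rfl fun ω _ => mul_sum _ _ _

theorem EE_const {w : ι → α → ℝ} (hw : Weighted w) (c : ℝ) : EE w (fun _ => c) = c := by
  unfold EE
  rw [← sum_mul, wt_sum hw, one_mul]

theorem EE_smul (w : ι → α → ℝ) (c : ℝ) (f : (ι → α) → ℝ) :
    EE w (fun ω => c * f ω) = c * EE w f := by
  unfold EE
  rw [mul_sum]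
  exact sum_congr rfl fun ω _ => by ring

variable [DecidableEq Y]

theorem mem_avd {Ev : Y → Finset (ι → α)} {s : Finset Y} {ω : ι → α} :
    ω ∈ avd Ev s ↔ ∀ y ∈ s, ω ∉ Ev y := by
  unfold avd; simp only [mem_filter, mem_univ, true_and]

theorem avd_mono (Ev : Y → Finset (ι → α)) {s t : Finset Y} (h : s ⊆ t) :
    avd Ev t ⊆ avd Ev s := fun _ hω => mem_avd.2 fun y hy => mem_avd.1 hω y (h hy)

theorem avd_dep {Ev : Y → Finset (ι → α)} {S : Y → Finset ι} (hdep : ∀ y, Dep (Ev y) (S y))
    (s : Finset Y) : Dep (avd Ev s) (s.biUnion S) := by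
  intro ω ω' he h
  rw [mem_avd] at h ⊢
  intro y hy hω'
  exact h y hy (hdep y ω' ω (fun i hi => (he i (mem_biUnion.2 ⟨y, hy, hi⟩)).symm) hω')

theorem avd_union_le {w : ι → α → ℝ} (hw : Weighted w) (Ev : Y → Finset (ι → α))
    (s r : Finset Y) :
    PP w (avd Ev s) ≤ PP w (avd Ev (s ∪ r)) + ∑ z ∈ r, PP w (Ev z ∩ avd Ev s) := by
  rw [← EE_ind, ← EE_ind, sum_congr rfl fun z _ => (EE_ind w (Ev z ∩ avd Ev s)).symm,
    ← EE_sum, ← EE_add]
  refine EE_mono hw fun ω => ?_
  have hs : 0 ≤ ∑ z ∈ r, ind (Ev z ∩ avd Ev s) ω := sum_nonneg fun z _ => ind_nonneg _ _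
  by_cases h1 : ω ∈ avd Ev s
  · by_cases h2 : ω ∈ avd Ev (s ∪ r)
    · have e1 : ind (avd Ev s) ω = 1 := if_pos h1
      have e2 : ind (avd Ev (s ∪ r)) ω = 1 := if_pos h2
      rw [e1, e2]
      linarith
    · have h3 : ∃ z ∈ r, ω ∈ Ev z := by
        by_contra hn
        push Not at hn
        refine h2 (mem_avd.2 fun y hy => ?_)
        rcases mem_union.1 hy with hy | hy
        · exact mem_avd.1 h1 y hy
        · exact hn y hy
      obtain ⟨z, hz, hzω⟩ := h3
      have e1 : ind (avd Ev s) ω = 1 := if_pos h1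
      have e2 : ind (Ev z ∩ avd Ev s) ω = 1 := if_pos (mem_inter.2 ⟨hzω, h1⟩)
      have e3 : ind (Ev z ∩ avd Ev s) ω ≤ ∑ z ∈ r, ind (Ev z ∩ avd Ev s) ω :=
        single_le_sum (f := fun z => ind (Ev z ∩ avd Ev s) ω) (fun z _ => ind_nonneg _ _) hz
      have e4 := ind_nonneg (avd Ev (s ∪ r)) ω
      linarith
  · have e1 : ind (avd Ev s) ω = 0 := if_neg h1
    have e4 := ind_nonneg (avd Ev (s ∪ r)) ω
    linarith

variable [Fintype Y]

/-- the events through a coordinate of `T` -/
def nearE (S : Y → Finset ι) (T : Finset ι) : Finset Y := univ.filter (fun y => ¬ Disjoint (S y) T)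

/-- the hypotheses of the local lemma -/
structure LocalHyp (w : ι → α → ℝ) (Ev : Y → Finset (ι → α)) (S : Y → Finset ι) (L : ℕ) :
    Prop where
  weighted : Weighted w
  dep : ∀ y, Dep (Ev y) (S y)
  ne : ∀ y, (S y).Nonempty
  card : ∀ y, (S y).card ≤ L
  sum : ∀ i, ∑ y ∈ univ.filter (fun y => i ∈ S y), PP w (Ev y) ≤ 1 / (8 * L)

theorem sum_touch_le {p : Y → ℝ} (hp : ∀ y, 0 ≤ p y) (S : Y → Finset ι) (s : Finset Y)
    (T : Finset ι) : ∑ z ∈ s.filter (fun z => ¬ Disjoint (S z) T), p z ≤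
      ∑ i ∈ T, ∑ z ∈ univ.filter (fun z => i ∈ S z), p z := by
  have e : ∑ i ∈ T, ∑ z ∈ univ.filter (fun z => i ∈ S z), p z =
      ∑ z, ∑ i ∈ T, if i ∈ S z then p z else 0 := by
    rw [sum_comm]
    exact sum_congr rfl fun i _ => sum_filter _ _
  have h0 : ∀ z i, (0 : ℝ) ≤ if i ∈ S z then p z else 0 := by
    intro z i
    split
    · exact hp z
    · exact le_rfl
  rw [e]
  refine le_trans (sum_le_sum (g := fun z => ∑ i ∈ T, if i ∈ S z then p z else 0) ?_)
    (sum_le_sum_of_subset_of_nonneg (subset_univ _) fun z _ _ => sum_nonneg fun i _ => h0 z i)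
  intro z hz
  obtain ⟨-, hz⟩ := mem_filter.1 hz
  obtain ⟨i, h1, h2⟩ := Finset.not_disjoint_iff.1 hz
  refine le_trans (le_of_eq ?_)
    (single_le_sum (f := fun i => if i ∈ S z then p z else 0) (fun i _ => h0 z i) h2)
  exact (if_pos h1).symm

theorem sum_near {w : ι → α → ℝ} {Ev : Y → Finset (ι → α)} {S : Y → Finset ι} {L : ℕ}
    (h : LocalHyp w Ev S L) (y : Y) (s : Finset Y) :
    ∑ z ∈ s.filter (fun z => ¬ Disjoint (S z) (S y)), PP w (Ev z) ≤ 1 / 8 := by
  have hL : (0 : ℝ) < L := by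
    have := (card_pos.2 (h.ne y)).trans_le (h.card y)
    exact_mod_cast this
  calc ∑ z ∈ s.filter (fun z => ¬ Disjoint (S z) (S y)), PP w (Ev z)
      ≤ ∑ i ∈ S y, ∑ z ∈ univ.filter (fun z => i ∈ S z), PP w (Ev z) :=
        sum_touch_le (fun z => PP_nonneg h.weighted _) S s (S y)
    _ ≤ ∑ _i ∈ S y, 1 / (8 * (L : ℝ)) := sum_le_sum fun i _ => h.sum i
    _ = (S y).card * (1 / (8 * (L : ℝ))) := by rw [sum_const, nsmul_eq_mul]
    _ ≤ L * (1 / (8 * (L : ℝ))) := by
        refine mul_le_mul_of_nonneg_right ?_ (by positivity)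
        exact_mod_cast h.card y
    _ = 1 / 8 := by field_simp

/-- **The local lemma**, conditional form. -/
theorem lll_aux {w : ι → α → ℝ} {Ev : Y → Finset (ι → α)} {S : Y → Finset ι} {L : ℕ}
    (h : LocalHyp w Ev S L) (s : Finset Y) : ∀ y : Y,
    PP w (Ev y ∩ avd Ev s) ≤ 2 * PP w (Ev y) * PP w (avd Ev s) := by
  induction s using Finset.strongInduction with
  | H s ih =>
    intro y
    set far := s.filter (fun z => Disjoint (S z) (S y)) with hfar
    set near := s.filter (fun z => ¬ Disjoint (S z) (S y)) with hnear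
    have hw := h.weighted
    -- independence
    have h1 : PP w (Ev y ∩ avd Ev far) = PP w (Ev y) * PP w (avd Ev far) := by
      have hd : Disjoint (S y) (far.biUnion S) := by
        rw [disjoint_biUnion_right]
        intro z hz
        exact (mem_filter.1 hz).2.symm
      have := EE_mul hw (DepF_ind (h.dep y)) (DepF_ind (avd_dep h.dep far)) hd
      rw [EE_ind, EE_ind] at this
      rw [← this, ← EE_ind]
      unfold EE
      refine sum_congr rfl fun ω _ => ?_
      congr 1
      unfold ind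
      simp only [mem_inter]
      by_cases a : ω ∈ Ev y <;> by_cases b : ω ∈ avd Ev far <;> simp [a, b]
    have h2 : PP w (Ev y ∩ avd Ev s) ≤ PP w (Ev y) * PP w (avd Ev far) := by
      rw [← h1]
      exact PP_mono hw (inter_subset_inter (Subset.refl _) (avd_mono Ev (filter_subset _ _)))
    have h3 : PP w (avd Ev far) ≤ 2 * PP w (avd Ev s) := by
      rcases near.eq_empty_or_nonempty with hn | hn
      · have : far = s := by
          rw [hfar, filter_eq_self]
          intro z hz
          by_contra hd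
          have : z ∈ near := mem_filter.2 ⟨hz, hd⟩
          rw [hn] at this
          exact absurd this (notMem_empty z)
        rw [this]
        have := PP_nonneg hw (avd Ev s)
        linarith
      · have hss : far ⊂ s := by
          rw [Finset.ssubset_iff_of_subset (filter_subset _ _)]
          obtain ⟨z, hz⟩ := hn
          refine ⟨z, (mem_filter.1 hz).1, fun h' => ?_⟩
          exact (mem_filter.1 hz).2 (mem_filter.1 h').2
        have hu : far ∪ near = s := filter_union_filter_not_eq _ s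
        have h4 := avd_union_le hw Ev far near
        rw [hu] at h4
        have h5 : ∑ z ∈ near, PP w (Ev z ∩ avd Ev far) ≤
            2 * (∑ z ∈ near, PP w (Ev z)) * PP w (avd Ev far) := by
          rw [mul_sum, sum_mul]
          exact sum_le_sum fun z _ => ih far hss z
        have h6 := sum_near h y s
        rw [← hnear] at h6
        have h7 := PP_nonneg hw (avd Ev far)
        have h8 := PP_nonneg hw (avd Ev s)
        nlinarith [mul_le_mul_of_nonneg_right h6 h7]
    calc PP w (Ev y ∩ avd Ev s) ≤ PP w (Ev y) * PP w (avd Ev far) := h2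
      _ ≤ PP w (Ev y) * (2 * PP w (avd Ev s)) :=
        mul_le_mul_of_nonneg_left h3 (PP_nonneg hw _)
      _ = 2 * PP w (Ev y) * PP w (avd Ev s) := by ring

/-- adding the events through the coordinates of `T` costs at most a factor `2 ^ |T|` -/
theorem lll_near {w : ι → α → ℝ} {Ev : Y → Finset (ι → α)} {S : Y → Finset ι} {L : ℕ}
    (h : LocalHyp w Ev S L) (s : Finset Y) (T : Finset ι) :
    PP w (avd Ev s) ≤ 2 ^ T.card * PP w (avd Ev (s ∪ nearE S T)) := by
  have hw := h.weighted
  induction T using Finset.induction_on with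
  | empty =>
    have : nearE S ∅ = ∅ := by
      unfold nearE
      rw [filter_eq_empty_iff]
      intro y _ hy
      exact hy (disjoint_empty_right _)
    rw [this, union_empty, card_empty, pow_zero, one_mul]
  | insert i T hi ih =>
    set s' := s ∪ nearE S T with hs'
    have e : s ∪ nearE S (insert i T) = s' ∪ univ.filter (fun y => i ∈ S y) := by
      rw [hs', union_assoc]
      congr 1
      unfold nearE
      ext y
      simp only [mem_filter, mem_univ, true_and, mem_union, disjoint_insert_right]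
      tauto
    have h4 := avd_union_le hw Ev s' (univ.filter (fun y => i ∈ S y))
    have h5 : ∑ z ∈ univ.filter (fun y => i ∈ S y), PP w (Ev z ∩ avd Ev s') ≤
        2 * (∑ z ∈ univ.filter (fun y => i ∈ S y), PP w (Ev z)) * PP w (avd Ev s') := by
      rw [mul_sum, sum_mul]
      exact sum_le_sum fun z _ => lll_aux h s' z
    have h6 : ∑ z ∈ univ.filter (fun y => i ∈ S y), PP w (Ev z) ≤ 1 / 8 := by
      refine (h.sum i).trans ?_
      rcases Nat.eq_zero_or_pos L with hL | hL
      · rw [hL]; norm_num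
      · have : (1 : ℝ) ≤ L := by exact_mod_cast hL
        rw [div_le_div_iff₀ (by positivity) (by norm_num)]
        linarith
    have h7 := PP_nonneg hw (avd Ev s')
    have h8 : PP w (avd Ev s') ≤ 2 * PP w (avd Ev (s' ∪ univ.filter (fun y => i ∈ S y))) := by
      have h9 := PP_nonneg hw (avd Ev (s' ∪ univ.filter (fun y => i ∈ S y)))
      nlinarith [mul_le_mul_of_nonneg_right h6 h7]
    rw [e, card_insert_of_notMem hi, pow_succ, mul_assoc]
    exact ih.trans (mul_le_mul_of_nonneg_left h8 (by positivity))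

/-- **The local lemma.** -/
theorem lll_pos {w : ι → α → ℝ} {Ev : Y → Finset (ι → α)} {S : Y → Finset ι} {L : ℕ}
    (h : LocalHyp w Ev S L) : 0 < PP w (avd Ev univ) := by
  have h1 := lll_near h ∅ univ
  have e1 : (∅ : Finset Y) ∪ nearE S univ = univ := by
    rw [empty_union]
    unfold nearE
    rw [filter_eq_self]
    intro y _ hd
    rw [disjoint_iff_inter_eq_empty, inter_univ] at hd
    exact (h.ne y).ne_empty hd
  have e2 : PP w (avd Ev ∅) = 1 := by
    have : avd Ev (∅ : Finset Y) = univ := by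
      ext ω
      simp only [mem_avd, notMem_empty, false_implies, implies_true, mem_univ]
    rw [this]
    exact wt_sum h.weighted
  rw [e1, e2] at h1
  by_contra hn
  have h2 : PP w (avd Ev univ) ≤ 0 := not_lt.1 hn
  have h3 : (0 : ℝ) < 2 ^ (univ : Finset ι).card := by positivity
  nlinarith [mul_nonneg h3.le (neg_nonneg.2 h2)]

/-- **The local lemma**, expectations under the conditioned measure. -/
theorem lll_exp {w : ι → α → ℝ} {Ev : Y → Finset (ι → α)} {S : Y → Finset ι} {L : ℕ}
    (h : LocalHyp w Ev S L) {f : (ι → α) → ℝ} (hf0 : ∀ ω, 0 ≤ f ω) {T : Finset ι}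
    (hf : DepF f T) :
    ∑ ω ∈ avd Ev univ, wt w ω * f ω ≤ 2 ^ T.card * EE w f * PP w (avd Ev univ) := by
  have hw := h.weighted
  set far : Finset Y := univ.filter (fun y => Disjoint (S y) T) with hfar
  have hu : far ∪ nearE S T = univ := filter_union_filter_not_eq _ univ
  have h1 : ∑ ω ∈ avd Ev univ, wt w ω * f ω ≤ ∑ ω ∈ avd Ev far, wt w ω * f ω :=
    sum_le_sum_of_subset_of_nonneg (avd_mono Ev (subset_univ _))
      fun ω _ _ => mul_nonneg (wt_nonneg hw ω) (hf0 ω)
  have hd : Disjoint T (far.biUnion S) := by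
    rw [disjoint_biUnion_right]
    intro z hz
    exact (mem_filter.1 hz).2.symm
  have h2 : ∑ ω ∈ avd Ev far, wt w ω * f ω = EE w f * PP w (avd Ev far) := by
    rw [← EE_mul_ind, EE_mul hw hf (DepF_ind (avd_dep h.dep far)) hd, EE_ind]
  have h3 := lll_near h far T
  rw [hu] at h3
  calc ∑ ω ∈ avd Ev univ, wt w ω * f ω ≤ EE w f * PP w (avd Ev far) := by rw [← h2]; exact h1
    _ ≤ EE w f * (2 ^ T.card * PP w (avd Ev univ)) :=
      mul_le_mul_of_nonneg_left h3 (EE_nonneg hw hf0)
    _ = 2 ^ T.card * EE w f * PP w (avd Ev univ) := by ring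

/-- a point of positive weight that avoids all events -/
theorem lll_exists {w : ι → α → ℝ} {Ev : Y → Finset (ι → α)} {S : Y → Finset ι} {L : ℕ}
    (h : LocalHyp w Ev S L) : ∃ ω, (∀ y, ω ∉ Ev y) ∧ ∀ i, 0 < w i (ω i) := by
  have h1 := lll_pos h
  have h2 : ∃ ω ∈ avd Ev univ, wt w ω ≠ 0 := by
    by_contra hn
    push Not at hn
    have : PP w (avd Ev univ) = 0 := sum_eq_zero hn
    rw [this] at h1
    exact lt_irrefl _ h1
  obtain ⟨ω, hω, hne⟩ := h2
  refine ⟨ω, fun y => mem_avd.1 hω y (mem_univ y), fun i => ?_⟩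
  refine lt_of_le_of_ne (h.weighted.nonneg i _) (Ne.symm ?_)
  exact (prod_ne_zero_iff.1 hne) i (mem_univ i)

/-- a point of positive weight that avoids all events, at which a sum of local functions is at
most `2 ^ t` times its expectation -/
theorem lll_exists_le {w : ι → α → ℝ} {Ev : Y → Finset (ι → α)} {S : Y → Finset ι} {L : ℕ}
    (h : LocalHyp w Ev S L) {β : Type*} (s : Finset β) (f : β → (ι → α) → ℝ)
    (hf0 : ∀ j ∈ s, ∀ ω, 0 ≤ f j ω) (T : β → Finset ι) (hf : ∀ j ∈ s, DepF (f j) (T j)) (t : ℕ)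
    (ht : ∀ j ∈ s, (T j).card ≤ t) :
    ∃ ω, (∀ y, ω ∉ Ev y) ∧ (∀ i, 0 < w i (ω i)) ∧
      ∑ j ∈ s, f j ω ≤ 2 ^ t * ∑ j ∈ s, EE w (f j) := by
  have hw := h.weighted
  set c : ℝ := 2 ^ t * ∑ j ∈ s, EE w (f j) with hc
  have h1 : ∑ ω ∈ avd Ev univ, wt w ω * ∑ j ∈ s, f j ω ≤ ∑ ω ∈ avd Ev univ, wt w ω * c := by
    have e1 : ∑ ω ∈ avd Ev univ, wt w ω * ∑ j ∈ s, f j ω =
        ∑ j ∈ s, ∑ ω ∈ avd Ev univ, wt w ω * f j ω := by
      rw [sum_comm]
      exact sum_congr rfl fun ω _ => mul_sum _ _ _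
    have e2 : ∑ ω ∈ avd Ev univ, wt w ω * c = c * PP w (avd Ev univ) := by
      rw [← sum_mul, mul_comm]; rfl
    rw [e1, e2, hc, mul_assoc, sum_mul, mul_sum]
    refine sum_le_sum fun j hj => ?_
    refine (lll_exp h (hf0 j hj) (hf j hj)).trans ?_
    rw [mul_assoc]
    refine mul_le_mul_of_nonneg_right ?_
      (mul_nonneg (EE_nonneg hw (hf0 j hj)) (PP_nonneg hw _))
    exact pow_le_pow_right₀ one_le_two (ht j hj)
  have h2 : ∃ ω ∈ avd Ev univ, wt w ω ≠ 0 ∧ ∑ j ∈ s, f j ω ≤ c := by
    by_contra hn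
    push Not at hn
    have h3 : ∃ ω ∈ avd Ev univ, wt w ω * c < wt w ω * ∑ j ∈ s, f j ω := by
      obtain ⟨ω, hω, hne⟩ : ∃ ω ∈ avd Ev univ, wt w ω ≠ 0 := by
        by_contra hn'
        push Not at hn'
        have h4 := lll_pos h
        have : PP w (avd Ev univ) = 0 := sum_eq_zero hn'
        rw [this] at h4
        exact lt_irrefl _ h4
      exact ⟨ω, hω, mul_lt_mul_of_pos_left (hn ω hω hne)
        (lt_of_le_of_ne (wt_nonneg hw ω) (Ne.symm hne))⟩
    have h5 : ∑ ω ∈ avd Ev univ, wt w ω * c < ∑ ω ∈ avd Ev univ, wt w ω * ∑ j ∈ s, f j ω := by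
      refine sum_lt_sum (fun ω hω => ?_) h3
      by_cases hne : wt w ω = 0
      · rw [hne, zero_mul, zero_mul]
      · exact mul_le_mul_of_nonneg_left (hn ω hω hne).le (wt_nonneg hw ω)
    exact absurd h1 (not_le.2 h5)
  obtain ⟨ω, hω, hne, hle⟩ := h2
  refine ⟨ω, fun y => mem_avd.1 hω y (mem_univ y), fun i => ?_, hle⟩
  refine lt_of_le_of_ne (hw.nonneg i _) (Ne.symm ?_)
  exact (prod_ne_zero_iff.1 hne) i (mem_univ i)

end LLL

end F2
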