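import Pool.Agent.F2.Spec
import Pool.Agent.F2.Lll
import Pool.Agent.NW.Conc

/-!
# Project F2, block C: the cover of the leftover by the local lemma
-/

set_option autoImplicit false
set_option linter.unusedSectionVars false

namespace F2

open Finset NW F1

section

variable {ι τ κ : Type} [Fintype ι] [Fintype τ] [Fintype κ] [DecidableEq ι] [DecidableEq τ]
  [DecidableEq κ]

/-- the probability that finitely many coordinates have given values -/
theorem cov_prob (w : ι → τ → ℝ) (hw : ∀ i, ∑ a, w i a = 1) (A : Finset ι) (t : ι → τ) :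
    ∑ ω ∈ univ.filter (fun ω : ι → τ => ∀ i ∈ A, ω i = t i), ∏ i, w i (ω i) =
      ∏ i ∈ A, w i (t i) := by
  have e1 : univ.filter (fun ω : ι → τ => ∀ i ∈ A, ω i = t i) =
      Fintype.piFinset (fun i => if i ∈ A then {t i} else univ) := by
    ext ω
    simp only [mem_filter, mem_univ, true_and, Fintype.mem_piFinset]
    refine forall_congr' fun i => ?_
    by_cases hi : i ∈ A
    · simp [hi]
    · simp [hi]
  have e2 := Finset.prod_univ_sum (fun i => if i ∈ A then {t i} else (univ : Finset τ))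
    (fun i a => w i a)
  rw [e1, ← e2]
  have e3 : ∀ i, ∑ a ∈ (if i ∈ A then {t i} else (univ : Finset τ)), w i a =
      if i ∈ A then w i (t i) else 1 := by
    intro i
    split_ifs with hi
    · rw [sum_singleton]
    · exact hw i
  rw [Finset.prod_congr rfl fun i _ => e3 i, Finset.prod_ite_mem, Finset.univ_inter]

/-- the event of a set of hyperedges -/
def cov_E (S : Sy ι τ) (W : Finset τ) : Finset (ι → τ) :=
  univ.filter (fun ω => ∀ o ∈ W, ∀ e ∈ S.ed o, ω e = o)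

theorem cov_E_prob (S : Sy ι τ) (w : ι → τ → ℝ) (hw : ∀ i, ∑ a, w i a = 1)
    (h0 : ∀ i a, 0 ≤ w i a) (W : Finset τ)
    (hd : ∀ o ∈ W, ∀ o' ∈ W, o ≠ o' → Disjoint (S.ed o) (S.ed o')) :
    ∑ ω ∈ cov_E S W, NWC.prodW w ω ≤ ∏ o ∈ W, ∏ e ∈ S.ed o, w e o := by
  classical
  by_cases hne : Nonempty τ
  swap
  · have hW : W = ∅ := by
      rw [Finset.eq_empty_iff_forall_notMem]
      intro o _
      exact hne ⟨o⟩
    have h1 : ∑ ω ∈ cov_E S W, NWC.prodW w ω ≤ ∑ ω : ι → τ, NWC.prodW w ω :=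
      Finset.sum_le_univ_sum_of_nonneg fun ω => Finset.prod_nonneg fun i _ => h0 _ _
    have h2 := (NWC.pw_prod (p := w) (fun i => ⟨h0 i, hw i⟩)).2
    rw [hW, Finset.prod_empty]
    rw [hW] at h1
    exact h1.trans h2.le
  obtain ⟨t0⟩ := hne
  set A : Finset ι := W.biUnion S.ed with hA
  have ht : ∀ e : ι, ∃ o : τ, e ∈ A → o ∈ W ∧ e ∈ S.ed o := by
    intro e
    by_cases he : e ∈ A
    · obtain ⟨o, ho, heo⟩ := mem_biUnion.1 he
      exact ⟨o, fun _ => ⟨ho, heo⟩⟩
    · exact ⟨t0, fun h => absurd h he⟩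
  choose t ht using ht
  have hsub : cov_E S W ⊆ univ.filter (fun ω : ι → τ => ∀ i ∈ A, ω i = t i) := by
    intro ω hω
    unfold cov_E at hω
    refine mem_filter.2 ⟨mem_univ _, fun i hi => ?_⟩
    exact (mem_filter.1 hω).2 (t i) (ht i hi).1 i (ht i hi).2
  have h1 : ∑ ω ∈ cov_E S W, NWC.prodW w ω ≤
      ∑ ω ∈ univ.filter (fun ω : ι → τ => ∀ i ∈ A, ω i = t i), NWC.prodW w ω :=
    Finset.sum_le_sum_of_subset_of_nonneg hsub fun ω _ _ =>
      Finset.prod_nonneg fun i _ => h0 _ _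
  refine h1.trans ?_
  have h2 := cov_prob w hw A t
  have h3 : ∏ i ∈ A, w i (t i) = ∏ o ∈ W, ∏ e ∈ S.ed o, w e o := by
    rw [hA, Finset.prod_biUnion]
    · refine Finset.prod_congr rfl fun o ho => Finset.prod_congr rfl fun e he => ?_
      have heA : e ∈ A := mem_biUnion.2 ⟨o, ho, he⟩
      have : t e = o := by
        by_contra hne
        exact (Finset.disjoint_left.1 (hd _ (ht e heA).1 o ho hne)) (ht e heA).2 he
      rw [this]
    · intro o ho o' ho' hne
      exact hd o ho o' ho' hne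
  rw [← h3, ← h2]
  exact le_rfl

theorem cov_sum (A : Finset τ) (B : τ → Finset τ) (f : τ → τ → ℝ) :
    ∑ y : τ × τ, (if y.1 ∈ A ∧ y.2 ∈ B y.1 then f y.1 y.2 else 0) =
      ∑ T ∈ A, ∑ T' ∈ B T, f T T' := by
  rw [Fintype.sum_prod_type]
  have e1 : ∀ T, ∑ T', (if T ∈ A ∧ T' ∈ B T then f T T' else 0) =
      if T ∈ A then ∑ T' ∈ B T, f T T' else 0 := by
    intro T
    by_cases h : T ∈ A
    · simp only [h, true_and, if_true]
      rw [Finset.sum_ite_mem, Finset.univ_inter]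
    · simp [h]
  simp only [e1]
  rw [Finset.sum_ite_mem, Finset.univ_inter]

theorem cov_sum' (A : Finset τ) (B : τ → Finset τ) (q : τ → ℝ) :
    ∑ y : τ × τ, (if y.2 ∈ A ∧ y.1 ∈ B y.2 then q y.1 * q y.2 else 0) =
      ∑ T ∈ A, ∑ T' ∈ B T, q T * q T' := by
  rw [← cov_sum A B (fun T T' => q T * q T'), ← Equiv.sum_comp (Equiv.prodComm τ τ)]
  refine Finset.sum_congr rfl fun y _ => ?_
  by_cases h : y.1 ∈ A ∧ y.2 ∈ B y.1
  · exact (if_pos h).trans ((mul_comm _ _).trans (if_pos h).symm)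
  · exact (if_neg h).trans (if_neg h).symm

end

theorem cover_core : ∀ (J : ℕ) (C : ℝ), 0 < C → ∃ η : ℝ, 0 < η ∧
    ∀ (ι τ κ : Type) [Fintype ι] [Fintype τ] [Fintype κ] [DecidableEq ι] [DecidableEq τ]
      [DecidableEq κ] (S : Sy ι τ) (xe : τ → Finset κ) (M : Finset τ) (Ef : Finset ι) (x : τ → ℝ)
      (ν : ℝ), Nonempty τ → S.Good J → 0 < ν → (∀ T ∈ S.Vt, (xe T).card ≤ 2) →
      (∀ U ∈ S.conf, ¬ U ⊆ M) →
      M ⊆ S.R → (∀ T, 0 ≤ x T) → (∀ T, x T ≤ C * ν) →
      (∀ T, x T ≠ 0 → T ∈ S.Vt ∧ ∀ U ∈ S.conf, T ∈ U → ¬ U.erase T ⊆ M) →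
      (∀ e ∈ Ef, 1 / 16 ≤ ∑ T ∈ S.Vt.filter (fun T => e ∈ S.ed T), x T) →
      (∀ f, ((S.Vt.filter (fun T => f ∈ xe T ∧ S.ed T ⊆ Ef)).card : ℝ) * ν ≤ η) →
      (∀ e ∈ Ef, ∑ U ∈ (S.fF e).filter (fun U => U ∩ S.R ⊆ M ∧ ∀ o ∈ U ∩ S.Vt, S.ed o ⊆ Ef),
        ν ^ (U ∩ S.Vt).card ≤ η) →
      ∃ ch : ι → τ, (∀ e ∈ Ef, ch e ∈ S.Vt ∧ S.ed (ch e) = {e}) ∧
        (∀ e ∈ Ef, ∀ e' ∈ Ef, e ≠ e' → Disjoint (xe (ch e)) (xe (ch e'))) ∧
        ∀ U ∈ S.conf, ¬ U ⊆ M ∪ Ef.image ch := by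
  classical
  intro J C hC
  obtain ⟨L, hLdef⟩ : ∃ L : ℕ, L = max 2 J := ⟨_, rfl⟩
  obtain ⟨B, hBdef⟩ : ∃ B : ℝ, B = (max 1 (16 * C)) ^ J := ⟨_, rfl⟩
  have hL2 : 2 ≤ L := hLdef ▸ le_max_left _ _
  have hLJ : J ≤ L := hLdef ▸ le_max_right _ _
  have hLpos : (0 : ℝ) < L := by exact_mod_cast (by omega : 0 < L)
  have hm1 : (1 : ℝ) ≤ max 1 (16 * C) := le_max_left _ _
  have hBpos : 0 < B := by
    rw [hBdef]
    positivity
  refine ⟨1 / (8 * L * (64 * C + B)), by positivity, ?_⟩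
  intro ι τ κ _ _ _ _ _ _ S xe M Ef x ν hne hG hν hxe hM hMR hx0 hxC hxne hlo hη1 hη2
  obtain ⟨t0⟩ := hne
  obtain ⟨η, hηdef⟩ : ∃ η : ℝ, η = 1 / (8 * L * (64 * C + B)) := ⟨_, rfl⟩
  rw [← hηdef] at hη1 hη2
  have hηpos : 0 < η := by
    rw [hηdef]
    positivity
  have hηsum : (64 * C + B) * η = 1 / (8 * L) := by
    rw [hηdef]
    have : 64 * C + B ≠ 0 := by positivity
    field_simp
  -- the weights
  obtain ⟨Se, hSe⟩ : ∃ Se : ι → ℝ, ∀ e, Se e = ∑ T ∈ S.Vt.filter (fun T => e ∈ S.ed T), x T :=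
    ⟨_, fun _ => rfl⟩
  obtain ⟨w, hw⟩ : ∃ w : ι → τ → ℝ, ∀ e T, w e T = if e ∈ Ef then
      (if T ∈ S.Vt ∧ e ∈ S.ed T then x T / Se e else 0) else (if T = t0 then 1 else 0) :=
    ⟨_, fun _ _ => rfl⟩
  have hSe16 : ∀ e ∈ Ef, 1 / 16 ≤ Se e := fun e he => by
    rw [hSe]
    exact hlo e he
  have hSepos : ∀ e ∈ Ef, 0 < Se e := fun e he => lt_of_lt_of_le (by norm_num) (hSe16 e he)
  have hw0 : ∀ i a, 0 ≤ w i a := by
    intro i a
    rw [hw]
    split_ifs with h1 h2
    · exact div_nonneg (hx0 a) (hSepos i h1).le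
    · exact le_rfl
    · exact zero_le_one
    · exact le_rfl
  have hw1 : ∀ i, ∑ a, w i a = 1 := by
    intro i
    by_cases hi : i ∈ Ef
    · have e1 : ∀ a, w i a = if a ∈ S.Vt ∧ i ∈ S.ed a then x a / Se i else 0 := fun a => by
        rw [hw, if_pos hi]
      simp only [e1]
      rw [← Finset.sum_filter]
      have e2 : univ.filter (fun a => a ∈ S.Vt ∧ i ∈ S.ed a) =
          S.Vt.filter (fun T => i ∈ S.ed T) := by
        ext a
        simp
      rw [e2, ← Finset.sum_div, ← hSe]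
      exact div_self (hSepos i hi).ne'
    · have e1 : ∀ a, w i a = if a = t0 then 1 else 0 := fun a => by rw [hw, if_neg hi]
      simp only [e1]
      simp
  have hwle : ∀ e ∈ Ef, ∀ T, w e T ≤ 16 * C * ν := by
    intro e he T
    rw [hw, if_pos he]
    split_ifs with h2
    · rw [div_le_iff₀ (hSepos e he)]
      have h3 := hSe16 e he
      have h4 := hxC T
      have h5 : 0 < C * ν := mul_pos hC hν
      nlinarith
    · positivity
  -- the probabilities of the hyperedges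
  obtain ⟨q, hq⟩ : ∃ q : τ → ℝ, ∀ o, q o = ∏ e ∈ S.ed o, w e o := ⟨_, fun _ => rfl⟩
  have hq0 : ∀ o, 0 ≤ q o := fun o => by
    rw [hq]
    exact Finset.prod_nonneg fun _ _ => hw0 _ _
  have hqw : ∀ o ∈ S.Vt, ∀ e ∈ S.ed o, q o = w e o := by
    intro o ho e he
    obtain ⟨e', he'⟩ := Finset.card_eq_one.1 (hG.card1 o ho)
    rw [hq, he', Finset.prod_singleton]
    rw [he', Finset.mem_singleton] at he
    rw [he]
  have hqle : ∀ o ∈ S.Vt, S.ed o ⊆ Ef → q o ≤ 16 * C * ν := by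
    intro o ho hoE
    obtain ⟨e', he'⟩ := Finset.card_eq_one.1 (hG.card1 o ho)
    have hmem : e' ∈ S.ed o := by
      rw [he']
      exact Finset.mem_singleton_self _
    rw [hqw o ho e' hmem]
    exact hwle e' (hoE hmem) o
  have hqsum : ∀ i, ∑ T ∈ S.Vt.filter (fun T => i ∈ S.ed T), q T ≤ 1 := by
    intro i
    calc ∑ T ∈ S.Vt.filter (fun T => i ∈ S.ed T), q T
        = ∑ T ∈ S.Vt.filter (fun T => i ∈ S.ed T), w i T :=
          Finset.sum_congr rfl fun T hT => hqw T (mem_filter.1 hT).1 i (mem_filter.1 hT).2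
      _ ≤ ∑ T, w i T := Finset.sum_le_univ_sum_of_nonneg fun T => hw0 i T
      _ = 1 := hw1 i
  have hpair : ∀ T ∈ S.Vt, ∑ T' ∈ S.Vt.filter (fun T' => S.ed T' ⊆ Ef ∧
      ¬ Disjoint (xe T) (xe T')), q T' ≤ 32 * C * η := by
    intro T hT
    set D := S.Vt.filter (fun T' => S.ed T' ⊆ Ef ∧ ¬ Disjoint (xe T) (xe T')) with hD
    have h1 : D ⊆ (xe T).biUnion (fun f => S.Vt.filter (fun T' => f ∈ xe T' ∧ S.ed T' ⊆ Ef)) := by
      intro T' hT'
      obtain ⟨h2, h3, h4⟩ := mem_filter.1 hT'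
      obtain ⟨f, hf, hf'⟩ := Finset.not_disjoint_iff.1 h4
      exact mem_biUnion.2 ⟨f, hf, mem_filter.2 ⟨h2, hf', h3⟩⟩
    have h2 : (D.card : ℝ) * ν ≤ 2 * η := by
      have h3 : (D.card : ℝ) ≤
          ∑ f ∈ xe T, ((S.Vt.filter (fun T' => f ∈ xe T' ∧ S.ed T' ⊆ Ef)).card : ℝ) := by
        exact_mod_cast (Finset.card_le_card h1).trans Finset.card_biUnion_le
      calc (D.card : ℝ) * ν
          ≤ (∑ f ∈ xe T, ((S.Vt.filter (fun T' => f ∈ xe T' ∧ S.ed T' ⊆ Ef)).card : ℝ)) * ν :=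
            mul_le_mul_of_nonneg_right h3 hν.le
        _ = ∑ f ∈ xe T, ((S.Vt.filter (fun T' => f ∈ xe T' ∧ S.ed T' ⊆ Ef)).card : ℝ) * ν := by
            rw [Finset.sum_mul]
        _ ≤ ∑ f ∈ xe T, η := Finset.sum_le_sum fun f _ => hη1 f
        _ = ((xe T).card : ℝ) * η := by rw [Finset.sum_const, nsmul_eq_mul]
        _ ≤ 2 * η := by
            refine mul_le_mul_of_nonneg_right ?_ hηpos.le
            exact_mod_cast hxe T hT
    calc ∑ T' ∈ D, q T' ≤ ∑ T' ∈ D, 16 * C * ν :=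
          Finset.sum_le_sum fun T' hT' => hqle T' (mem_filter.1 hT').1 (mem_filter.1 hT').2.1
      _ = 16 * C * ((D.card : ℝ) * ν) := by
          rw [Finset.sum_const, nsmul_eq_mul]
          ring
      _ ≤ 16 * C * (2 * η) := mul_le_mul_of_nonneg_left h2 (by positivity)
      _ = 32 * C * η := by ring
  -- the events
  obtain ⟨V1, hV1⟩ : ∃ V1 : τ × τ → Prop, ∀ y, V1 y ↔ (y.1 ∈ S.Vt ∧ y.2 ∈ S.Vt ∧
      S.ed y.1 ⊆ Ef ∧ S.ed y.2 ⊆ Ef ∧ Disjoint (S.ed y.1) (S.ed y.2) ∧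
      ¬ Disjoint (xe y.1) (xe y.2)) := ⟨_, fun _ => Iff.rfl⟩
  obtain ⟨V2, hV2⟩ : ∃ V2 : Finset τ → Prop, ∀ U, V2 U ↔ (U ∈ S.conf ∧ 2 ≤ (U ∩ S.Vt).card ∧
      U ∩ S.R ⊆ M ∧ ∀ o ∈ U ∩ S.Vt, S.ed o ⊆ Ef) := ⟨_, fun _ => Iff.rfl⟩
  obtain ⟨W, hW1, hW2⟩ : ∃ W : (τ × τ) ⊕ Finset τ → Finset τ,
      (∀ y, W (Sum.inl y) = if V1 y then {y.1, y.2} else ∅) ∧
      ∀ U, W (Sum.inr U) = if V2 U then U ∩ S.Vt else ∅ :=
    ⟨Sum.elim (fun y => if V1 y then {y.1, y.2} else ∅) (fun U => if V2 U then U ∩ S.Vt else ∅),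
      fun _ => rfl, fun _ => rfl⟩
  obtain ⟨Vd, hVd1, hVd2⟩ : ∃ Vd : (τ × τ) ⊕ Finset τ → Prop,
      (∀ y, Vd (Sum.inl y) ↔ V1 y) ∧ ∀ U, Vd (Sum.inr U) ↔ V2 U :=
    ⟨Sum.elim V1 V2, fun _ => Iff.rfl, fun _ => Iff.rfl⟩
  obtain ⟨Ev, hEv⟩ : ∃ Ev : (τ × τ) ⊕ Finset τ → Finset (ι → τ),
      ∀ y, Ev y = if Vd y then cov_E S (W y) else ∅ := ⟨_, fun _ => rfl⟩
  have hWV : ∀ y, W y ⊆ S.Vt := by
    rintro (y | U)
    · rw [hW1]
      split_ifs with h1
      · have h2 := (hV1 y).1 h1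
        intro o ho
        rcases Finset.mem_insert.1 ho with h3 | h3
        · rw [h3]
          exact h2.1
        · rw [Finset.mem_singleton.1 h3]
          exact h2.2.1
      · exact Finset.empty_subset _
    · rw [hW2]
      split_ifs with h1
      · exact Finset.inter_subset_right
      · exact Finset.empty_subset _
  have hWE : ∀ y, ∀ o ∈ W y, S.ed o ⊆ Ef := by
    rintro (y | U)
    · rw [hW1]
      split_ifs with h1
      · have h2 := (hV1 y).1 h1
        intro o ho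
        rcases Finset.mem_insert.1 ho with h3 | h3
        · rw [h3]
          exact h2.2.2.1
        · rw [Finset.mem_singleton.1 h3]
          exact h2.2.2.2.1
      · intro o ho
        exact absurd ho (Finset.notMem_empty _)
    · rw [hW2]
      split_ifs with h1
      · exact ((hV2 U).1 h1).2.2.2
      · intro o ho
        exact absurd ho (Finset.notMem_empty _)
  have hWd : ∀ y, ∀ o ∈ W y, ∀ o' ∈ W y, o ≠ o' → Disjoint (S.ed o) (S.ed o') := by
    rintro (y | U)
    · rw [hW1]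
      split_ifs with h1
      · have h2 := (hV1 y).1 h1
        intro o ho o' ho' hne
        rcases Finset.mem_insert.1 ho with h3 | h3 <;> rcases Finset.mem_insert.1 ho' with h4 | h4
        · exact absurd (h3.trans h4.symm) hne
        · rw [h3, Finset.mem_singleton.1 h4]
          exact h2.2.2.2.2.1
        · rw [h4, Finset.mem_singleton.1 h3]
          exact h2.2.2.2.2.1.symm
        · exact absurd ((Finset.mem_singleton.1 h3).trans (Finset.mem_singleton.1 h4).symm) hne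
      · intro o ho
        exact absurd ho (Finset.notMem_empty _)
    · rw [hW2]
      split_ifs with h1
      · intro o ho o' ho' hne
        exact hG.conf_disj U ((hV2 U).1 h1).1 o (Finset.mem_inter.1 ho).1 o'
          (Finset.mem_inter.1 ho').1 hne
      · intro o ho
        exact absurd ho (Finset.notMem_empty _)
  have hWc : ∀ y, (W y).card ≤ L := by
    rintro (y | U)
    · rw [hW1]
      split_ifs with h1
      · exact (Finset.card_le_two).trans hL2
      · simp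
    · rw [hW2]
      split_ifs with h1
      · exact ((Finset.card_le_card Finset.inter_subset_left).trans
          (hG.conf_card U ((hV2 U).1 h1).1)).trans hLJ
      · simp
  have hprob : ∀ y, ∑ ω ∈ Ev y, NWC.prodW w ω ≤ if Vd y then ∏ o ∈ W y, q o else 0 := by
    intro y
    rw [hEv]
    split_ifs with h1
    · refine (cov_E_prob S w hw1 hw0 (W y) (hWd y)).trans (le_of_eq ?_)
      exact Finset.prod_congr rfl fun o _ => (hq o).symm
    · rw [Finset.sum_empty]
  have hloc : ∀ y, ∀ ω ω' : ι → τ, (∀ i ∈ (W y).biUnion S.ed, ω i = ω' i) → ω ∈ Ev y →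
      ω' ∈ Ev y := by
    intro y ω ω' hωω' hω
    rw [hEv] at hω ⊢
    split_ifs at hω ⊢ with h1
    · unfold cov_E at hω ⊢
      refine mem_filter.2 ⟨mem_univ _, fun o ho e he => ?_⟩
      rw [← hωω' e (mem_biUnion.2 ⟨o, ho, he⟩)]
      exact (mem_filter.1 hω).2 o ho e he
    · exact absurd hω (Finset.notMem_empty _)
  have hScard : ∀ y, ((W y).biUnion S.ed).card ≤ L := by
    intro y
    refine Finset.card_biUnion_le.trans ?_
    calc ∑ o ∈ W y, (S.ed o).card = ∑ o ∈ W y, 1 :=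
          Finset.sum_congr rfl fun o ho => hG.card1 o (hWV y ho)
      _ = (W y).card := by simp
      _ ≤ L := hWc y
  have hne12 : ∀ y : τ × τ, V1 y → y.1 ≠ y.2 := by
    intro y hy heq
    have h2 := (hV1 y).1 hy
    have h3 := h2.2.2.2.2.1
    rw [heq, disjoint_self] at h3
    have h4 := hG.card1 y.2 h2.2.1
    rw [h3] at h4
    simp at h4
  -- the sum of the probabilities
  have hsum : ∀ i, ∑ y ∈ univ.filter (fun y => i ∈ (W y).biUnion S.ed),
      ∑ ω ∈ Ev y, NWC.prodW w ω ≤ 1 / (8 * L) := by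
    intro i
    have s1 : ∑ y ∈ univ.filter (fun y => i ∈ (W y).biUnion S.ed),
        ∑ ω ∈ Ev y, NWC.prodW w ω ≤ ∑ y : (τ × τ) ⊕ Finset τ,
          if i ∈ (W y).biUnion S.ed ∧ Vd y then ∏ o ∈ W y, q o else 0 := by
      rw [Finset.sum_filter]
      refine Finset.sum_le_sum fun y _ => ?_
      by_cases h1 : i ∈ (W y).biUnion S.ed
      · rw [if_pos h1]
        refine (hprob y).trans (le_of_eq ?_)
        by_cases h2 : Vd y
        · rw [if_pos h2, if_pos ⟨h1, h2⟩]
        · rw [if_neg h2, if_neg (fun h => h2 h.2)]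
      · rw [if_neg h1, if_neg (fun h => h1 h.1)]
    refine s1.trans ?_
    rw [Fintype.sum_sum_type, ← hηsum]
    -- pairs
    have s2 : ∑ y : τ × τ, (if i ∈ (W (Sum.inl y)).biUnion S.ed ∧ Vd (Sum.inl y) then
        ∏ o ∈ W (Sum.inl y), q o else 0) ≤ 64 * C * η := by
      have t1 : ∀ y : τ × τ, (if i ∈ (W (Sum.inl y)).biUnion S.ed ∧ Vd (Sum.inl y) then
          ∏ o ∈ W (Sum.inl y), q o else 0) ≤
          (if y.1 ∈ S.Vt.filter (fun T => i ∈ S.ed T) ∧ y.2 ∈ S.Vt.filter (fun T' =>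
            S.ed T' ⊆ Ef ∧ ¬ Disjoint (xe y.1) (xe T')) then q y.1 * q y.2 else 0) +
          (if y.2 ∈ S.Vt.filter (fun T => i ∈ S.ed T) ∧ y.1 ∈ S.Vt.filter (fun T' =>
            S.ed T' ⊆ Ef ∧ ¬ Disjoint (xe y.2) (xe T')) then q y.1 * q y.2 else 0) := by
        intro y
        have hn1 : 0 ≤ q y.1 * q y.2 := mul_nonneg (hq0 _) (hq0 _)
        by_cases h1 : i ∈ (W (Sum.inl y)).biUnion S.ed ∧ Vd (Sum.inl y)
        · have h2 : V1 y := (hVd1 y).1 h1.2
          have h3 := (hV1 y).1 h2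
          have h4 := h1.1
          rw [if_pos h1, hW1, if_pos h2, Finset.prod_pair (hne12 y h2)]
          rw [hW1, if_pos h2] at h4
          obtain ⟨o, ho, hio⟩ := mem_biUnion.1 h4
          rcases Finset.mem_insert.1 ho with h5 | h5
          · rw [h5] at hio
            rw [if_pos ⟨mem_filter.2 ⟨h3.1, hio⟩, mem_filter.2 ⟨h3.2.1, h3.2.2.2.1,
              h3.2.2.2.2.2⟩⟩]
            refine le_add_of_nonneg_right ?_
            split_ifs
            · exact hn1
            · exact le_rfl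
          · rw [Finset.mem_singleton.1 h5] at hio
            rw [add_comm, if_pos ⟨mem_filter.2 ⟨h3.2.1, hio⟩, mem_filter.2 ⟨h3.1, h3.2.2.1,
              fun hd => h3.2.2.2.2.2 hd.symm⟩⟩]
            refine le_add_of_nonneg_right ?_
            split_ifs
            · exact hn1
            · exact le_rfl
        · rw [if_neg h1]
          refine add_nonneg ?_ ?_
          · split_ifs
            · exact hn1
            · exact le_rfl
          · split_ifs
            · exact hn1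
            · exact le_rfl
      refine (Finset.sum_le_sum fun y _ => t1 y).trans ?_
      rw [Finset.sum_add_distrib]
      have t2 : ∑ T ∈ S.Vt.filter (fun T => i ∈ S.ed T), ∑ T' ∈ S.Vt.filter (fun T' =>
          S.ed T' ⊆ Ef ∧ ¬ Disjoint (xe T) (xe T')), q T * q T' ≤ 32 * C * η := by
        calc ∑ T ∈ S.Vt.filter (fun T => i ∈ S.ed T), ∑ T' ∈ S.Vt.filter (fun T' =>
              S.ed T' ⊆ Ef ∧ ¬ Disjoint (xe T) (xe T')), q T * q T'
            ≤ ∑ T ∈ S.Vt.filter (fun T => i ∈ S.ed T), q T * (32 * C * η) := by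
              refine Finset.sum_le_sum fun T hT => ?_
              rw [← Finset.mul_sum]
              exact mul_le_mul_of_nonneg_left (hpair T (mem_filter.1 hT).1) (hq0 T)
          _ = (∑ T ∈ S.Vt.filter (fun T => i ∈ S.ed T), q T) * (32 * C * η) := by
              rw [Finset.sum_mul]
          _ ≤ 1 * (32 * C * η) := mul_le_mul_of_nonneg_right (hqsum i) (by positivity)
          _ = 32 * C * η := one_mul _
      have t3 := cov_sum (S.Vt.filter (fun T => i ∈ S.ed T))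
        (fun T => S.Vt.filter (fun T' => S.ed T' ⊆ Ef ∧ ¬ Disjoint (xe T) (xe T')))
        (fun T T' => q T * q T')
      have t4 := cov_sum' (S.Vt.filter (fun T => i ∈ S.ed T))
        (fun T => S.Vt.filter (fun T' => S.ed T' ⊆ Ef ∧ ¬ Disjoint (xe T) (xe T'))) q
      have t5 : ∑ y : τ × τ, (if y.1 ∈ S.Vt.filter (fun T => i ∈ S.ed T) ∧
          y.2 ∈ S.Vt.filter (fun T' => S.ed T' ⊆ Ef ∧ ¬ Disjoint (xe y.1) (xe T')) then
            q y.1 * q y.2 else 0) ≤ 32 * C * η := (le_of_eq t3).trans t2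
      have t6 : ∑ y : τ × τ, (if y.2 ∈ S.Vt.filter (fun T => i ∈ S.ed T) ∧
          y.1 ∈ S.Vt.filter (fun T' => S.ed T' ⊆ Ef ∧ ¬ Disjoint (xe y.2) (xe T')) then
            q y.1 * q y.2 else 0) ≤ 32 * C * η := (le_of_eq t4).trans t2
      linarith
    -- configurations
    have s3 : ∑ U : Finset τ, (if i ∈ (W (Sum.inr U)).biUnion S.ed ∧ Vd (Sum.inr U) then
        ∏ o ∈ W (Sum.inr U), q o else 0) ≤ B * η := by
      rw [← Finset.sum_filter]
      by_cases hi : i ∈ Ef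
      · have hsub : univ.filter (fun U : Finset τ => i ∈ (W (Sum.inr U)).biUnion S.ed ∧
            Vd (Sum.inr U)) ⊆ (S.fF i).filter (fun U => U ∩ S.R ⊆ M ∧
              ∀ o ∈ U ∩ S.Vt, S.ed o ⊆ Ef) := by
          intro U hU
          obtain ⟨-, h1, h2⟩ := mem_filter.1 hU
          have h3 : V2 U := (hVd2 U).1 h2
          have h4 := (hV2 U).1 h3
          rw [hW2, if_pos h3] at h1
          obtain ⟨o, ho, hio⟩ := mem_biUnion.1 h1
          exact mem_filter.2 ⟨mem_filter.2 ⟨h4.1, h4.2.1, o, ho, hio⟩, h4.2.2⟩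
        calc ∑ U ∈ univ.filter (fun U : Finset τ => i ∈ (W (Sum.inr U)).biUnion S.ed ∧
              Vd (Sum.inr U)), ∏ o ∈ W (Sum.inr U), q o
            ≤ ∑ U ∈ univ.filter (fun U : Finset τ => i ∈ (W (Sum.inr U)).biUnion S.ed ∧
              Vd (Sum.inr U)), B * ν ^ (U ∩ S.Vt).card := by
              refine Finset.sum_le_sum fun U hU => ?_
              obtain ⟨-, h1, h2⟩ := mem_filter.1 hU
              have h3 : V2 U := (hVd2 U).1 h2
              have h4 := (hV2 U).1 h3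
              rw [hW2, if_pos h3]
              calc ∏ o ∈ U ∩ S.Vt, q o ≤ ∏ o ∈ U ∩ S.Vt, 16 * C * ν :=
                    Finset.prod_le_prod (fun o _ => hq0 o) fun o ho =>
                      hqle o (Finset.mem_inter.1 ho).2 (h4.2.2.2 o ho)
                _ = (16 * C) ^ (U ∩ S.Vt).card * ν ^ (U ∩ S.Vt).card := by
                    rw [Finset.prod_const, mul_pow]
                _ ≤ B * ν ^ (U ∩ S.Vt).card := by
                    refine mul_le_mul_of_nonneg_right ?_ (by positivity)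
                    rw [hBdef]
                    calc (16 * C) ^ (U ∩ S.Vt).card
                        ≤ (max 1 (16 * C)) ^ (U ∩ S.Vt).card :=
                          pow_le_pow_left₀ (by positivity) (le_max_right _ _) _
                      _ ≤ (max 1 (16 * C)) ^ J :=
                          pow_le_pow_right₀ hm1 ((Finset.card_le_card
                            Finset.inter_subset_left).trans (hG.conf_card U h4.1))
          _ ≤ ∑ U ∈ (S.fF i).filter (fun U => U ∩ S.R ⊆ M ∧ ∀ o ∈ U ∩ S.Vt, S.ed o ⊆ Ef),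
              B * ν ^ (U ∩ S.Vt).card :=
              Finset.sum_le_sum_of_subset_of_nonneg hsub fun U _ _ => by positivity
          _ = B * ∑ U ∈ (S.fF i).filter (fun U => U ∩ S.R ⊆ M ∧ ∀ o ∈ U ∩ S.Vt, S.ed o ⊆ Ef),
              ν ^ (U ∩ S.Vt).card := by rw [Finset.mul_sum]
          _ ≤ B * η := mul_le_mul_of_nonneg_left (hη2 i hi) hBpos.le
      · rw [Finset.sum_eq_zero]
        · positivity
        · intro U hU
          obtain ⟨-, h1, h2⟩ := mem_filter.1 hU
          obtain ⟨o, ho, hio⟩ := mem_biUnion.1 h1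
          exact absurd (hWE _ o ho hio) hi
    linarith
  -- the local lemma
  have hSne : ∀ y, Vd y → ((W y).biUnion S.ed).Nonempty := by
    have ha : ∀ o ∈ S.Vt, (S.ed o).Nonempty := by
      intro o ho
      rw [← Finset.card_pos, hG.card1 o ho]
      exact one_pos
    rintro (y | U) hy
    · have h1 := (hVd1 y).1 hy
      rw [hW1, if_pos h1]
      obtain ⟨e, he⟩ := ha y.1 ((hV1 y).1 h1).1
      exact ⟨e, mem_biUnion.2 ⟨y.1, Finset.mem_insert_self _ _, he⟩⟩
    · have h1 := (hVd2 U).1 hy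
      rw [hW2, if_pos h1]
      have h2 : 0 < (U ∩ S.Vt).card := lt_of_lt_of_le (by norm_num) ((hV2 U).1 h1).2.1
      obtain ⟨o, ho⟩ := Finset.card_pos.1 h2
      obtain ⟨e, he⟩ := ha o (Finset.mem_inter.1 ho).2
      exact ⟨e, mem_biUnion.2 ⟨o, ho, he⟩⟩
  have hLH : LocalHyp w (fun y : {y // Vd y} => Ev y.1)
      (fun y : {y // Vd y} => (W y.1).biUnion S.ed) L := by
    refine ⟨⟨hw0, hw1⟩, fun y => hloc y.1, fun y => hSne y.1 y.2, fun y => hScard y.1, ?_⟩
    intro i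
    refine le_trans ?_ (hsum i)
    have e1 : ∑ y ∈ univ.filter (fun y : {y // Vd y} => i ∈ (W y.1).biUnion S.ed),
        PP w (Ev y.1) = ∑ y ∈ (univ.filter (fun y : {y // Vd y} =>
          i ∈ (W y.1).biUnion S.ed)).map (Function.Embedding.subtype _),
            ∑ ω ∈ Ev y, NWC.prodW w ω := by
      rw [Finset.sum_map]
      rfl
    rw [e1]
    refine Finset.sum_le_sum_of_subset_of_nonneg ?_ fun y _ _ => ?_
    · intro y hy
      obtain ⟨z, hz, rfl⟩ := Finset.mem_map.1 hy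
      exact mem_filter.2 ⟨mem_univ _, (mem_filter.1 hz).2⟩
    · exact Finset.sum_nonneg fun ω _ => Finset.prod_nonneg fun i _ => hw0 _ _
  obtain ⟨ch, hchE, hchw⟩ := lll_exists hLH
  have hch1 : ∀ y, ch ∉ Ev y := by
    intro y
    by_cases hy : Vd y
    · exact hchE ⟨y, hy⟩
    · rw [hEv, if_neg hy]
      exact Finset.notMem_empty _
  have hch2 : ∀ i, w i (ch i) ≠ 0 := fun i => (hchw i).ne'
  have hch3 : ∀ e ∈ Ef, ch e ∈ S.Vt ∧ e ∈ S.ed (ch e) ∧ x (ch e) ≠ 0 := by
    intro e he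
    have h1 := hch2 e
    rw [hw, if_pos he] at h1
    split_ifs at h1 with h2
    · refine ⟨h2.1, h2.2, ?_⟩
      intro h3
      rw [h3, zero_div] at h1
      exact h1 rfl
    · exact absurd rfl h1
  have hch4 : ∀ e ∈ Ef, S.ed (ch e) = {e} := by
    intro e he
    obtain ⟨e', he'⟩ := Finset.card_eq_one.1 (hG.card1 _ (hch3 e he).1)
    have h1 := (hch3 e he).2.1
    rw [he', Finset.mem_singleton] at h1
    rw [he', h1]
  refine ⟨ch, fun e he => ⟨(hch3 e he).1, hch4 e he⟩, ?_, ?_⟩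
  · intro e he e' he' hee'
    by_contra hdis
    have h1 : V1 (ch e, ch e') := by
      rw [hV1]
      refine ⟨(hch3 e he).1, (hch3 e' he').1, ?_, ?_, ?_, hdis⟩
      · show S.ed (ch e) ⊆ Ef
        rw [hch4 e he]
        exact Finset.singleton_subset_iff.2 he
      · show S.ed (ch e') ⊆ Ef
        rw [hch4 e' he']
        exact Finset.singleton_subset_iff.2 he'
      · show Disjoint (S.ed (ch e)) (S.ed (ch e'))
        rw [hch4 e he, hch4 e' he']
        exact Finset.disjoint_singleton.2 hee'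
    apply hch1 (Sum.inl (ch e, ch e'))
    rw [hEv, if_pos ((hVd1 _).2 h1), hW1, if_pos h1]
    refine mem_filter.2 ⟨mem_univ _, fun o ho a ha => ?_⟩
    rcases Finset.mem_insert.1 ho with h2 | h2
    · have h3 : o = ch e := h2
      rw [h3, hch4 e he, Finset.mem_singleton] at ha
      rw [h3, ha]
    · have h3 : o = ch e' := Finset.mem_singleton.1 h2
      rw [h3, hch4 e' he', Finset.mem_singleton] at ha
      rw [h3, ha]
  · intro U hU hUsub
    have hUR : U ∩ S.R ⊆ M := by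
      intro o ho
      obtain ⟨h1, h2⟩ := Finset.mem_inter.1 ho
      rcases Finset.mem_union.1 (hUsub h1) with h3 | h3
      · exact h3
      · obtain ⟨e, he, rfl⟩ := Finset.mem_image.1 h3
        exact absurd (hch3 e he).1 (Finset.disjoint_left.1 hG.disj h2)
    have hUV : ∀ o ∈ U ∩ S.Vt, ∃ e ∈ Ef, ch e = o := by
      intro o ho
      obtain ⟨h1, h2⟩ := Finset.mem_inter.1 ho
      rcases Finset.mem_union.1 (hUsub h1) with h3 | h3
      · exact absurd h2 (Finset.disjoint_left.1 hG.disj (hMR h3))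
      · obtain ⟨e, he, h4⟩ := Finset.mem_image.1 h3
        exact ⟨e, he, h4⟩
    by_cases hc : 2 ≤ (U ∩ S.Vt).card
    · have h1 : V2 U := by
        rw [hV2]
        refine ⟨hU, hc, hUR, fun o ho => ?_⟩
        obtain ⟨e, he, rfl⟩ := hUV o ho
        rw [hch4 e he]
        exact Finset.singleton_subset_iff.2 he
      apply hch1 (Sum.inr U)
      rw [hEv, if_pos ((hVd2 _).2 h1), hW2, if_pos h1]
      refine mem_filter.2 ⟨mem_univ _, fun o ho a ha => ?_⟩
      obtain ⟨e, he, rfl⟩ := hUV o ho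
      rw [hch4 e he, Finset.mem_singleton] at ha
      rw [ha]
    · by_cases hc1 : (U ∩ S.Vt).card = 1
      · obtain ⟨o, ho⟩ := Finset.card_eq_one.1 hc1
        have hoU : o ∈ U ∩ S.Vt := by
          rw [ho]
          exact Finset.mem_singleton_self _
        obtain ⟨e, he, hoe⟩ := hUV o hoU
        have h2 := (hxne (ch e) (hch3 e he).2.2).2 U hU (by
          rw [hoe]
          exact (Finset.mem_inter.1 hoU).1)
        apply h2
        intro T hT
        obtain ⟨h3, h4⟩ := Finset.mem_erase.1 hT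
        rcases Finset.mem_union.1 (hG.conf_sub U hU h4) with h5 | h5
        · exact hUR (Finset.mem_inter.2 ⟨h4, h5⟩)
        · have h6 : T ∈ U ∩ S.Vt := Finset.mem_inter.2 ⟨h4, h5⟩
          rw [ho, Finset.mem_singleton] at h6
          exact absurd (h6.trans hoe.symm) h3
      · have h0 : U ∩ S.Vt = ∅ := by
          rw [← Finset.card_eq_zero]
          omega
        apply hM U hU
        intro T hT
        rcases Finset.mem_union.1 (hG.conf_sub U hU hT) with h5 | h5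
        · exact hUR (Finset.mem_inter.2 ⟨hT, h5⟩)
        · have h6 : T ∈ U ∩ S.Vt := Finset.mem_inter.2 ⟨hT, h5⟩
          rw [h0] at h6
          exact absurd h6 (Finset.notMem_empty _)

/-- the cover of the leftover -/
theorem cover : CoverStatement := by
  intro J C hC
  obtain ⟨η, hη, h⟩ := cover_core J C hC
  refine ⟨η, hη, ?_⟩
  intro ι τ κ _ _ hne _ _ _ _ S xe M Ef x ν hG
  exact h ι τ κ S xe M Ef x ν hne hG

end F2
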