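import Pool.Agent.F2.Spec
import Pool.Agent.F1.Exact

/-!
# Block X: exact fractional triangle decompositions with weights `O(1/n)` which avoid a sparse set

As `F1.Exact`, with the average over the good maps whose image contains no triple of `B`.
-/

set_option autoImplicit false
set_option linter.unusedSectionVars false

namespace F2.XA

open Finset NWC NW F1 F1.Exact

variable {V : Type} [Fintype V] [DecidableEq V] {m : ℕ}

/-- good maps which avoid `B` -/
def GB (E : Finset (Sym2 V)) (B : Finset (Tri V)) (ψ : Fin m → V) : Prop :=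
  GM E ψ ∧ ∀ a b c, ∀ T ∈ B, T.1 ≠ {ψ a, ψ b, ψ c}

/-- the number of third points -/
theorem card_third (B : Finset (Tri V)) (κ : ℝ)
    (hB : ∀ e, ((B.filter (fun T => e ∈ edg T.1)).card : ℝ) ≤ κ * (Fintype.card V : ℝ)) (u v : V) :
    ((univ.filter (fun w => ∃ T ∈ B, T.1 = {u, v, w})).card : ℝ) ≤ κ * (Fintype.card V : ℝ) := by
  refine le_trans ?_ (hB s(u, v))
  have h1 : univ.filter (fun w => ∃ T ∈ B, T.1 = {u, v, w}) ⊆
      (B.filter (fun T => s(u, v) ∈ edg T.1)).biUnion (fun T => (T.1.erase u).erase v) := by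
    intro w hw
    obtain ⟨T, hT, h⟩ := (Finset.mem_filter.1 hw).2
    have hc := T.2
    rw [h, Finset.card_eq_three] at hc
    have h3 : ({u, v, w} : Finset V).card = 3 := by rw [← h]; exact T.2
    have huv : u ≠ v := by
      rintro rfl
      have := Finset.card_le_two (a := u) (b := w)
      rw [Finset.insert_idem] at h3
      omega
    have huw : w ≠ u := by
      rintro rfl
      have := Finset.card_le_two (a := w) (b := v)
      have h4 : ({w, v, w} : Finset V) = {w, v} := by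
        ext a
        simp only [Finset.mem_insert, Finset.mem_singleton]
        tauto
      rw [h4] at h3
      omega
    have hvw : w ≠ v := by
      rintro rfl
      have := Finset.card_le_two (a := u) (b := w)
      have h4 : ({u, w, w} : Finset V) = {u, w} := by
        ext a
        simp only [Finset.mem_insert, Finset.mem_singleton]
        tauto
      rw [h4] at h3
      omega
    rw [Finset.mem_biUnion]
    refine ⟨T, Finset.mem_filter.2 ⟨hT, ?_⟩, ?_⟩
    · rw [mk_mem_edg, h]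
      exact ⟨by simp, by simp, huv⟩
    · rw [Finset.mem_erase, Finset.mem_erase, h]
      exact ⟨hvw, huw, by simp⟩
  have h2 : ((B.filter (fun T => s(u, v) ∈ edg T.1)).biUnion
      (fun T => (T.1.erase u).erase v)).card ≤ (B.filter (fun T => s(u, v) ∈ edg T.1)).card * 1 := by
    refine Finset.card_biUnion_le_card_mul _ _ _ fun T hT => ?_
    obtain ⟨hu, hv, huv⟩ := mk_mem_edg.1 (Finset.mem_filter.1 hT).2
    rw [Finset.card_erase_of_mem (Finset.mem_erase.2 ⟨huv.symm, hv⟩),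
      Finset.card_erase_of_mem hu, T.2]
  rw [mul_one] at h2
  exact_mod_cast (Finset.card_le_card h1).trans h2

/-- three distinct positions, one of them free -/
theorem pr_triple [Nonempty V] (B : Finset (Tri V)) (κ : ℝ)
    (hB : ∀ e, ((B.filter (fun T => e ∈ edg T.1)).card : ℝ) ≤ κ * (Fintype.card V : ℝ))
    (i j a b c : Fin m) (hab : a ≠ b) (hac : a ≠ c) (hbc : b ≠ c) (hci : c ≠ i) (hcj : c ≠ j)
    (x y : V) :
    Pr (prodW (pp i j x y)) (fun ψ => ∃ T ∈ B, T.1 = {ψ a, ψ b, ψ c}) ≤ κ := by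
  classical
  have hn : (0 : ℝ) < (Fintype.card V : ℝ) := by exact_mod_cast Fintype.card_pos
  have hpw := pw_pp i j x y
  refine NWC.pr_cond_le hpw a (fun u ψ => ∃ T ∈ B, T.1 = {u, ψ b, ψ c}) ?_ _ fun u => ?_
  · intro u ψ v
    rw [Function.update_of_ne hab.symm, Function.update_of_ne hac.symm]
  refine NWC.pr_cond_le hpw b (fun v ψ => ∃ T ∈ B, T.1 = {u, v, ψ c}) ?_ _ fun v => ?_
  · intro v ψ w
    rw [Function.update_of_ne hbc.symm]
  rw [pr_eq_ex, ex_coord hpw c (fun w => if ∃ T ∈ B, T.1 = {u, v, w} then (1 : ℝ) else 0)]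
  unfold Ex pp
  rw [if_neg hci, if_neg hcj]
  simp only [unifW, mul_ite, mul_one, mul_zero]
  rw [← Finset.sum_filter, Finset.sum_const, nsmul_eq_mul, mul_one_div, div_le_iff₀ hn]
  exact card_third B κ hB u v

theorem pr_bad [Nonempty V] (E : Finset (Sym2 V)) (B : Finset (Tri V)) (ε κ : ℝ) (hε : 0 < ε)
    (hκ : 0 ≤ κ) (hε1 : ε ≤ 1)
    (hdeg : ∀ v, (3 / 4 + ε) * (Fintype.card V : ℝ) ≤ (deg E v : ℝ))
    (hm : 13 ≤ ε * (m : ℝ))
    (hB : ∀ e, ((B.filter (fun T => e ∈ edg T.1)).card : ℝ) ≤ κ * (Fintype.card V : ℝ))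
    (i j : Fin m) (x y : V) :
    Pr (prodW (pp i j x y)) (fun ψ => ¬ GB E B ψ)
      ≤ (m : ℝ) * Real.exp (-(ε ^ 2 * (m : ℝ) / 8)) + (m : ℝ) ^ 3 * κ := by
  classical
  have hpw := pw_pp i j x y
  set F : Fin m × Fin m × Fin m → (Fin m → V) → Prop := fun q ψ =>
    (q.1 ≠ q.2.1 ∧ q.1 ≠ q.2.2 ∧ q.2.1 ≠ q.2.2 ∧ q.2.2 ≠ i ∧ q.2.2 ≠ j) ∧
      ∃ T ∈ B, T.1 = {ψ q.1, ψ q.2.1, ψ q.2.2} with hF
  have h1 : Pr (prodW (pp i j x y)) (fun ψ => ¬ GB E B ψ)
      ≤ Pr (prodW (pp i j x y)) (fun ψ => ¬ GM E ψ ∨ ∃ q, F q ψ) := by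
    refine pr_mono (pw_prod hpw) ?_
    intro ψ hψ
    by_cases hg : GM E ψ
    · right
      unfold GB at hψ
      push Not at hψ
      obtain ⟨a, b, c, T, hT, h⟩ := hψ hg
      have h3 : ({ψ a, ψ b, ψ c} : Finset V).card = 3 := by rw [← h]; exact T.2
      have hab : a ≠ b := by
        rintro rfl
        have := Finset.card_le_two (a := ψ a) (b := ψ c)
        rw [Finset.insert_idem] at h3
        omega
      have hac : a ≠ c := by
        rintro rfl
        have := Finset.card_le_two (a := ψ a) (b := ψ b)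
        have h4 : ({ψ a, ψ b, ψ a} : Finset V) = {ψ a, ψ b} := by
          ext v
          simp only [Finset.mem_insert, Finset.mem_singleton]
          tauto
        rw [h4] at h3
        omega
      have hbc : b ≠ c := by
        rintro rfl
        have := Finset.card_le_two (a := ψ a) (b := ψ b)
        have h4 : ({ψ a, ψ b, ψ b} : Finset V) = {ψ a, ψ b} := by
          ext v
          simp only [Finset.mem_insert, Finset.mem_singleton]
          tauto
        rw [h4] at h3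
        omega
      by_cases hc : c ≠ i ∧ c ≠ j
      · exact ⟨(a, b, c), ⟨hab, hac, hbc, hc.1, hc.2⟩, T, hT, h⟩
      by_cases hb : b ≠ i ∧ b ≠ j
      · refine ⟨(a, c, b), ⟨hac, hab, hbc.symm, hb.1, hb.2⟩, T, hT, ?_⟩
        rw [h]
        ext v
        simp only [Finset.mem_insert, Finset.mem_singleton]
        tauto
      by_cases ha : a ≠ i ∧ a ≠ j
      · refine ⟨(b, c, a), ⟨hbc, hab.symm, hac.symm, ha.1, ha.2⟩, T, hT, ?_⟩
        rw [h]
        ext v
        simp only [Finset.mem_insert, Finset.mem_singleton]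
        tauto
      exfalso
      have hc' : c = i ∨ c = j := by
        by_contra h0
        push Not at h0
        exact hc h0
      have hb' : b = i ∨ b = j := by
        by_contra h0
        push Not at h0
        exact hb h0
      have ha' : a = i ∨ a = j := by
        by_contra h0
        push Not at h0
        exact ha h0
      rcases ha' with rfl | rfl <;> rcases hb' with rfl | rfl <;> rcases hc' with rfl | rfl <;>
        first
        | exact hab rfl
        | exact hac rfl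
        | exact hbc rfl
    · exact Or.inl hg
  have h2 : Pr (prodW (pp i j x y)) (fun ψ => ∃ q, F q ψ) ≤ (m : ℝ) ^ 3 * κ := by
    refine (pr_exists_le' (pw_prod hpw) _).trans ?_
    refine (Finset.sum_le_sum (g := fun _ => κ) fun q _ => ?_).trans (le_of_eq ?_)
    · by_cases hq : q.1 ≠ q.2.1 ∧ q.1 ≠ q.2.2 ∧ q.2.1 ≠ q.2.2 ∧ q.2.2 ≠ i ∧ q.2.2 ≠ j
      · refine le_trans (pr_mono (pw_prod hpw) fun ψ hψ => hψ.2)
          (pr_triple B κ hB i j q.1 q.2.1 q.2.2 hq.1 hq.2.1 hq.2.2.1 hq.2.2.2.1 hq.2.2.2.2 x y)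
      · refine le_trans (pr_mono (F := fun _ => False) (pw_prod hpw) fun ψ hψ => hq hψ.1) ?_
        rw [pr_false]
        exact hκ
    · rw [Finset.sum_const, Finset.card_univ, Fintype.card_prod, Fintype.card_prod,
        Fintype.card_fin, nsmul_eq_mul]
      push_cast
      ring
  refine h1.trans ((pr_or (pw_prod hpw) _ _).trans ?_)
  exact add_le_add (pr_bad_le' E ε hε hε1 hdeg hm i j x y) h2

/-- a constant `m` for which the failure probability is at most `1/m` -/
theorem exists_mk (ε : ℝ) (hε : 0 < ε) : ∃ m : ℕ, 2 ≤ m ∧ 13 ≤ ε * (m : ℝ) ∧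
    (m : ℝ) * Real.exp (-(ε ^ 2 * (m : ℝ) / 8)) + (m : ℝ) ^ 3 * (1 / (2 * (m : ℝ) ^ 4))
      ≤ 1 / (m : ℝ) := by
  obtain ⟨m, hm⟩ := exists_nat_ge (2 + 13 / ε + 6144 / ε ^ 6)
  have h1 : 0 < 13 / ε := by positivity
  have h2 : 0 < 6144 / ε ^ 6 := by positivity
  have hm2 : (2 : ℝ) ≤ m := by linarith
  have hm0 : (0 : ℝ) < m := by linarith
  refine ⟨m, by exact_mod_cast hm2, ?_, ?_⟩
  · have h3 : 13 / ε ≤ (m : ℝ) := by linarith
    rw [div_le_iff₀ hε] at h3
    linarith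
  · have h3 : 6144 / ε ^ 6 ≤ (m : ℝ) := by linarith
    rw [div_le_iff₀ (by positivity)] at h3
    have h8 : (m : ℝ) ^ 3 * (1 / (2 * (m : ℝ) ^ 4)) = 1 / (2 * (m : ℝ)) := by
      field_simp
    have h9 : (m : ℝ) * Real.exp (-(ε ^ 2 * (m : ℝ) / 8)) ≤ 1 / (2 * (m : ℝ)) := by
      set t : ℝ := ε ^ 2 * (m : ℝ) / 8 with ht
      have ht0 : 0 < t := by positivity
      have h4 := Real.pow_div_factorial_le_exp t ht0.le 3
      have h5 : t ^ 3 / 6 ≤ Real.exp t := by
        have : ((Nat.factorial 3 : ℕ) : ℝ) = 6 := by norm_num [Nat.factorial]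
        rw [this] at h4
        exact h4
      rw [Real.exp_neg, ← div_eq_mul_inv, div_le_iff₀ (Real.exp_pos _), div_mul_eq_mul_div, one_mul,
        le_div_iff₀ (by linarith)]
      refine le_trans ?_ h5
      rw [ht]
      have h7 : (ε ^ 2 * (m : ℝ) / 8) ^ 3 / 6 = (m : ℝ) * (m : ℝ) * ((m : ℝ) * ε ^ 6) / 3072 := by
        ring
      rw [h7, le_div_iff₀ (by norm_num)]
      nlinarith [mul_le_mul_of_nonneg_left h3 (by positivity : (0 : ℝ) ≤ (m : ℝ) * (m : ℝ))]
    rw [h8]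
    have h10 : 1 / (2 * (m : ℝ)) + 1 / (2 * (m : ℝ)) = 1 / (m : ℝ) := by
      field_simp
      norm_num
    linarith

/-! ## Counting good maps -/

open Classical in
/-- good maps with two prescribed values -/
noncomputable def gm (E : Finset (Sym2 V)) (B : Finset (Tri V)) (m : ℕ) (i j : Fin m) (x y : V) :
    Finset (Fin m → V) :=
  univ.filter (fun ψ => GB E B ψ ∧ ψ i = x ∧ ψ j = y)

/-- number of good maps with two prescribed values, over all pairs of positions -/
noncomputable def cnt (E : Finset (Sym2 V)) (B : Finset (Tri V)) (m : ℕ) (x y : V) : ℕ :=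
  ∑ q ∈ od m, (gm E B m q.1 q.2 x y).card

theorem cnt_comm (E : Finset (Sym2 V)) (B : Finset (Tri V)) (x y : V) :
    cnt E B m x y = cnt E B m y x := by
  unfold cnt
  refine Finset.sum_bij (fun q _ => (q.2, q.1)) ?_ ?_ ?_ ?_
  · intro q hq
    unfold od at hq ⊢
    rw [Finset.mem_filter] at hq ⊢
    exact ⟨Finset.mem_univ _, fun h => hq.2 h.symm⟩
  · rintro ⟨a, b⟩ _ ⟨c, d⟩ _ h
    simp only [Prod.mk.injEq] at h
    simp [h.1, h.2]
  · rintro ⟨a, b⟩ hq
    refine ⟨(b, a), ?_, rfl⟩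
    unfold od at hq ⊢
    rw [Finset.mem_filter] at hq ⊢
    exact ⟨Finset.mem_univ _, fun h => hq.2 h.symm⟩
  · rintro ⟨a, b⟩ _
    unfold gm
    congr 1
    ext ψ
    simp only [Finset.mem_filter, Finset.mem_univ, true_and]
    tauto

theorem pr_good_eq (E : Finset (Sym2 V)) (B : Finset (Tri V)) (i j : Fin m) (hij : i ≠ j) (x y : V) :
    Pr (prodW (pp i j x y)) (fun ψ => GB E B ψ)
      = ((gm E B m i j x y).card : ℝ) * (1 / (Fintype.card V : ℝ)) ^ (m - 2) := by
  classical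
  unfold Pr gm
  rw [← nsmul_eq_mul, ← Finset.sum_const, Finset.sum_filter]
  refine Finset.sum_congr rfl fun ψ _ => ?_
  rw [prodW_pp i j hij]
  by_cases h1 : GB E B ψ <;> by_cases h2 : ψ i = x ∧ ψ j = y <;> simp [h1, h2]

theorem cnt_mul (E : Finset (Sym2 V)) (B : Finset (Tri V)) (x y : V) :
    (cnt E B m x y : ℝ) * (1 / (Fintype.card V : ℝ)) ^ (m - 2)
      = ∑ q ∈ od m, Pr (prodW (pp q.1 q.2 x y)) (fun ψ => GB E B ψ) := by
  unfold cnt
  rw [Nat.cast_sum, Finset.sum_mul]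
  refine Finset.sum_congr rfl fun q hq => ?_
  rw [pr_good_eq E B q.1 q.2 (Finset.mem_filter.1 hq).2]

theorem cnt_le [Nonempty V] (hm : 2 ≤ m) (E : Finset (Sym2 V)) (B : Finset (Tri V)) (x y : V) :
    cnt E B m x y ≤ tot m (Fintype.card V) := by
  have hn : (0 : ℝ) < (Fintype.card V : ℝ) := by exact_mod_cast Fintype.card_pos
  have h1 : (cnt E B m x y : ℝ) * (1 / (Fintype.card V : ℝ)) ^ (m - 2)
      ≤ (tot m (Fintype.card V) : ℝ) * (1 / (Fintype.card V : ℝ)) ^ (m - 2) := by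
    rw [cnt_mul, tot_mul hm, ← card_od hm, ← nsmul_one]
    exact Finset.sum_le_card_nsmul _ _ _ fun q _ => pr_le_one (pw_prod (pw_pp q.1 q.2 x y)) _
  have h2 := le_of_mul_le_mul_right h1 (by positivity)
  exact_mod_cast h2

theorem le_cnt [Nonempty V] (hm : 2 ≤ m) (E : Finset (Sym2 V)) (B : Finset (Tri V)) (ε κ : ℝ)
    (hε : 0 < ε) (hκ : 0 ≤ κ)
    (hε1 : ε ≤ 1) (hdeg : ∀ v, (3 / 4 + ε) * (Fintype.card V : ℝ) ≤ (deg E v : ℝ))
    (hm13 : 13 ≤ ε * (m : ℝ))
    (hB : ∀ e, ((B.filter (fun T => e ∈ edg T.1)).card : ℝ) ≤ κ * (Fintype.card V : ℝ))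
    (hmm : (m : ℝ) * Real.exp (-(ε ^ 2 * (m : ℝ) / 8)) + (m : ℝ) ^ 3 * κ ≤ 1 / (m : ℝ))
    (x y : V) :
    (m - 1) * tot m (Fintype.card V) ≤ m * cnt E B m x y := by
  have hn : (0 : ℝ) < (Fintype.card V : ℝ) := by exact_mod_cast Fintype.card_pos
  have hm' : (2 : ℝ) ≤ m := by exact_mod_cast hm
  have h1 : (1 - 1 / (m : ℝ)) * ((tot m (Fintype.card V) : ℝ)
      * (1 / (Fintype.card V : ℝ)) ^ (m - 2))
      ≤ (cnt E B m x y : ℝ) * (1 / (Fintype.card V : ℝ)) ^ (m - 2) := by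
    rw [cnt_mul, tot_mul hm, ← card_od hm, mul_comm, ← nsmul_eq_mul]
    refine Finset.card_nsmul_le_sum _ _ _ fun q _ => ?_
    have h2 := pr_bad E B ε κ hε hκ hε1 hdeg hm13 hB q.1 q.2 x y
    rw [pr_not (pw_prod (pw_pp q.1 q.2 x y))] at h2
    linarith
  rw [← mul_assoc] at h1
  have h2 := le_of_mul_le_mul_right h1 (by positivity)
  have h3 : ((m : ℝ) - 1) * (tot m (Fintype.card V) : ℝ) ≤ (m : ℝ) * (cnt E B m x y : ℝ) := by
    have h4 : ((m : ℝ) - 1) * (tot m (Fintype.card V) : ℝ)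
        = (m : ℝ) * ((1 - 1 / (m : ℝ)) * (tot m (Fintype.card V) : ℝ)) := by
      field_simp
    rw [h4]
    exact mul_le_mul_of_nonneg_left h2 (by linarith)
  have h5 : (((m - 1 : ℕ) : ℝ)) = (m : ℝ) - 1 := by
    rw [Nat.cast_sub (by omega), Nat.cast_one]
  have h6 : (((m - 1) * tot m (Fintype.card V) : ℕ) : ℝ) ≤ ((m * cnt E B m x y : ℕ) : ℝ) := by
    rw [Nat.cast_mul, Nat.cast_mul, h5]
    exact h3
  exact_mod_cast h6

/-- the demand of the pulled back graph -/
noncomputable def dem (E : Finset (Sym2 V)) (B : Finset (Tri V)) (m : ℕ) (x y : V) : ℚ :=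
  if s(x, y) ∈ E then (1 - 1 / (m : ℚ)) * (tot m (Fintype.card V) : ℚ) / (cnt E B m x y : ℚ) else 0

theorem dem_comm (E : Finset (Sym2 V)) (B : Finset (Tri V)) (x y : V) :
    dem E B m x y = dem E B m y x := by
  unfold dem
  rw [cnt_comm E B x y, Sym2.eq_swap]

theorem dem_bounds [Nonempty V] (hm : 2 ≤ m) (E : Finset (Sym2 V)) (B : Finset (Tri V)) (x y : V)
    (hc : (m - 1) * tot m (Fintype.card V) ≤ m * cnt E B m x y) (hxy : s(x, y) ∈ E) :
    1 - 1 / (m : ℚ) ≤ dem E B m x y ∧ dem E B m x y ≤ 1 ∧ 0 < cnt E B m x y := by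
  have hm' : (2 : ℚ) ≤ m := by exact_mod_cast hm
  have hm0 : (0 : ℚ) < m := by linarith
  have ht := tot_pos (V := V) hm
  have ht' : (0 : ℚ) < tot m (Fintype.card V) := by exact_mod_cast ht
  have hc0 : 0 < cnt E B m x y := by
    have h1 : 0 < (m - 1) * tot m (Fintype.card V) := Nat.mul_pos (by omega) ht
    have h2 : 0 < m * cnt E B m x y := lt_of_lt_of_le h1 hc
    exact Nat.pos_of_mul_pos_left h2
  have hc0' : (0 : ℚ) < cnt E B m x y := by exact_mod_cast hc0
  have hu : (cnt E B m x y : ℚ) ≤ tot m (Fintype.card V) := by exact_mod_cast cnt_le hm E B x y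
  have hl : ((m : ℚ) - 1) * tot m (Fintype.card V) ≤ m * cnt E B m x y := by
    have h5 : (((m - 1 : ℕ) : ℚ)) = (m : ℚ) - 1 := by
      rw [Nat.cast_sub (by omega), Nat.cast_one]
    rw [← h5]
    exact_mod_cast hc
  have hq : 0 ≤ 1 - 1 / (m : ℚ) := by
    rw [sub_nonneg, div_le_one hm0]
    linarith
  unfold dem
  rw [if_pos hxy]
  refine ⟨?_, ?_, hc0⟩
  · rw [le_div_iff₀ hc0']
    exact mul_le_mul_of_nonneg_left hu hq
  · rw [div_le_one hc0']
    have h4 : (1 - 1 / (m : ℚ)) * (tot m (Fintype.card V) : ℚ)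
        = (((m : ℚ) - 1) * tot m (Fintype.card V)) / m := by
      field_simp
    rw [h4, div_le_iff₀ hm0]
    linarith

theorem dem_nonneg (hm : 2 ≤ m) (E : Finset (Sym2 V)) (B : Finset (Tri V)) (x y : V) :
    0 ≤ dem E B m x y := by
  have hm' : (2 : ℚ) ≤ m := by exact_mod_cast hm
  have hq : 0 ≤ 1 - 1 / (m : ℚ) := by
    rw [sub_nonneg, div_le_one (by linarith)]
    linarith
  unfold dem
  split_ifs
  · positivity
  · exact le_rfl

/-- the fractional decomposition of the pull-back along a good map -/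
theorem exists_D [Nonempty V] (hm : 2 ≤ m) (E : Finset (Sym2 V)) (B : Finset (Tri V)) (hE : NL E)
    (hc : ∀ x y, (m - 1) * tot m (Fintype.card V) ≤ m * cnt E B m x y) (ψ : Fin m → V)
    (hψ : GB E B ψ) :
    ∃ D : Fin m → Fin m → Fin m → ℝ, (∀ i j k, 0 ≤ D i j k) ∧ (∀ i j k, D i j k ≤ 1) ∧
      (∀ i j k, D i j k = D j i k) ∧ (∀ i j k, D i j k = D i k j) ∧
      (∀ i j k, D i j k ≠ 0 → s(ψ i, ψ j) ∈ E ∧ s(ψ j, ψ k) ∈ E ∧ s(ψ i, ψ k) ∈ E) ∧
      ∀ i j, i ≠ j → ∑ k, D i j k = (dem E B m (ψ i) (ψ j) : ℝ) := by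
  have hm' : (2 : ℚ) ≤ m := by exact_mod_cast hm
  have hm0 : (0 : ℚ) < m := by linarith
  have hdd : ∀ x, dem E B m x x = 0 := by
    intro x
    unfold dem
    rw [if_neg (fun h => hE _ h (by simp))]
  have hle1 : ∀ i j : Fin m, dem E B m (ψ i) (ψ j) ≤ 1 := by
    intro i j
    by_cases h : s(ψ i, ψ j) ∈ E
    · exact (dem_bounds hm E B _ _ (hc _ _) h).2.1
    · unfold dem
      rw [if_neg h]
      norm_num
  have hsum : ∀ i : Fin m, 4 * ∑ j : Fin m, (1 - dem E B m (ψ i) (ψ j)) ≤ (m : ℚ) := by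
    intro i
    have h1 : ∀ j : Fin m, 1 - dem E B m (ψ i) (ψ j)
        ≤ 1 / (m : ℚ) + (1 - if s(ψ i, ψ j) ∈ E then (1 : ℚ) else 0) := by
      intro j
      by_cases h : s(ψ i, ψ j) ∈ E
      · have := (dem_bounds hm E B _ _ (hc _ _) h).1
        rw [if_pos h]
        linarith
      · rw [if_neg h]
        unfold dem
        rw [if_neg h]
        have : 0 ≤ 1 / (m : ℚ) := by positivity
        linarith
    have h2 : ∑ j : Fin m, (1 - dem E B m (ψ i) (ψ j))
        ≤ 1 + (m - ((univ.filter (fun l => s(ψ i, ψ l) ∈ E)).card : ℚ)) := by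
      refine (Finset.sum_le_sum fun j _ => h1 j).trans (le_of_eq ?_)
      rw [Finset.sum_add_distrib, Finset.sum_sub_distrib, ← Finset.sum_filter]
      simp only [Finset.sum_const, Finset.card_univ, Fintype.card_fin, nsmul_eq_mul, mul_one]
      rw [mul_one_div_cancel hm0.ne']
    have h3 := hψ.1 i
    have h4 : 3 * (m : ℚ) + 4 ≤ 4 * ((univ.filter (fun l => s(ψ i, ψ l) ∈ E)).card : ℚ) := by
      exact_mod_cast h3
    linarith
  obtain ⟨D, h1, h2, h3, h4, h5, h6⟩ := frac_ord (m := m) (fun i j => dem E B m (ψ i) (ψ j))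
    (fun i j => dem_nonneg hm E B _ _) hle1 (fun i j => dem_comm E B _ _)
    (fun i => hdd _) hsum
  refine ⟨D, h1, h2, h3, h4, fun i j k h => ?_, h6⟩
  have h7 : ∀ x y, dem E B m x y ≠ 0 → s(x, y) ∈ E := by
    intro x y h
    by_contra h'
    exact h (by unfold dem; rw [if_neg h'])
  obtain ⟨a, b, c⟩ := h5 i j k h
  exact ⟨h7 _ _ a, h7 _ _ b, h7 _ _ c⟩

/-! ## The average -/

theorem exact_ord (E : Finset (Sym2 V)) (B : Finset (Tri V)) (hE : NL E) [Nonempty V] (ε κ : ℝ)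
    (hε : 0 < ε) (hκ : 0 ≤ κ)
    (hε1 : ε ≤ 1) (hdeg : ∀ v, (3 / 4 + ε) * (Fintype.card V : ℝ) ≤ (deg E v : ℝ))
    (hm : 2 ≤ m) (hm13 : 13 ≤ ε * (m : ℝ))
    (hB : ∀ e, ((B.filter (fun T => e ∈ edg T.1)).card : ℝ) ≤ κ * (Fintype.card V : ℝ))
    (hmm : (m : ℝ) * Real.exp (-(ε ^ 2 * (m : ℝ) / 8)) + (m : ℝ) ^ 3 * κ ≤ 1 / (m : ℝ)) :
    ∃ W : V → V → V → ℝ, (∀ x y z, 0 ≤ W x y z) ∧
      (∀ x y z, W x y z ≤ 2 * (m : ℝ) / (Fintype.card V : ℝ)) ∧
      (∀ x y z, W x y z = W y x z) ∧ (∀ x y z, W x y z = W x z y) ∧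
      (∀ x y z, W x y z ≠ 0 → s(x, y) ∈ E ∧ s(y, z) ∈ E ∧ s(x, z) ∈ E) ∧
      (∀ x y z, W x y z ≠ 0 → ∀ T ∈ B, T.1 ≠ {x, y, z}) ∧
      ∀ x y, s(x, y) ∈ E → ∑ z, W x y z = 1 := by
  classical
  have hm' : (2 : ℝ) ≤ m := by exact_mod_cast hm
  have hn : (0 : ℝ) < (Fintype.card V : ℝ) := by exact_mod_cast Fintype.card_pos
  have hc : ∀ x y : V, (m - 1) * tot m (Fintype.card V) ≤ m * cnt E B m x y :=
    le_cnt hm E B ε κ hε hκ hε1 hdeg hm13 hB hmm
  have hex : ∀ ψ : Fin m → V, ∃ D : Fin m → Fin m → Fin m → ℝ,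
      (∀ i j k, 0 ≤ D i j k) ∧ (∀ i j k, D i j k ≤ 1) ∧
      (∀ i j k, D i j k = D j i k) ∧ (∀ i j k, D i j k = D i k j) ∧
      (∀ i j k, D i j k ≠ 0 → s(ψ i, ψ j) ∈ E ∧ s(ψ j, ψ k) ∈ E ∧ s(ψ i, ψ k) ∈ E) ∧
      (∀ i j k, D i j k ≠ 0 → GB E B ψ) ∧
      (∀ i j, i ≠ j → ∑ k, D i j k = if GB E B ψ then (dem E B m (ψ i) (ψ j) : ℝ) else 0) := by
    intro ψ
    by_cases h : GB E B ψ
    · obtain ⟨D, h1, h2, h3, h4, h5, h6⟩ := exists_D hm E B hE hc ψ h
      exact ⟨D, h1, h2, h3, h4, h5, fun _ _ _ _ => h, fun i j hij => by rw [h6 i j hij, if_pos h]⟩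
    · refine ⟨fun _ _ _ => 0, fun _ _ _ => le_rfl, fun _ _ _ => zero_le_one,
        fun _ _ _ => rfl, fun _ _ _ => rfl, fun _ _ _ h' => absurd rfl h',
        fun _ _ _ h' => absurd rfl h', fun i j _ => ?_⟩
      rw [if_neg h]
      simp
  choose D D0 D1 s12 s23 Ds Dg De using hex
  have hdiag : ∀ (v : V), s(v, v) ∉ E := fun v h => hE _ h (by simp)
  have hD0 : ∀ ψ i k, D ψ i i k = 0 := by
    intro ψ i k
    by_contra h
    exact hdiag _ (Ds ψ i i k h).1
  have hD1 : ∀ ψ i j, D ψ i j i = 0 := by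
    intro ψ i k
    by_contra h
    exact hdiag _ (Ds ψ i k i h).2.2
  have hD2 : ∀ ψ i j, D ψ i j j = 0 := by
    intro ψ i k
    by_contra h
    exact hdiag _ (Ds ψ i k k h).2.1
  have hq : (1 : ℝ) / 2 ≤ 1 - 1 / (m : ℝ) := by
    have : 1 / (m : ℝ) ≤ 1 / 2 := one_div_le_one_div_of_le (by norm_num) hm'
    linarith
  have hq0 : (0 : ℝ) < 1 - 1 / (m : ℝ) := by linarith
  refine ⟨fun x y z => avgW D x y z / (1 - 1 / (m : ℝ)),
    fun x y z => div_nonneg (avgW_nonneg hm D D0 x y z) hq0.le, ?_, ?_, ?_, ?_, ?_, ?_⟩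
  · intro x y z
    have h1 := avgW_le hm D hD0 hD1 hD2 D1 x y z
    show avgW D x y z / (1 - 1 / (m : ℝ)) ≤ _
    rw [div_le_iff₀ hq0]
    refine h1.trans ?_
    have h2 : 0 ≤ (m : ℝ) / (Fintype.card V : ℝ) := by positivity
    have h3 : 2 * (m : ℝ) / (Fintype.card V : ℝ) * (1 - 1 / (m : ℝ))
        = (m : ℝ) / (Fintype.card V : ℝ) * (2 * (1 - 1 / (m : ℝ))) := by ring
    rw [h3]
    exact le_mul_of_one_le_right h2 (by linarith)
  · intro x y z
    show avgW D x y z / _ = avgW D y x z / _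
    rw [avgW_symm12 D s12]
  · intro x y z
    show avgW D x y z / _ = avgW D x z y / _
    rw [avgW_symm23 D s23]
  · intro x y z h
    have h1 : avgW D x y z ≠ 0 := by
      intro h0
      apply h
      show avgW D x y z / _ = 0
      rw [h0, zero_div]
    obtain ⟨ψ, i, j, k, rfl, rfl, rfl, h2⟩ := avgW_supp D x y z h1
    exact Ds ψ i j k h2
  · intro x y z h
    have h1 : avgW D x y z ≠ 0 := by
      intro h0
      apply h
      show avgW D x y z / _ = 0
      rw [h0, zero_div]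
    obtain ⟨ψ, i, j, k, rfl, rfl, rfl, h2⟩ := avgW_supp D x y z h1
    exact fun T hT => (Dg ψ i j k h2).2 i j k T hT
  · intro x y hxy
    show ∑ z, avgW D x y z / _ = 1
    rw [← Finset.sum_div, div_eq_one_iff_eq hq0.ne', sum_avgW D hD0]
    have hpos : 0 < (m : ℝ) * ((m : ℝ) - 1) := mul_pos (by linarith) (by linarith)
    rw [div_eq_iff hpos.ne']
    have h1 : ∀ q ∈ od m, Ex (prodW (pp q.1 q.2 x y)) (fun ψ => ∑ k, D ψ q.1 q.2 k)
        = Pr (prodW (pp q.1 q.2 x y)) (fun ψ => GB E B ψ) * (dem E B m x y : ℝ) := by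
      rintro ⟨i, j⟩ hq
      have hij : i ≠ j := (Finset.mem_filter.1 hq).2
      simp only
      rw [pr_eq_ex, ← ex_mul_right]
      unfold Ex
      refine Finset.sum_congr rfl fun ψ _ => ?_
      show prodW (pp i j x y) ψ * (∑ k, D ψ i j k)
        = prodW (pp i j x y) ψ * ((if GB E B ψ then (1 : ℝ) else 0) * (dem E B m x y : ℝ))
      rw [De ψ i j hij, prodW_pp i j hij]
      by_cases h3 : ψ i = x ∧ ψ j = y
      · rw [if_pos h3, h3.1, h3.2]
        congr 1
        by_cases h4 : GB E B ψ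
        · rw [if_pos h4, if_pos h4, one_mul]
        · rw [if_neg h4, if_neg h4, zero_mul]
      · rw [if_neg h3, zero_mul, zero_mul]
    have h2 : ∑ q ∈ od m, Ex (prodW (pp q.1 q.2 x y)) (fun ψ => ∑ k, D ψ q.1 q.2 k)
        = (1 - 1 / (m : ℝ)) * ((m : ℝ) * ((m : ℝ) - 1)) := by
      rw [Finset.sum_congr rfl h1, ← Finset.sum_mul, ← cnt_mul]
      have h3 := (dem_bounds hm E B x y (hc x y) hxy).2.2
      have h3' : (cnt E B m x y : ℝ) ≠ 0 := by exact_mod_cast h3.ne'
      unfold dem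
      rw [if_pos hxy]
      push_cast
      rw [← tot_mul (V := V) hm]
      field_simp
    exact h2

end F2.XA

namespace F2

open Finset NWC NW F1 F1.Exact XA

/-- **Block X**: exact fractional triangle decompositions with weights `O(1/n)` which avoid a
sparse set of triples. -/
theorem exact_avoid : ExactAvoidStatement := by
  intro ε hε
  obtain ⟨m, hm, hm13, hmm⟩ := exists_mk ε hε
  have hm' : (2 : ℝ) ≤ m := by exact_mod_cast hm
  have hm0 : (0 : ℝ) < m := by linarith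
  refine ⟨2 * (m : ℝ), 1 / (2 * (m : ℝ) ^ 4), by linarith, by positivity, 1, ?_⟩
  intro V _ _ E hE hn1 hdeg B hB
  classical
  have hne : Nonempty V := Fintype.card_pos_iff.1 (by omega)
  have hn : (0 : ℝ) < (Fintype.card V : ℝ) := by exact_mod_cast Fintype.card_pos
  have hε1 : ε ≤ 1 := by
    obtain ⟨v⟩ := hne
    have h1 := hdeg v
    have h2 : (deg E v : ℝ) ≤ (Fintype.card V : ℝ) := by
      exact_mod_cast Finset.card_le_univ (nbr E v)
    by_contra h3
    push Not at h3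
    nlinarith
  obtain ⟨W, W0, W1, s12, s23, Ws, WB, We⟩ := exact_ord (m := m) E B hE ε _ hε (by positivity) hε1
    hdeg hm hm13 hB hmm
  obtain ⟨w, h1, h2⟩ := exists_tri W s12 s23
  have hdiag : ∀ (v : V), s(v, v) ∉ E := fun v h => hE _ h (by simp)
  refine ⟨w, ?_, ?_, ?_, ?_⟩
  · intro T
    obtain ⟨x, y, z, -, -, -, -, h⟩ := h1 T
    rw [h]
    exact W0 x y z
  · intro T
    obtain ⟨x, y, z, -, -, -, -, h⟩ := h1 T
    rw [h]
    exact W1 x y z
  · intro T hT
    obtain ⟨x, y, z, hxy, hxz, hyz, h, h'⟩ := h1 T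
    rw [h'] at hT
    refine ⟨?_, fun hTB => WB x y z hT T hTB h⟩
    obtain ⟨a, b, c⟩ := Ws x y z hT
    rw [h, edg_triple hxy hyz hxz]
    intro e he
    rcases mem_tri.1 he with rfl | rfl | rfl
    · exact a
    · exact b
    · exact c
  · intro e he
    induction e using Sym2.ind with
    | _ x y =>
      have hxy : x ≠ y := by
        rintro rfl
        exact hdiag x he
      rw [← We x y he]
      have hz : ∑ z, W x y z = ∑ z ∈ univ.filter (fun z => z ≠ x ∧ z ≠ y), W x y z := by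
        rw [Finset.sum_filter]
        refine Finset.sum_congr rfl fun z _ => ?_
        by_cases h : z ≠ x ∧ z ≠ y
        · rw [if_pos h]
        · rw [if_neg h]
          by_contra h0
          obtain ⟨-, b, c⟩ := Ws x y z h0
          rcases not_and_or.1 h with h3 | h3
          · push Not at h3
            rw [h3] at c
            exact hdiag _ c
          · push Not at h3
            rw [h3] at b
            exact hdiag _ b
      rw [hz]
      symm
      refine Finset.sum_bij (fun z hz => (⟨{x, y, z}, Finset.card_eq_three.2 ⟨x, y, z, hxy,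
        (Finset.mem_filter.1 hz).2.1.symm, (Finset.mem_filter.1 hz).2.2.symm, rfl⟩⟩ : Tri V))
        ?_ ?_ ?_ ?_
      · intro z hz
        rw [Finset.mem_filter]
        refine ⟨Finset.mem_univ _, ?_⟩
        rw [mk_mem_edg]
        exact ⟨by simp, by simp, hxy⟩
      · intro z hz z' hz' h
        have h3 := congrArg Subtype.val h
        simp only at h3
        have h4 : z ∈ ({x, y, z'} : Finset V) := by rw [← h3]; simp
        simp only [Finset.mem_insert, Finset.mem_singleton] at h4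
        have h5 := (Finset.mem_filter.1 hz).2
        rcases h4 with h4 | h4 | h4
        · exact absurd h4 h5.1
        · exact absurd h4 h5.2
        · exact h4
      · intro T hT
        have h3 := (Finset.mem_filter.1 hT).2
        rw [mk_mem_edg] at h3
        obtain ⟨hx, hy, -⟩ := h3
        have h4 : ((T.1.erase x).erase y).card = 1 := by
          rw [Finset.card_erase_of_mem (Finset.mem_erase.2 ⟨hxy.symm, hy⟩),
            Finset.card_erase_of_mem hx, T.2]
        obtain ⟨z, hz⟩ := Finset.card_eq_one.1 h4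
        have h5 : z ∈ (T.1.erase x).erase y := by rw [hz]; simp
        have h6 : z ≠ y := Finset.ne_of_mem_erase h5
        have h7 : z ≠ x := Finset.ne_of_mem_erase (Finset.mem_of_mem_erase h5)
        refine ⟨z, Finset.mem_filter.2 ⟨Finset.mem_univ _, h7, h6⟩, ?_⟩
        apply Subtype.ext
        show ({x, y, z} : Finset V) = T.1
        rw [← Finset.insert_erase hx, ← Finset.insert_erase (Finset.mem_erase.2 ⟨hxy.symm, hy⟩),
          hz]
      · intro z hz
        have h3 := (Finset.mem_filter.1 hz).2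
        exact (h2 _ x y z hxy h3.1.symm h3.2.symm rfl).symm

end F2
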