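import Pool.Agent.F2.Spec
import Pool.Agent.NW.Conc

/-!
# Project F2 (MP_6a0350_co), block R: a random grid (helper71)
-/

set_option autoImplicit false
set_option linter.unusedSectionVars false

namespace F2

open Finset NW NWC

namespace GridR

/-- the number of the points of `N` in the cells `C` -/
noncomputable def cnt {V : Type} {s : ℕ} (N : Finset V) (C : Finset (Fin s × Fin s))
    (ω : V → Fin s × Fin s) : ℝ := ∑ v ∈ N, if ω v ∈ C then (1 : ℝ) else 0

theorem cnt_eq {V : Type} {s : ℕ} (N : Finset V) (C : Finset (Fin s × Fin s))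
    (ω : V → Fin s × Fin s) : cnt N C ω = ((N.filter fun v => ω v ∈ C).card : ℝ) := by
  rw [cnt, Finset.card_filter]
  push_cast
  rfl

theorem ex_cell {s : ℕ} (C : Finset (Fin s × Fin s)) :
    Ex (unifW (Fin s × Fin s)) (fun a => if a ∈ C then (1 : ℝ) else 0) =
      (C.card : ℝ) / (s : ℝ) ^ 2 := by
  unfold Ex unifW
  rw [← Finset.mul_sum, Finset.sum_ite_mem, Finset.univ_inter]
  simp only [Finset.sum_const, Fintype.card_prod, Fintype.card_fin, nsmul_eq_mul, mul_one]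
  push_cast
  ring

variable {V : Type} [Fintype V] [DecidableEq V]

theorem upper {s : ℕ} (hs : 1 ≤ s) (hn : 1 ≤ Fintype.card V) (C : Finset (Fin s × Fin s))
    (hC : 1 ≤ C.card) :
    Pr (prodW (fun _ : V => unifW (Fin s × Fin s)))
      (fun ω => 2 * (Fintype.card V * (C.card : ℝ) / (s : ℝ) ^ 2) ≤ cnt univ C ω) ≤
      Real.exp (-((Fintype.card V : ℝ) / (32 * (s : ℝ) ^ 4))) := by
  haveI : Nonempty (Fin s × Fin s) := ⟨(⟨0, hs⟩, ⟨0, hs⟩)⟩
  have hs0 : (1 : ℝ) ≤ s := by exact_mod_cast hs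
  have hn0 : (1 : ℝ) ≤ Fintype.card V := by exact_mod_cast hn
  have hC0 : (1 : ℝ) ≤ C.card := by exact_mod_cast hC
  set n : ℝ := (Fintype.card V : ℝ) with hndef
  have h := hoeffding_upper (p := fun _ : V => unifW (Fin s × Fin s)) (fun _ => pw_unif) univ
    (fun _ a => if a ∈ C then (1 : ℝ) else 0) (fun _ a => by split_ifs <;> norm_num)
    (fun _ a => by split_ifs <;> norm_num) n (by linarith)
    (by rw [hndef, Finset.card_univ]) (n * (C.card : ℝ) / (s : ℝ) ^ 2) (by positivity)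
  rw [Finset.sum_congr rfl fun i _ => ex_cell C, Finset.sum_const, nsmul_eq_mul,
    Finset.card_univ, ← hndef] at h
  refine le_trans (pr_mono (pw_prod fun _ => pw_unif) fun ω hω => ?_) (h.trans ?_)
  · unfold cnt at hω
    refine le_trans (le_of_eq ?_) hω
    ring
  · refine Real.exp_le_exp.2 (neg_le_neg ?_)
    have h1 : n / (2 * (s : ℝ) ^ 4) ≤ (n * (C.card : ℝ) / (s : ℝ) ^ 2) ^ 2 / (2 * n) := by
      have e : (n * (C.card : ℝ) / (s : ℝ) ^ 2) ^ 2 / (2 * n) =
          (C.card : ℝ) ^ 2 * (n / (2 * (s : ℝ) ^ 4)) := by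
        field_simp
      rw [e]
      have h2 : 0 ≤ n / (2 * (s : ℝ) ^ 4) := by positivity
      have h3 : 1 ≤ (C.card : ℝ) ^ 2 := one_le_pow₀ hC0
      nlinarith
    refine le_trans ?_ h1
    gcongr
    norm_num

theorem lower {s : ℕ} (hs : 1 ≤ s) (hn : 1 ≤ Fintype.card V) (a : Fin s × Fin s) (N : Finset V)
    (hN : (Fintype.card V : ℝ) ≤ 2 * N.card) :
    Pr (prodW (fun _ : V => unifW (Fin s × Fin s)))
      (fun ω => cnt N {a} ω ≤ (Fintype.card V : ℝ) / (4 * (s : ℝ) ^ 2)) ≤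
      Real.exp (-((Fintype.card V : ℝ) / (32 * (s : ℝ) ^ 4))) := by
  haveI : Nonempty (Fin s × Fin s) := ⟨(⟨0, hs⟩, ⟨0, hs⟩)⟩
  have hs0 : (1 : ℝ) ≤ s := by exact_mod_cast hs
  have hn0 : (1 : ℝ) ≤ Fintype.card V := by exact_mod_cast hn
  set n : ℝ := (Fintype.card V : ℝ) with hndef
  have hNn : (N.card : ℝ) ≤ n := by
    rw [hndef]
    exact_mod_cast Finset.card_le_univ N
  have h := hoeffding_lower (p := fun _ : V => unifW (Fin s × Fin s)) (fun _ => pw_unif) N
    (fun _ b => if b ∈ ({a} : Finset (Fin s × Fin s)) then (1 : ℝ) else 0)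
    (fun _ a => by split_ifs <;> norm_num)
    (fun _ a => by split_ifs <;> norm_num) n (by linarith) hNn (n / (4 * (s : ℝ) ^ 2))
    (by positivity)
  rw [Finset.sum_congr rfl fun i _ => ex_cell {a}, Finset.sum_const, nsmul_eq_mul,
    Finset.card_singleton] at h
  refine le_trans (pr_mono (pw_prod fun _ => pw_unif) fun ω hω => ?_) (h.trans ?_)
  · unfold cnt at hω
    refine le_trans hω ?_
    have e : n / (4 * (s : ℝ) ^ 2) = n / 2 * (1 / (s : ℝ) ^ 2) - n / (4 * (s : ℝ) ^ 2) := by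
      field_simp
      ring
    have h1 : n / 2 * (1 / (s : ℝ) ^ 2) ≤ (N.card : ℝ) * (1 / (s : ℝ) ^ 2) := by
      gcongr
      linarith
    push_cast
    linarith
  · refine Real.exp_le_exp.2 (neg_le_neg (le_of_eq ?_))
    field_simp
    norm_num

/-- the numerical condition -/
theorem numbers : ∃ n₀ : ℕ, ∀ n : ℕ, n₀ ≤ n → ∀ s : ℕ, 1 ≤ s → (s : ℝ) ≤ (n : ℝ) ^ (1 / 10 : ℝ) →
    (3 * (s : ℝ) ^ 2 + (s : ℝ) ^ 2 * (n : ℝ) ^ 2) *
      Real.exp (-((n : ℝ) / (32 * (s : ℝ) ^ 4))) < 1 := by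
  have h1 : Filter.Tendsto (fun y : ℝ => y ^ 5 * Real.exp (-y)) Filter.atTop (nhds 0) :=
    Real.tendsto_pow_mul_exp_neg_atTop_nhds_zero 5
  have h2 : Filter.Tendsto (fun n : ℕ => (n : ℝ) ^ (3 / 5 : ℝ) / 32) Filter.atTop
      Filter.atTop :=
    Filter.Tendsto.atTop_div_const (by norm_num)
      ((tendsto_rpow_atTop (by norm_num)).comp tendsto_natCast_atTop_atTop)
  have h3 := (h1.comp h2).eventually_lt_const (u := 1 / (4 * 32 ^ 5)) (by norm_num)
  obtain ⟨n₀, hn₀⟩ := Filter.eventually_atTop.1 h3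
  refine ⟨max n₀ 1, fun n hn s hs hsn => ?_⟩
  have hn1 : 1 ≤ n := (le_max_right _ _).trans hn
  have h4 := hn₀ n ((le_max_left _ _).trans hn)
  have hn' : (1 : ℝ) ≤ n := by exact_mod_cast hn1
  have hs' : (1 : ℝ) ≤ s := by exact_mod_cast hs
  simp only [Function.comp] at h4
  set y : ℝ := (n : ℝ) ^ (3 / 5 : ℝ) / 32 with hy
  have hy5 : (32 * y) ^ 5 = (n : ℝ) ^ 3 := by
    have e : 32 * y = (n : ℝ) ^ (3 / 5 : ℝ) := by rw [hy]; ring
    rw [e, ← Real.rpow_natCast ((n : ℝ) ^ (3 / 5 : ℝ)) 5, ← Real.rpow_mul (by positivity),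
      ← Real.rpow_natCast (n : ℝ) 3]
    norm_num
  have hs2 : (s : ℝ) ^ 2 ≤ n := by
    calc (s : ℝ) ^ 2 ≤ ((n : ℝ) ^ (1 / 10 : ℝ)) ^ 2 := by gcongr
      _ = (n : ℝ) ^ (1 / 5 : ℝ) := by
        rw [← Real.rpow_natCast ((n : ℝ) ^ (1 / 10 : ℝ)) 2, ← Real.rpow_mul (by positivity)]
        norm_num
      _ ≤ (n : ℝ) ^ (1 : ℝ) := Real.rpow_le_rpow_of_exponent_le hn' (by norm_num)
      _ = n := Real.rpow_one _
  have hs4 : (s : ℝ) ^ 4 ≤ (n : ℝ) ^ (2 / 5 : ℝ) := by
    calc (s : ℝ) ^ 4 ≤ ((n : ℝ) ^ (1 / 10 : ℝ)) ^ 4 := by gcongr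
      _ = (n : ℝ) ^ (2 / 5 : ℝ) := by
        rw [← Real.rpow_natCast ((n : ℝ) ^ (1 / 10 : ℝ)) 4, ← Real.rpow_mul (by positivity)]
        norm_num
  have hexp : y ≤ (n : ℝ) / (32 * (s : ℝ) ^ 4) := by
    rw [le_div_iff₀ (by positivity)]
    have e : (n : ℝ) = (n : ℝ) ^ (3 / 5 : ℝ) * (n : ℝ) ^ (2 / 5 : ℝ) := by
      rw [← Real.rpow_add (by positivity)]
      norm_num
    have h5 : y * (32 * (s : ℝ) ^ 4) = (n : ℝ) ^ (3 / 5 : ℝ) * (s : ℝ) ^ 4 := by
      rw [hy]; ring
    rw [h5]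
    calc (n : ℝ) ^ (3 / 5 : ℝ) * (s : ℝ) ^ 4 ≤ (n : ℝ) ^ (3 / 5 : ℝ) * (n : ℝ) ^ (2 / 5 : ℝ) := by
          gcongr
      _ = n := e.symm
  have h6 : 3 * (s : ℝ) ^ 2 + (s : ℝ) ^ 2 * (n : ℝ) ^ 2 ≤ 4 * (n : ℝ) ^ 3 := by
    have h7 : (n : ℝ) ≤ (n : ℝ) ^ 3 := le_self_pow₀ hn' (by norm_num)
    have h8 : (s : ℝ) ^ 2 * (n : ℝ) ^ 2 ≤ n * (n : ℝ) ^ 2 := by gcongr
    nlinarith
  calc (3 * (s : ℝ) ^ 2 + (s : ℝ) ^ 2 * (n : ℝ) ^ 2) *
        Real.exp (-((n : ℝ) / (32 * (s : ℝ) ^ 4)))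
      ≤ 4 * (n : ℝ) ^ 3 * Real.exp (-y) := by
        refine mul_le_mul h6 (Real.exp_le_exp.2 (neg_le_neg hexp)) (Real.exp_pos _).le
          (by positivity)
    _ = 4 * 32 ^ 5 * (y ^ 5 * Real.exp (-y)) := by rw [← hy5]; ring
    _ < 4 * 32 ^ 5 * (1 / (4 * 32 ^ 5)) := by
        refine mul_lt_mul_of_pos_left h4 (by norm_num)
    _ = 1 := by norm_num

end GridR

open GridR in
theorem grid : GridStatement := by
  intro ε θ hε hθ hθ1
  obtain ⟨n₀, hn₀⟩ := numbers
  refine ⟨max n₀ 1, ?_⟩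
  intro V _ _ E hE hn hdeg s hs hsn
  classical
  have hn1 : 1 ≤ Fintype.card V := (le_max_right _ _).trans hn
  have hn' : (1 : ℝ) ≤ Fintype.card V := by exact_mod_cast hn1
  have hs' : (1 : ℝ) ≤ s := by exact_mod_cast hs
  have hnum := hn₀ (Fintype.card V) ((le_max_left _ _).trans hn) s hs
    (hsn.trans (Real.rpow_le_rpow_of_exponent_le hn' (by linarith)))
  haveI : Nonempty (Fin s × Fin s) := ⟨(⟨0, hs⟩, ⟨0, hs⟩)⟩
  -- the families of cells
  let rowC : Fin s → Finset (Fin s × Fin s) := fun x => univ.filter fun a => a.1 = x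
  let colC : Fin s → Finset (Fin s × Fin s) := fun x => univ.filter fun a => a.2 = x
  have hrow : ∀ x, (rowC x).card = s := by
    intro x
    have e : rowC x = ({x} : Finset (Fin s)) ×ˢ (univ : Finset (Fin s)) := by
      ext a
      simp only [rowC, Finset.mem_filter, Finset.mem_univ, true_and, Finset.mem_product,
        Finset.mem_singleton, and_true]
    rw [e, Finset.card_product]
    simp
  have hcol : ∀ x, (colC x).card = s := by
    intro x
    have e : colC x = (univ : Finset (Fin s)) ×ˢ ({x} : Finset (Fin s)) := by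
      ext a
      simp only [colC, Finset.mem_filter, Finset.mem_univ, true_and, Finset.mem_product,
        Finset.mem_singleton]
    rw [e, Finset.card_product]
    simp
  let J := Fin s ⊕ Fin s ⊕ (Fin s × Fin s) ⊕ ((Fin s × Fin s) × (V × V))
  let cod : V → V → Finset V := fun u v => nbr E u ∩ nbr E v
  have hcod : ∀ u v, (Fintype.card V : ℝ) ≤ 2 * (cod u v).card := by
    intro u v
    have h1 := Finset.card_union_add_card_inter (nbr E u) (nbr E v)
    have h2 : (nbr E u ∪ nbr E v).card ≤ Fintype.card V := Finset.card_le_univ _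
    have h3 := hdeg u
    have h4 := hdeg v
    have h5 : (deg E u : ℝ) + deg E v ≤ Fintype.card V + (cod u v).card := by
      have : deg E u + deg E v ≤ Fintype.card V + (cod u v).card := by
        change (nbr E u).card + (nbr E v).card ≤ Fintype.card V + (nbr E u ∩ nbr E v).card
        omega
      exact_mod_cast this
    nlinarith
  let Ev : J → (V → Fin s × Fin s) → Prop := fun j ω => match j with
    | Sum.inl x => 2 * (Fintype.card V * ((rowC x).card : ℝ) / (s : ℝ) ^ 2) ≤ cnt univ (rowC x) ω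
    | Sum.inr (Sum.inl x) =>
      2 * (Fintype.card V * ((colC x).card : ℝ) / (s : ℝ) ^ 2) ≤ cnt univ (colC x) ω
    | Sum.inr (Sum.inr (Sum.inl a)) =>
      2 * (Fintype.card V * ((({a} : Finset (Fin s × Fin s))).card : ℝ) / (s : ℝ) ^ 2) ≤
        cnt univ {a} ω
    | Sum.inr (Sum.inr (Sum.inr b)) =>
      cnt (cod b.2.1 b.2.2) {b.1} ω ≤ (Fintype.card V : ℝ) / (4 * (s : ℝ) ^ 2)
  obtain ⟨ω, -, hω⟩ := exists_avoid_card
    (w := prodW (fun _ : V => unifW (Fin s × Fin s))) (pw_prod fun _ => pw_unif)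
    (Finset.univ : Finset J) Ev
    (Real.exp (-((Fintype.card V : ℝ) / (32 * (s : ℝ) ^ 4)))) (by
      intro j _
      rcases j with x | x | a | b
      · exact upper hs hn1 (rowC x) (by rw [hrow]; exact hs)
      · exact upper hs hn1 (colC x) (by rw [hcol]; exact hs)
      · exact upper hs hn1 {a} (by simp)
      · exact lower hs hn1 b.1 (cod b.2.1 b.2.2) (hcod _ _)) (by
      refine lt_of_le_of_lt ?_ hnum
      refine mul_le_mul_of_nonneg_right ?_ (Real.exp_pos _).le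
      have e : (Finset.univ : Finset J).card =
          s + (s + (s * s + s * s * (Fintype.card V * Fintype.card V))) := by
        rw [Finset.card_univ]
        simp [J]
      rw [e]
      push_cast
      nlinarith [mul_self_nonneg ((s : ℝ) - 1)])
  refine ⟨fun v => (ω v).1.val, fun v => (ω v).2.val, fun v => (ω v).1.2, fun v => (ω v).2.2,
    ?_, ?_, ?_, ?_⟩
  · intro x
    by_cases hx : x < s
    · have h1 := hω (Sum.inl ⟨x, hx⟩) (Finset.mem_univ _)
      change ¬ (2 * (Fintype.card V * ((rowC ⟨x, hx⟩).card : ℝ) / (s : ℝ) ^ 2) ≤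
        cnt univ (rowC ⟨x, hx⟩) ω) at h1
      rw [hrow, cnt_eq, not_le] at h1
      have e : (univ.filter fun v => ω v ∈ rowC ⟨x, hx⟩) =
          Rw (fun v => (ω v).1.val) x := by
        ext v
        simp [rowC, Rw, Fin.ext_iff]
      rw [e] at h1
      have h2 : ((Rw (fun v => (ω v).1.val) x).card : ℝ) * s ≤ 2 * Fintype.card V := by
        have h3 : 2 * ((Fintype.card V : ℝ) * s / (s : ℝ) ^ 2) * s = 2 * Fintype.card V := by
          field_simp
        nlinarith
      exact_mod_cast h2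
    · have e : Rw (fun v => (ω v).1.val) x = ∅ := by
        ext v
        simp only [Rw, Finset.mem_filter, Finset.mem_univ, true_and, Finset.notMem_empty,
          iff_false]
        have := (ω v).1.2
        omega
      rw [e]
      simp
  · intro x
    by_cases hx : x < s
    · have h1 := hω (Sum.inr (Sum.inl ⟨x, hx⟩)) (Finset.mem_univ _)
      change ¬ (2 * (Fintype.card V * ((colC ⟨x, hx⟩).card : ℝ) / (s : ℝ) ^ 2) ≤
        cnt univ (colC ⟨x, hx⟩) ω) at h1
      rw [hcol, cnt_eq, not_le] at h1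
      have e : (univ.filter fun v => ω v ∈ colC ⟨x, hx⟩) =
          Rw (fun v => (ω v).2.val) x := by
        ext v
        simp [colC, Rw, Fin.ext_iff]
      rw [e] at h1
      have h2 : ((Rw (fun v => (ω v).2.val) x).card : ℝ) * s ≤ 2 * Fintype.card V := by
        have h3 : 2 * ((Fintype.card V : ℝ) * s / (s : ℝ) ^ 2) * s = 2 * Fintype.card V := by
          field_simp
        nlinarith
      exact_mod_cast h2
    · have e : Rw (fun v => (ω v).2.val) x = ∅ := by
        ext v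
        simp only [Rw, Finset.mem_filter, Finset.mem_univ, true_and, Finset.notMem_empty,
          iff_false]
        have := (ω v).2.2
        omega
      rw [e]
      simp
  · intro x y
    by_cases hxy : x < s ∧ y < s
    · have h1 := hω (Sum.inr (Sum.inr (Sum.inl (⟨x, hxy.1⟩, ⟨y, hxy.2⟩)))) (Finset.mem_univ _)
      change ¬ (2 * (Fintype.card V * ((({(⟨x, hxy.1⟩, ⟨y, hxy.2⟩)} :
        Finset (Fin s × Fin s))).card : ℝ) / (s : ℝ) ^ 2) ≤
        cnt univ {(⟨x, hxy.1⟩, ⟨y, hxy.2⟩)} ω) at h1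
      rw [Finset.card_singleton, cnt_eq, not_le] at h1
      have e : (univ.filter fun v => ω v ∈ ({(⟨x, hxy.1⟩, ⟨y, hxy.2⟩)} :
          Finset (Fin s × Fin s))) = Pt (fun v => (ω v).1.val) (fun v => (ω v).2.val) x y := by
        ext v
        simp [Pt, Prod.ext_iff, Fin.ext_iff]
      rw [e] at h1
      have h2 : ((Pt (fun v => (ω v).1.val) (fun v => (ω v).2.val) x y).card : ℝ) *
          (s : ℝ) ^ 2 ≤ 2 * Fintype.card V := by
        push_cast at h1
        have h3 : 2 * ((Fintype.card V : ℝ) * 1 / (s : ℝ) ^ 2) * (s : ℝ) ^ 2 =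
            2 * Fintype.card V := by
          field_simp
        have h4 : (0 : ℝ) < (s : ℝ) ^ 2 := by positivity
        nlinarith
      exact_mod_cast h2
    · have e : Pt (fun v => (ω v).1.val) (fun v => (ω v).2.val) x y = ∅ := by
        ext v
        simp only [Pt, Finset.mem_filter, Finset.mem_univ, true_and, Finset.notMem_empty,
          iff_false]
        have := (ω v).1.2
        have := (ω v).2.2
        rintro ⟨h1, h2⟩
        exact hxy ⟨by omega, by omega⟩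
      rw [e]
      simp
  · intro x hx y hy u v
    have h1 := hω (Sum.inr (Sum.inr (Sum.inr ((⟨x, hx⟩, ⟨y, hy⟩), (u, v))))) (Finset.mem_univ _)
    change ¬ (cnt (cod u v) {(⟨x, hx⟩, ⟨y, hy⟩)} ω ≤
      (Fintype.card V : ℝ) / (4 * (s : ℝ) ^ 2)) at h1
    rw [cnt_eq, not_le] at h1
    have e : ((cod u v).filter fun w => ω w ∈ ({(⟨x, hx⟩, ⟨y, hy⟩)} :
        Finset (Fin s × Fin s))) =
        (Pt (fun v => (ω v).1.val) (fun v => (ω v).2.val) x y).filter
          (fun w => s(u, w) ∈ E ∧ s(v, w) ∈ E) := by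
      ext w
      simp only [cod, Pt, Finset.mem_filter, Finset.mem_inter, mem_nbr, Finset.mem_univ, true_and,
        Finset.mem_singleton, Prod.ext_iff, Fin.ext_iff]
      tauto
    rw [e] at h1
    have h2 : (Fintype.card V : ℝ) ≤ 4 * (s : ℝ) ^ 2 *
        ((Pt (fun v => (ω v).1.val) (fun v => (ω v).2.val) x y).filter
          (fun w => s(u, w) ∈ E ∧ s(v, w) ∈ E)).card := by
      rw [div_lt_iff₀ (by positivity)] at h1
      linarith
    exact_mod_cast h2

end F2
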