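import Pool.Agent.F2.SpecL
import Pool.Agent.F2.Lll

/-!
# Project F2, row L2: selection of placements from the local lemma (helper82)
-/

set_option autoImplicit false
set_option linter.unusedSectionVars false

namespace F2

open Finset NW F1

section

variable {ι α : Type} [Fintype ι] [Fintype α] [DecidableEq ι] [DecidableEq α]

/-- the uniform weight on `P i` -/
noncomputable def selW (P : ι → Finset α) (i : ι) (a : α) : ℝ :=
  if a ∈ P i then (1 : ℝ) / (P i).card else 0

theorem selW_nonneg (P : ι → Finset α) (i : ι) (a : α) : 0 ≤ selW P i a := by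
  unfold selW
  split_ifs
  · positivity
  · exact le_rfl

theorem pw_selW {P : ι → Finset α} (hP : ∀ i, (P i).Nonempty) (i : ι) : NWC.PW (selW P i) := by
  refine ⟨selW_nonneg P i, ?_⟩
  have hc : ((P i).card : ℝ) ≠ 0 := by exact_mod_cast (Finset.card_pos.2 (hP i)).ne'
  unfold selW
  rw [Finset.sum_ite_mem, Finset.univ_inter, Finset.sum_const, nsmul_eq_mul]
  field_simp

/-- the event that the placements of all pairs of `U` are chosen -/
def selE (U : Finset (ι × α)) : Finset (ι → α) := univ.filter (fun ω => ∀ p ∈ U, ω p.1 = p.2)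

theorem mem_selE {U : Finset (ι × α)} {ω : ι → α} : ω ∈ selE U ↔ ∀ p ∈ U, ω p.1 = p.2 := by
  unfold selE
  rw [Finset.mem_filter]
  exact ⟨fun h => h.2, fun h => ⟨Finset.mem_univ _, h⟩⟩

/-- the probability of the event is at most the product -/
theorem selE_prob {w : ι → α → ℝ} (hw : ∀ i, NWC.PW (w i)) (U : Finset (ι × α)) :
    ∑ ω ∈ selE U, NWC.prodW w ω ≤ ∏ p ∈ U, w p.1 p.2 := by
  have hR : 0 ≤ ∏ p ∈ U, w p.1 p.2 := Finset.prod_nonneg fun p _ => (hw p.1).1 _
  by_cases hinj : ∃ p ∈ U, ∃ q ∈ U, p.1 = q.1 ∧ p.2 ≠ q.2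
  · obtain ⟨p, hp, q, hq, h1, h2⟩ := hinj
    have he : selE U = ∅ := by
      apply Finset.eq_empty_of_forall_notMem
      intro ω hω
      rw [mem_selE] at hω
      exact h2 (by rw [← hω p hp, ← hω q hq, h1])
    rw [he, Finset.sum_empty]
    exact hR
  · push Not at hinj
    have hinj' : Set.InjOn Prod.fst (U : Set (ι × α)) := by
      intro p hp q hq h
      exact Prod.ext h (hinj p hp q hq h)
    set t : ι → Finset α := fun i => univ.filter (fun a => ∀ p ∈ U, p.1 = i → a = p.2) with ht
    have he : selE U = Fintype.piFinset t := by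
      ext ω
      rw [mem_selE, Fintype.mem_piFinset]
      constructor
      · intro h i
        rw [ht, Finset.mem_filter]
        refine ⟨Finset.mem_univ _, fun p hp hpi => ?_⟩
        rw [← hpi]
        exact h p hp
      · intro h p hp
        have h1 := h p.1
        rw [ht, Finset.mem_filter] at h1
        exact h1.2 p hp rfl
    have e1 : ∑ ω ∈ selE U, NWC.prodW w ω = ∏ i, ∑ a ∈ t i, w i a := by
      rw [he, Finset.prod_univ_sum]
      rfl
    have e2 : ∏ i, ∑ a ∈ t i, w i a = ∏ i ∈ U.image Prod.fst, ∑ a ∈ t i, w i a := by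
      symm
      apply Finset.prod_subset (Finset.subset_univ _)
      intro i _ hi
      have h3 : t i = univ := by
        rw [ht]
        apply Finset.filter_true_of_mem
        intro a _ p hp hpi
        exact absurd (Finset.mem_image.2 ⟨p, hp, hpi⟩) hi
      rw [h3]
      exact (hw i).2
    rw [e1, e2, Finset.prod_image hinj']
    refine Finset.prod_le_prod (fun p _ => Finset.sum_nonneg fun a _ => (hw _).1 a) fun p hp => ?_
    have h4 : t p.1 ⊆ {p.2} := by
      intro a ha
      rw [ht, Finset.mem_filter] at ha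
      exact Finset.mem_singleton.2 (ha.2 p hp rfl)
    calc ∑ a ∈ t p.1, w p.1 a ≤ ∑ a ∈ {p.2}, w p.1 a :=
          Finset.sum_le_sum_of_subset_of_nonneg h4 fun a _ _ => (hw _).1 a
      _ = w p.1 p.2 := Finset.sum_singleton _ _

end

/-- **Row L2**: selection of placements. -/
theorem select : SelectStatement := by
  intro L ι α _ _ _ _ P 𝔅 𝔉 b hL hP hB hF hb hsum hsmall
  have hw := pw_selW hP
  have hloc : LocalHyp (selW P) (fun U : {U : Finset (ι × α) // U ∈ 𝔅} => selE U.1)
      (fun U => U.1.image Prod.fst) L := by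
    refine ⟨⟨selW_nonneg P, fun i => (hw i).2⟩, ?_, ?_, ?_, ?_⟩
    · intro U ω ω' hωω' hω
      rw [mem_selE] at hω ⊢
      intro p hp
      rw [← hωω' p.1 (Finset.mem_image.2 ⟨p, hp, rfl⟩)]
      exact hω p hp
    · intro U
      exact (hB U.1 U.2).2.image _
    · intro U
      exact Finset.card_image_le.trans (hB U.1 U.2).1
    · intro i
      refine le_trans ?_ (hsum i)
      rw [Finset.sum_filter, Finset.sum_filter,
        Finset.sum_coe_sort 𝔅 (fun U => if i ∈ U.image Prod.fst then
          PP (selW P) (selE U) else 0)]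
      refine Finset.sum_le_sum fun U _ => ?_
      by_cases h1 : i ∈ U.image Prod.fst
      · have h2 : ∃ a, (i, a) ∈ U := by
          obtain ⟨p, hp, hpi⟩ := Finset.mem_image.1 h1
          exact ⟨p.2, by rw [← hpi]; exact hp⟩
        rw [if_pos h1, if_pos h2]
        exact selE_prob hw U
      · rw [if_neg h1]
        split_ifs
        · exact Finset.prod_nonneg fun p _ => selW_nonneg P p.1 p.2
        · exact le_rfl
  obtain ⟨ω, hav, hpos, hle⟩ := lll_exists_le hloc 𝔉
    (fun U ω => b U * (if ω ∈ selE U then (1:ℝ) else 0))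
    (fun U _ ω => mul_nonneg (hb U) (by split_ifs <;> norm_num))
    (fun U => U.image Prod.fst)
    (fun U _ ω ω' hωω' => by
      have h2 : ω ∈ selE U ↔ ω' ∈ selE U := by
        rw [mem_selE, mem_selE]
        constructor
        · intro h3 p hp
          rw [← hωω' p.1 (Finset.mem_image.2 ⟨p, hp, rfl⟩)]
          exact h3 p hp
        · intro h3 p hp
          rw [hωω' p.1 (Finset.mem_image.2 ⟨p, hp, rfl⟩)]
          exact h3 p hp
      show b U * (if ω ∈ selE U then (1:ℝ) else 0) = b U * if ω' ∈ selE U then (1:ℝ) else 0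
      simp only [h2]) L (fun U hU => Finset.card_image_le.trans (hF U hU))
  have hEE : ∀ U, EE (selW P) (fun ω => b U * (if ω ∈ selE U then (1:ℝ) else 0)) ≤
      b U * ∏ p ∈ U, selW P p.1 p.2 := by
    intro U
    have e1 : EE (selW P) (fun ω => b U * (if ω ∈ selE U then (1:ℝ) else 0)) =
        b U * ∑ ω ∈ selE U, NWC.prodW (selW P) ω := by
      unfold EE
      have e2 : ∀ ω : ι → α, wt (selW P) ω * (b U * (if ω ∈ selE U then (1:ℝ) else 0)) =
          b U * (if ω ∈ selE U then NWC.prodW (selW P) ω else 0) := by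
        intro ω
        split_ifs
        · show NWC.prodW (selW P) ω * (b U * 1) = _
          ring
        · ring
      rw [Finset.sum_congr rfl fun ω _ => e2 ω, ← Finset.mul_sum, Finset.sum_ite_mem,
        Finset.univ_inter]
    rw [e1]
    exact mul_le_mul_of_nonneg_left (selE_prob hw U) (hb U)
  have hlt : ∑ U ∈ 𝔉, b U * (if ω ∈ selE U then (1:ℝ) else 0) < 1 := by
    calc ∑ U ∈ 𝔉, b U * (if ω ∈ selE U then (1:ℝ) else 0)
        ≤ 2 ^ L * ∑ U ∈ 𝔉, EE (selW P) (fun ω => b U * (if ω ∈ selE U then (1:ℝ) else 0)) := hle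
      _ ≤ 2 ^ L * ∑ U ∈ 𝔉, b U * ∏ p ∈ U, selW P p.1 p.2 :=
          mul_le_mul_of_nonneg_left (Finset.sum_le_sum fun U _ => hEE U) (by positivity)
      _ < 2 ^ L * (1 / 2 ^ L) := mul_lt_mul_of_pos_left hsmall (by positivity)
      _ = 1 := by
          have : (2:ℝ) ^ L ≠ 0 := by positivity
          field_simp
  refine ⟨ω, fun i => ?_, fun U hU => ?_, ?_⟩
  · by_contra hi
    have h1 : selW P i (ω i) = 0 := by
      unfold selW
      rw [if_neg hi]
    have h2 := hpos i
    rw [h1] at h2
    exact lt_irrefl _ h2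
  · have h2 := hav ⟨U, hU⟩
    rw [mem_selE] at h2
    push Not at h2
    exact h2
  · have hZ : ∑ U ∈ 𝔉, b U * (if ω ∈ selE U then (1:ℝ) else 0) =
        ∑ U ∈ 𝔉.filter (fun U => ∀ p ∈ U, ω p.1 = p.2), b U := by
      rw [Finset.sum_filter]
      refine Finset.sum_congr rfl fun U _ => ?_
      by_cases h1 : ω ∈ selE U
      · rw [if_pos h1, if_pos (mem_selE.1 h1), mul_one]
      · rw [if_neg h1, if_neg fun h2 => h1 (mem_selE.2 h2), mul_zero]
    rw [← hZ]
    exact hlt

end F2
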