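import Pool.Agent.F2.Z.Main
import Pool.Agent.F2.Z.Simple
import Pool.Agent.F2.Z.Fin
import Pool.Agent.F2.Z.Div
import Pool.Agent.F2.Z.Dec
import Pool.Agent.F2.Z.Free
import Pool.Agent.F2.Z.Grid
import Pool.Agent.F2.Z.Good
import Pool.Agent.F2.Z.Hyp
import Pool.Agent.F2.Z.ToCov
import Pool.Agent.F2.Z.Num
import Pool.Agent.F2.Z.Deg
import Pool.Agent.F2.Grid
import Pool.Agent.F2.Cover
import Pool.Agent.F2.ExactAvoid
import Pool.Agent.F2.O.Omni
import Pool.Agent.F2.Tem.All
import Pool.Agent.F2.Tem.Place
import Pool.Agent.F2.S.One
import Pool.Agent.F2.S.Sum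
import Pool.Agent.F2.S.Basic
import Pool.Agent.F2.S.New
import Pool.Agent.F2.S.Double
import Pool.Agent.F2.Select
import Pool.Agent.F2.L.BSel
import Pool.Agent.F2.L.MSel
import Pool.Agent.F2.L.GGLift
import Pool.Agent.F2.L.Lift
import Pool.Agent.F2.L.Clean
import Pool.Agent.F2.L.SpA
import Pool.Agent.F2.L.SpB
import Pool.Agent.F2.L.SpE
import Pool.Agent.F2.L.SpY
import Pool.Agent.F2.L.SpT
import Pool.Agent.F2.L.SpD
import Pool.Agent.F2.L.Bad
import Pool.Agent.F2.L.TriSum
import Pool.Agent.F2.L.YP
import Pool.Agent.F2.L.Num
import Pool.Agent.F2.L.Sel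
import Pool.Agent.F2.L.ConsM
import Pool.Agent.F2.L.ConsY
import Pool.Agent.F2.L.ConsT
import Pool.Agent.F2.L.Boost
import Pool.Agent.F1.TriGirth
import Pool.Agent.F2.N.Fin

/-!
# Project F2: everything together

For every `g` and `ε > 0`, every large `K₃`-divisible graph with minimum degree at least
`(3 / 4 + ε) n` has a `K₃`-decomposition of girth at least `g`.
-/

set_option autoImplicit false

namespace F2

theorem oneAtom : OAStatement := oa

theorem sums : SumStatement := sum_ord oa

theorem basicS : BasicStatement := basic template

theorem newS : NewStatement := new_booster template basicS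

theorem doubleS : DoubleStatement := double template basicS

theorem liftS : LiftStatement := lift_lft template

theorem cleanS : CleanStatement := clean liftS template

theorem selS : SelStatement :=
  sel (mselect (bselect select)) (spA sums basicS) (spB sums basicS) (spE sums doubleS)
    (spY sums basicS newS) (spT sums newS) (spD oa) (bad_sum sums newS oa template) (yp place) num

theorem boostS : BoostStatement :=
  boost selS cleanS (consM gg_lift liftS cleanS)
    (consY liftS cleanS (triSum sums basicS)) (consT liftS cleanS)

theorem finS : FinStatement := fin_of (divis template) (dec template) (free template) F1.girth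

theorem mainS : MainStatement :=
  main grid omni exact_avoid boostS an_ok finS gridCount syGood (hyp syGood) (toCov cover) numZ degs

theorem simpleS : SimpleStatement := simple mainS

end F2
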