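import Pool.Agent.F2.Final

/-!
# High-girth triangle decompositions above minimum degree `3 n / 4`
-/

namespace F2.HighGirth

/-- For every natural number `g` and every `ε > 0` there is `n₀` such that every simple graph `G`
on `n ≥ n₀` vertices with all degrees even, number of edges divisible by three and minimum degree
at least `(3 / 4 + ε) * n` has a triangle decomposition of girth at least `g`: a set `𝒯` of
triangles of `G` such that every edge of `G` lies in exactly one of them, and any set of `k`
vertices with `4 ≤ k < g` contains at most `k - 3` of them. -/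
theorem result (g : ℕ) (ε : ℝ) (hε : 0 < ε) :
    ∃ n₀ : ℕ, ∀ n : ℕ, n₀ ≤ n → ∀ (G : SimpleGraph (Fin n)) [DecidableRel G.Adj],
      (∀ v, Even (G.degree v)) →
      3 ∣ G.edgeFinset.card →
      (∀ v, (3 / 4 + ε) * (n : ℝ) ≤ (G.degree v : ℝ)) →
      ∃ 𝒯 : Finset (Finset (Fin n)), (∀ t ∈ 𝒯, G.IsNClique 3 t) ∧
        (∀ u v : Fin n, G.Adj u v → ∃! t, t ∈ 𝒯 ∧ u ∈ t ∧ v ∈ t) ∧
        ∀ S : Finset (Fin n), 4 ≤ S.card → S.card < g →
          (𝒯.filter (fun t => t ⊆ S)).card + 2 < S.card :=
  F2.simpleS g ε hε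

end F2.HighGirth
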