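import Mathlib

/-!
# Project F2, part 0: the moments

For a family `UU` of finite sets of atoms, densities `y` and a penalty `e` for repetitions,
`GG e y UU k` is the sum over all `(U_1, .., U_k)` in `UU^k` of `e ^ r * ∏ a ∈ ⋃ U_i, y a`, where
`r` is the number of the `i` with `U_i ⊆ U_1 ∪ .. ∪ U_{i-1}`.
-/

set_option autoImplicit false

namespace Pool.Agent.F2

open Finset

variable {α : Type*} [DecidableEq α]

/-- the moment with known part `P` -/
noncomputable def HH (e : ℝ) (y : α → ℝ) (UU : Finset (Finset α)) : ℕ → Finset α → ℝ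
  | 0, P => ∏ a ∈ P, y a
  | k + 1, P => ∑ U ∈ UU, (if U ⊆ P then e else 1) * HH e y UU k (P ∪ U)

/-- the `k`-th moment -/
noncomputable def GG (e : ℝ) (y : α → ℝ) (UU : Finset (Finset α)) (k : ℕ) : ℝ := HH e y UU k ∅

variable {e : ℝ} {y : α → ℝ} {UU : Finset (Finset α)}

theorem HH_zero (P : Finset α) : HH e y UU 0 P = ∏ a ∈ P, y a := rfl

theorem HH_succ (k : ℕ) (P : Finset α) :
    HH e y UU (k + 1) P = ∑ U ∈ UU, (if U ⊆ P then e else 1) * HH e y UU k (P ∪ U) := rfl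

theorem HH_nonneg (he : 0 ≤ e) (hy : ∀ a, 0 ≤ y a) (k : ℕ) (P : Finset α) :
    0 ≤ HH e y UU k P := by
  induction k generalizing P with
  | zero => exact Finset.prod_nonneg fun a _ => hy a
  | succ k ih =>
    refine Finset.sum_nonneg fun U _ => mul_nonneg ?_ (ih _)
    split_ifs
    · exact he
    · exact zero_le_one

theorem GG_nonneg (he : 0 ≤ e) (hy : ∀ a, 0 ≤ y a) (k : ℕ) : 0 ≤ GG e y UU k :=
  HH_nonneg he hy k ∅

/-! ## Monotonicity -/

theorem HH_mono {e' : ℝ} {y' : α → ℝ} {UU' : Finset (Finset α)} (he : 0 ≤ e) (hee : e ≤ e')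
    (hy : ∀ a, 0 ≤ y a) (hyy : ∀ a, y a ≤ y' a) (hU : UU ⊆ UU') (k : ℕ) (P : Finset α) :
    HH e y UU k P ≤ HH e' y' UU' k P := by
  induction k generalizing P with
  | zero => exact Finset.prod_le_prod (fun a _ => hy a) fun a _ => hyy a
  | succ k ih =>
    rw [HH_succ, HH_succ]
    have h0 : ∀ U, 0 ≤ (if U ⊆ P then e' else 1) := fun U => by
      split_ifs
      · exact he.trans hee
      · exact zero_le_one
    calc ∑ U ∈ UU, (if U ⊆ P then e else 1) * HH e y UU k (P ∪ U)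
        ≤ ∑ U ∈ UU, (if U ⊆ P then e' else 1) * HH e' y' UU' k (P ∪ U) := by
          refine Finset.sum_le_sum fun U _ => mul_le_mul ?_ (ih _) (HH_nonneg he hy k _) (h0 U)
          split_ifs
          · exact hee
          · exact le_rfl
      _ ≤ ∑ U ∈ UU', (if U ⊆ P then e' else 1) * HH e' y' UU' k (P ∪ U) :=
          Finset.sum_le_sum_of_subset_of_nonneg hU fun U _ _ => mul_nonneg (h0 U)
            (HH_nonneg (he.trans hee) (fun a => (hy a).trans (hyy a)) k _)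

theorem GG_mono {e' : ℝ} {y' : α → ℝ} {UU' : Finset (Finset α)} (he : 0 ≤ e) (hee : e ≤ e')
    (hy : ∀ a, 0 ≤ y a) (hyy : ∀ a, y a ≤ y' a) (hU : UU ⊆ UU') (k : ℕ) :
    GG e y UU k ≤ GG e' y' UU' k := HH_mono he hee hy hyy hU k ∅

/-- the moment depends only on the densities of the atoms which occur -/
theorem HH_congr {y' : α → ℝ} (h : ∀ U ∈ UU, ∀ a ∈ U, y a = y' a) (k : ℕ) (P : Finset α)
    (hP : ∀ a ∈ P, y a = y' a) : HH e y UU k P = HH e y' UU k P := by
  induction k generalizing P with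
  | zero => exact Finset.prod_congr rfl hP
  | succ k ih =>
    rw [HH_succ, HH_succ]
    refine Finset.sum_congr rfl fun U hU => ?_
    rw [ih (P ∪ U)]
    intro a ha
    rcases Finset.mem_union.1 ha with h1 | h1
    · exact hP a h1
    · exact h U hU a h1

theorem GG_congr {y' : α → ℝ} (h : ∀ U ∈ UU, ∀ a ∈ U, y a = y' a) (k : ℕ) :
    GG e y UU k = GG e y' UU k := HH_congr h k ∅ fun a ha => absurd ha (Finset.notMem_empty a)

/-! ## (0a) The crude inequality -/

theorem prod_le_of_mem {U : Finset α} (hy : ∀ a ∈ U, 0 ≤ y a) (hy1 : ∀ a ∈ U, y a ≤ 1)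
    {a : α} (ha : a ∈ U) (hae : y a ≤ e) : ∏ b ∈ U, y b ≤ e := by
  rw [← Finset.mul_prod_erase U y ha]
  have h1 : ∏ b ∈ U.erase a, y b ≤ 1 := Finset.prod_le_one
    (fun b hb => hy b (Finset.mem_of_mem_erase hb)) fun b hb => hy1 b (Finset.mem_of_mem_erase hb)
  have h2 := hy a ha
  nlinarith

theorem crude_HH {UU' : Finset (Finset α)} (he : 0 ≤ e) (hy : ∀ a, 0 ≤ y a) (hy1 : ∀ a, y a ≤ 1)
    (hU : UU' ⊆ UU) (hs : ∀ U ∈ UU', ∃ a ∈ U, y a ≤ e) (k : ℕ) (P : Finset α) :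
    (∑ U ∈ UU', ∏ a ∈ U, y a) ^ k * ∏ a ∈ P, y a ≤ HH e y UU k P := by
  induction k generalizing P with
  | zero => rw [pow_zero, one_mul, HH_zero]
  | succ k ih =>
    set S := ∑ U ∈ UU', ∏ a ∈ U, y a with hS
    have hS0 : 0 ≤ S := Finset.sum_nonneg fun U _ => Finset.prod_nonneg fun a _ => hy a
    have key : ∀ U ∈ UU', (∏ a ∈ U, y a) * ∏ a ∈ P, y a ≤
        (if U ⊆ P then e else 1) * ∏ a ∈ P ∪ U, y a := by
      intro U hU'
      have hP0 : 0 ≤ ∏ a ∈ P, y a := Finset.prod_nonneg fun a _ => hy a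
      split_ifs with hUP
      · rw [Finset.union_eq_left.2 hUP]
        obtain ⟨a, ha, hae⟩ := hs U hU'
        exact mul_le_mul_of_nonneg_right
          (prod_le_of_mem (fun b _ => hy b) (fun b _ => hy1 b) ha hae) hP0
      · rw [one_mul, ← Finset.prod_union_inter, Finset.union_comm U P]
        have h1 : ∏ a ∈ U ∩ P, y a ≤ 1 := Finset.prod_le_one (fun a _ => hy a) fun a _ => hy1 a
        have h2 : 0 ≤ ∏ a ∈ P ∪ U, y a := Finset.prod_nonneg fun a _ => hy a
        nlinarith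
    have h0 : ∀ U, 0 ≤ (if U ⊆ P then e else 1) := fun U => by
      split_ifs
      · exact he
      · exact zero_le_one
    calc S ^ (k + 1) * ∏ a ∈ P, y a = ∑ U ∈ UU', S ^ k * ((∏ a ∈ U, y a) * ∏ a ∈ P, y a) := by
          rw [← Finset.mul_sum, ← Finset.sum_mul, ← hS]
          ring
      _ ≤ ∑ U ∈ UU', (if U ⊆ P then e else 1) * HH e y UU k (P ∪ U) := by
          refine Finset.sum_le_sum fun U hU' => ?_
          calc S ^ k * ((∏ a ∈ U, y a) * ∏ a ∈ P, y a)
              ≤ S ^ k * ((if U ⊆ P then e else 1) * ∏ a ∈ P ∪ U, y a) :=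
                mul_le_mul_of_nonneg_left (key U hU') (pow_nonneg hS0 k)
            _ = (if U ⊆ P then e else 1) * (S ^ k * ∏ a ∈ P ∪ U, y a) := by ring
            _ ≤ _ := mul_le_mul_of_nonneg_left (ih _) (h0 U)
      _ ≤ ∑ U ∈ UU, (if U ⊆ P then e else 1) * HH e y UU k (P ∪ U) :=
          Finset.sum_le_sum_of_subset_of_nonneg hU fun U _ _ => mul_nonneg (h0 U)
            (HH_nonneg he hy k _)

/-- (0a) -/
theorem crude {UU' : Finset (Finset α)} (he : 0 ≤ e) (hy : ∀ a, 0 ≤ y a) (hy1 : ∀ a, y a ≤ 1)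
    (hU : UU' ⊆ UU) (hs : ∀ U ∈ UU', ∃ a ∈ U, y a ≤ e) (k : ℕ) :
    (∑ U ∈ UU', ∏ a ∈ U, y a) ^ k ≤ GG e y UU k := by
  have h := crude_HH he hy hy1 hU hs k ∅
  rwa [Finset.prod_empty, mul_one] at h

/-- (0a) in the form of an upper bound -/
theorem crude_le {UU' : Finset (Finset α)} {k : ℕ} {r : ℝ} (hk : k ≠ 0) (hr : 0 ≤ r) (he : 0 ≤ e)
    (hy : ∀ a, 0 ≤ y a) (hy1 : ∀ a, y a ≤ 1) (hU : UU' ⊆ UU)
    (hs : ∀ U ∈ UU', ∃ a ∈ U, y a ≤ e) (hG : GG e y UU k ≤ r ^ k) :
    ∑ U ∈ UU', ∏ a ∈ U, y a ≤ r := by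
  have h1 := (crude he hy hy1 hU hs k).trans hG
  exact (pow_le_pow_iff_left₀
    (Finset.sum_nonneg fun U _ => Finset.prod_nonneg fun a _ => hy a) hr hk).1 h1

/-! ## (0b) Spread families -/

/-- `UU` is spread: given any set `P` of at most `L` atoms, the expected number of the new sets is
at most `η` -/
def Spread (y : α → ℝ) (UU : Finset (Finset α)) (L : ℕ) (η : ℝ) : Prop :=
  ∀ P : Finset α, P.card ≤ L → ∑ U ∈ UU with ¬ U ⊆ P, ∏ a ∈ U \ P, y a ≤ η

theorem spread_HH {J L : ℕ} {η : ℝ} (he : 0 ≤ e) (hη : 0 ≤ η) (hy : ∀ a, 0 ≤ y a)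
    (hJ : ∀ U ∈ UU, U.card ≤ J) (hs : Spread y UU L η) (k : ℕ) (P : Finset α)
    (hP : P.card + k * J ≤ L) :
    HH e y UU k P ≤ (η + 2 ^ L * e) ^ k * ∏ a ∈ P, y a := by
  induction k generalizing P with
  | zero => rw [pow_zero, one_mul, HH_zero]
  | succ k ih =>
    set M := η + 2 ^ L * e with hM
    have hM0 : 0 ≤ M := by positivity
    have hP0 : 0 ≤ ∏ a ∈ P, y a := Finset.prod_nonneg fun a _ => hy a
    have hPL : P.card ≤ L := by
      have : 0 ≤ (k + 1) * J := Nat.zero_le _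
      omega
    have h0 : ∀ U, 0 ≤ (if U ⊆ P then e else 1) := fun U => by
      split_ifs
      · exact he
      · exact zero_le_one
    have h1 : HH e y UU (k + 1) P ≤
        ∑ U ∈ UU, (if U ⊆ P then e else 1) * (M ^ k * ∏ a ∈ P ∪ U, y a) := by
      rw [HH_succ]
      refine Finset.sum_le_sum fun U hU => mul_le_mul_of_nonneg_left (ih _ ?_) (h0 U)
      have h2 := Finset.card_union_le P U
      have h3 := hJ U hU
      have h4 : (k + 1) * J = k * J + J := by ring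
      omega
    have h2 : ∑ U ∈ UU, (if U ⊆ P then e else 1) * (M ^ k * ∏ a ∈ P ∪ U, y a) =
        M ^ k * (∏ a ∈ P, y a) * (∑ U ∈ UU with U ⊆ P, e +
          ∑ U ∈ UU with ¬ U ⊆ P, ∏ a ∈ U \ P, y a) := by
      rw [← Finset.sum_filter_add_sum_filter_not UU (fun U => U ⊆ P), mul_add, Finset.mul_sum,
        Finset.mul_sum]
      congr 1
      · refine Finset.sum_congr rfl fun U hU => ?_
        have h3 := (Finset.mem_filter.1 hU).2
        rw [if_pos h3, Finset.union_eq_left.2 h3]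
        ring
      · refine Finset.sum_congr rfl fun U hU => ?_
        have h3 := (Finset.mem_filter.1 hU).2
        rw [if_neg h3, one_mul, ← Finset.union_sdiff_self_eq_union,
          Finset.prod_union Finset.disjoint_sdiff]
        ring
    have h3 : ∑ U ∈ UU with U ⊆ P, e ≤ 2 ^ L * e := by
      rw [Finset.sum_const, nsmul_eq_mul]
      refine mul_le_mul_of_nonneg_right ?_ he
      have h4 : (UU.filter fun U => U ⊆ P).card ≤ 2 ^ P.card := by
        rw [← Finset.card_powerset]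
        exact Finset.card_le_card fun U hU => Finset.mem_powerset.2 (Finset.mem_filter.1 hU).2
      calc ((UU.filter fun U => U ⊆ P).card : ℝ) ≤ 2 ^ P.card := by exact_mod_cast h4
        _ ≤ 2 ^ L := pow_le_pow_right₀ (by norm_num) hPL
    calc HH e y UU (k + 1) P ≤ M ^ k * (∏ a ∈ P, y a) * (∑ U ∈ UU with U ⊆ P, e +
          ∑ U ∈ UU with ¬ U ⊆ P, ∏ a ∈ U \ P, y a) := h1.trans_eq h2
      _ ≤ M ^ k * (∏ a ∈ P, y a) * M := by
          refine mul_le_mul_of_nonneg_left ?_ (mul_nonneg (pow_nonneg hM0 k) hP0)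
          rw [hM, add_comm]
          exact add_le_add (hs P hPL) h3
      _ = M ^ (k + 1) * ∏ a ∈ P, y a := by ring

/-- (0b) -/
theorem spread {J k : ℕ} {η : ℝ} (he : 0 ≤ e) (hη : 0 ≤ η) (hy : ∀ a, 0 ≤ y a)
    (hJ : ∀ U ∈ UU, U.card ≤ J) (hs : Spread y UU (k * J) η) :
    GG e y UU k ≤ (η + 2 ^ (k * J) * e) ^ k := by
  have h := spread_HH he hη hy hJ hs k ∅ (by simp)
  rwa [Finset.prod_empty, mul_one] at h

/-! ## (0c) Growth -/

variable {Ω : Type*}

/-- if the weighted averages of all products over at most `L` atoms grow by at most the factor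
`1 + c`, then so do the moments -/
theorem growth_HH {ι : Finset Ω} {w : Ω → ℝ} {y' : Ω → α → ℝ} {C : ℝ} {J L : ℕ} (he : 0 ≤ e)
    (hJ : ∀ U ∈ UU, U.card ≤ J)
    (h : ∀ P : Finset α, P.card ≤ L → ∑ ω ∈ ι, w ω * ∏ a ∈ P, y' ω a ≤ C * ∏ a ∈ P, y a)
    (k : ℕ) (P : Finset α) (hP : P.card + k * J ≤ L) :
    ∑ ω ∈ ι, w ω * HH e (y' ω) UU k P ≤ C * HH e y UU k P := by
  induction k generalizing P with
  | zero => exact h P (by omega)
  | succ k ih =>
    have h0 : ∀ U, 0 ≤ (if U ⊆ P then e else 1) := fun U => by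
      split_ifs
      · exact he
      · exact zero_le_one
    calc ∑ ω ∈ ι, w ω * HH e (y' ω) UU (k + 1) P
        = ∑ U ∈ UU, (if U ⊆ P then e else 1) * ∑ ω ∈ ι, w ω * HH e (y' ω) UU k (P ∪ U) := by
          simp only [HH_succ, Finset.mul_sum]
          rw [Finset.sum_comm]
          exact Finset.sum_congr rfl fun U _ => Finset.sum_congr rfl fun ω _ => by ring
      _ ≤ ∑ U ∈ UU, (if U ⊆ P then e else 1) * (C * HH e y UU k (P ∪ U)) := by
          refine Finset.sum_le_sum fun U hU => mul_le_mul_of_nonneg_left (ih _ ?_) (h0 U)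
          have h2 := Finset.card_union_le P U
          have h3 := hJ U hU
          have h4 : (k + 1) * J = k * J + J := by ring
          omega
      _ = C * HH e y UU (k + 1) P := by
          rw [HH_succ, Finset.mul_sum]
          exact Finset.sum_congr rfl fun U _ => by ring

/-- (0c) -/
theorem growth {ι : Finset Ω} {w : Ω → ℝ} {y' : Ω → α → ℝ} {C : ℝ} {J k : ℕ} (he : 0 ≤ e)
    (hJ : ∀ U ∈ UU, U.card ≤ J)
    (h : ∀ P : Finset α, P.card ≤ k * J → ∑ ω ∈ ι, w ω * ∏ a ∈ P, y' ω a ≤ C * ∏ a ∈ P, y a) :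
    ∑ ω ∈ ι, w ω * GG e (y' ω) UU k ≤ C * GG e y UU k :=
  growth_HH he hJ h k ∅ (by simp)

end Pool.Agent.F2
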