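import Pool.Agent.F1.Statements
import Pool.Agent.NW.Statements
import Pool.Agent.F2.Cells
import Pool.Agent.F2.Mom

/-!
# Project F2 (MP_6a0350_co): high girth Nash-Williams at `(3/4 + ε) n`, the statements of the blocks

See notes 4835 (blueprint v2) and 4745 on MP_6a0350_co.
Blocks: R grid, O omni-absorber, T template of the boosters, X exact fractional decomposition
avoiding a sparse set, L boosters (local lemma), N abstract nibble, C cover, Z assembly.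
-/

set_option autoImplicit false
set_option linter.unusedSectionVars false

namespace F2

open Finset NW F1
open Pool.Agent.F2 (HH GG)

/-! ## The final theorem, for edge sets -/

def MainStatement : Prop :=
  ∀ (g : ℕ) (ε : ℝ), 0 < ε → ∃ n₀ : ℕ,
    ∀ (V : Type) [Fintype V] [DecidableEq V] (E : Finset (Sym2 V)), NW.Divis E →
      n₀ ≤ Fintype.card V → (∀ v, (3 / 4 + ε) * (Fintype.card V : ℝ) ≤ (NW.deg E v : ℝ)) →
      ∃ 𝒯 : Finset (Finset V), NW.IsPack 𝒯 E ∧ 𝒯.biUnion NW.edg = E ∧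
        ∀ U : Finset V, 4 ≤ U.card → U.card < g →
          (𝒯.filter (fun t => t ⊆ U)).card + 2 < U.card

/-! ## Block R: the grid -/

section Grid

variable {V : Type} [Fintype V] [DecidableEq V]

/-- the reserve: edges inside a row or a column -/
def Xs (ro co : V → ℕ) (E : Finset (Sym2 V)) : Finset (Sym2 V) :=
  E.filter (fun e => ∃ u v, e = s(u, v) ∧ (ro u = ro v ∨ co u = co v))

/-- a grid: `s` rows, `s` columns, all parts of comparable size, common neighbours in all parts -/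
structure Grid (E : Finset (Sym2 V)) (s : ℕ) (ro co : V → ℕ) : Prop where
  ro_lt : ∀ v, ro v < s
  co_lt : ∀ v, co v < s
  row : ∀ x, (Rw ro x).card * s ≤ 2 * Fintype.card V
  col : ∀ x, (Rw co x).card * s ≤ 2 * Fintype.card V
  part : ∀ x y, (Pt ro co x y).card * s ^ 2 ≤ 2 * Fintype.card V
  cod : ∀ x < s, ∀ y < s, ∀ u v : V, Fintype.card V ≤
    4 * s ^ 2 * ((Pt ro co x y).filter (fun w => s(u, w) ∈ E ∧ s(v, w) ∈ E)).card

end Grid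

def GridStatement : Prop :=
  ∀ ε θ : ℝ, 0 < ε → 0 < θ → θ ≤ 1 / 10 → ∃ n₀ : ℕ,
    ∀ (V : Type) [Fintype V] [DecidableEq V] (E : Finset (Sym2 V)), NW.NL E →
      n₀ ≤ Fintype.card V → (∀ v, (3 / 4 + ε) * (Fintype.card V : ℝ) ≤ (NW.deg E v : ℝ)) →
      ∀ s : ℕ, 1 ≤ s → (s : ℝ) ≤ (Fintype.card V : ℝ) ^ θ → ∃ ro co : V → ℕ, Grid E s ro co

/-! ## Block O: the omni-absorber -/

def OmniStatement : Prop :=
  ∀ ε : ℝ, 0 < ε → ∃ C s₀ : ℕ,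
    ∀ (V : Type) [Fintype V] [DecidableEq V] (E : Finset (Sym2 V)) (s : ℕ) (ro co : V → ℕ),
      NW.NL E → Grid E s ro co → s₀ ≤ s → C * s ≤ Fintype.card V →
      (∀ v, (3 / 4 + ε) * (Fintype.card V : ℝ) ≤ (NW.deg E v : ℝ)) →
      ∃ (A : Finset (Sym2 V)) (RT : Finset (Tri V)), A ⊆ E \ Xs ro co E ∧
        (∀ r ∈ RT, NW.edg r.1 ⊆ A ∪ Xs ro co E) ∧
        (∀ v, NW.deg A v * s ≤ C * Fintype.card V) ∧
        (∀ v, (RT.filter (fun r => v ∈ r.1)).card * s ≤ C * Fintype.card V) ∧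
        (∀ e, (RT.filter (fun r => e ∈ NW.edg r.1)).card ≤ C) ∧
        ∀ L, L ⊆ Xs ro co E → NW.Divis (A ∪ L) →
          ∃ 𝒯 : Finset (Tri V), 𝒯 ⊆ RT ∧
            (∀ T ∈ 𝒯, ∀ T' ∈ 𝒯, T ≠ T' → Disjoint (NW.edg T.1) (NW.edg T'.1)) ∧
            𝒯.biUnion (fun T => NW.edg T.1) = A ∪ L

/-! ## Block T: the template of the boosters

Template vertices `Fin (c + 2)`: `0` is the first apex, `1, 2` the first two vertices of the cycle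
of length `c` (the root is `0, 1, 2`), `3` the second apex, `4, 5, …` the other vertices of the
cycle. -/

/-- the vertices of the cycle (index modulo `c`) -/
def cyv (c i : ℕ) : Fin (c + 2) :=
  Fin.ofNat (c + 2) (if i % c ≤ 1 then i % c + 1 else i % c + 2)

/-- the faces of the bipyramid -/
def tface (c : ℕ) (b : Bool) (i : ℕ) : Finset (Fin (c + 2)) :=
  {if b = true then 3 else 0, cyv c i, cyv c (i + 1)}

/-- the black faces -/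
def tON (c : ℕ) : Finset (Finset (Fin (c + 2))) :=
  ((range c).filter (fun i => i % 2 = 1)).image (tface c false) ∪
    ((range c).filter (fun i => i % 2 = 0)).image (tface c true)

/-- the white faces without the root -/
def tOFF (c : ℕ) : Finset (Finset (Fin (c + 2))) :=
  ((range c).filter (fun i => i % 2 = 0 ∧ i ≠ 0)).image (tface c false) ∪
    ((range c).filter (fun i => i % 2 = 1)).image (tface c true)

section Boo

variable {V : Type} [Fintype V] [DecidableEq V] (c : ℕ)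

/-- the root of a placement -/
def rt (h : Fin (c + 2) → V) : Finset V := {h 0, h 1, h 2}

/-- the black faces of a placement -/
def ON (h : Fin (c + 2) → V) : Finset (Tri V) :=
  univ.filter (fun T => T.1 ∈ (tON c).image (fun f => f.image h))

/-- the white faces of a placement, without the root -/
def OFF (h : Fin (c + 2) → V) : Finset (Tri V) :=
  univ.filter (fun T => T.1 ∈ (tOFF c).image (fun f => f.image h))

/-- the new edges of a placement -/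
def bE (h : Fin (c + 2) → V) : Finset (Sym2 V) := (OFF c h).biUnion (fun T => NW.edg T.1)

/-- the placements of the booster of `r` with new edges in `E` -/
def Pl (E : Finset (Sym2 V)) (r : Tri V) : Finset (Fin (c + 2) → V) :=
  univ.filter (fun h => Function.Injective h ∧ rt c h = r.1 ∧ bE c h ⊆ E)

end Boo

/-- the facts about one booster -/
structure BoostFacts (c : ℕ) {V : Type} [Fintype V] [DecidableEq V] (h : Fin (c + 2) → V) :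
    Prop where
  card_ON : (ON c h).card ≤ 2 * c
  card_OFF : (OFF c h).card ≤ 2 * c
  disj : Disjoint (ON c h) (OFF c h)
  vON : ∀ T ∈ ON c h, T.1 ⊆ univ.image h
  vOFF : ∀ T ∈ OFF c h, T.1 ⊆ univ.image h
  packON : ∀ T ∈ ON c h, ∀ T' ∈ ON c h, T ≠ T' → Disjoint (NW.edg T.1) (NW.edg T'.1)
  packOFF : ∀ T ∈ OFF c h, ∀ T' ∈ OFF c h, T ≠ T' → Disjoint (NW.edg T.1) (NW.edg T'.1)
  edgON : (ON c h).biUnion (fun T => NW.edg T.1) = NW.edg (rt c h) ∪ bE c h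
  rt_disj : Disjoint (NW.edg (rt c h)) (bE c h)
  bE_new : ∀ e ∈ bE c h, ¬ e ∈ NW.edg (rt c h)
  face_bE : ∀ T ∈ ON c h ∪ OFF c h, ∃ e ∈ NW.edg T.1, e ∈ bE c h
  face_rt : ∀ T ∈ ON c h ∪ OFF c h, (rt c h ∩ T.1).card ≤ 2
  grow : ∀ T : Finset (Tri V), (T ⊆ ON c h ∨ T ⊆ OFF c h) → T.Nonempty → T.card < c →
    T.card + 2 ≤ (vs T).card ∧ (2 ≤ T.card → T.card + 3 ≤ (vs T).card)

def TemplateStatement : Prop :=
  ∀ c : ℕ, 6 ≤ c → Even c → ∀ (V : Type) [Fintype V] [DecidableEq V] (h : Fin (c + 2) → V),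
    Function.Injective h → BoostFacts c h

/-- many placements -/
def PlaceStatement : Prop :=
  ∀ c : ℕ, 6 ≤ c → Even c → ∀ (V : Type) [Fintype V] [DecidableEq V] (E : Finset (Sym2 V)) (d : ℕ)
    (r : Tri V), (∀ S : Finset V, S.card ≤ 4 → d + c + 2 ≤ (cnbr E S ∅).card) →
    d ^ (c - 1) ≤ (Pl c E r).card

/-! ## Block X: exact fractional decompositions avoiding a sparse set of triples -/

def ExactAvoidStatement : Prop :=
  ∀ ε : ℝ, 0 < ε → ∃ K κ : ℝ, 0 < K ∧ 0 < κ ∧ ∃ n₀ : ℕ,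
    ∀ (V : Type) [Fintype V] [DecidableEq V] (E : Finset (Sym2 V)), NW.NL E →
      n₀ ≤ Fintype.card V → (∀ v, (3 / 4 + ε) * (Fintype.card V : ℝ) ≤ (NW.deg E v : ℝ)) →
      ∀ B : Finset (Tri V),
        (∀ e, ((B.filter (fun T => e ∈ NW.edg T.1)).card : ℝ) ≤ κ * (Fintype.card V : ℝ)) →
      ∃ w : Tri V → ℝ, (∀ T, 0 ≤ w T) ∧ (∀ T, w T ≤ K / Fintype.card V) ∧
        (∀ T, w T ≠ 0 → NW.edg T.1 ⊆ E ∧ T ∉ B) ∧
        ∀ e ∈ E, ∑ T ∈ univ.filter (fun T : Tri V => e ∈ NW.edg T.1), w T = 1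

/-! ## Block N: the abstract nibble -/

/-- a system of hyperedges: `ed` the elements of a hyperedge, `R` the real ones, `Vt` the virtual
ones, `conf` the forbidden configurations -/
structure Sy (ι τ : Type) where
  ed : τ → Finset ι
  R : Finset τ
  Vt : Finset τ
  conf : Finset (Finset τ)

section Sys

variable {ι τ : Type} [Fintype ι] [Fintype τ] [DecidableEq ι] [DecidableEq τ]

structure Sy.Good (S : Sy ι τ) (J : ℕ) : Prop where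
  card3 : ∀ T ∈ S.R, (S.ed T).card = 3
  card1 : ∀ T ∈ S.Vt, (S.ed T).card = 1
  disj : Disjoint S.R S.Vt
  lin : ∀ T ∈ S.R, ∀ T' ∈ S.R, T ≠ T' → (S.ed T ∩ S.ed T').card ≤ 1
  conf_sub : ∀ U ∈ S.conf, U ⊆ S.R ∪ S.Vt
  conf_ne : ∀ U ∈ S.conf, U.Nonempty
  conf_card : ∀ U ∈ S.conf, U.card ≤ J
  conf_disj : ∀ U ∈ S.conf, ∀ T ∈ U, ∀ T' ∈ U, T ≠ T' → Disjoint (S.ed T) (S.ed T')

/-- configurations through `T` and `T'`, without `T` -/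
def Sy.fA (S : Sy ι τ) (T T' : τ) : Finset (Finset τ) :=
  (S.conf.filter (fun U => T ∈ U ∧ T' ∈ U)).image (fun U => U.erase T)

/-- configurations through `T` and `T'`, without `T` and `T'` -/
def Sy.fA' (S : Sy ι τ) (T T' : τ) : Finset (Finset τ) :=
  (S.conf.filter (fun U => T ∈ U ∧ T' ∈ U ∧ ((U.erase T).erase T').Nonempty)).image
    (fun U => (U.erase T).erase T')

/-- configurations through `T` with another member through `e`, without `T` -/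
def Sy.fB (S : Sy ι τ) (T : τ) (e : ι) : Finset (Finset τ) :=
  (S.conf.filter (fun U => T ∈ U ∧ ∃ T' ∈ U.erase T, e ∈ S.ed T')).image (fun U => U.erase T)

/-- pairs of configurations with a common member through `T₁` and `T₂` -/
def Sy.fE (S : Sy ι τ) (T₁ T₂ : τ) : Finset (Finset τ) :=
  ((S.conf ×ˢ S.conf).filter (fun p => T₁ ∈ p.1 ∧ T₂ ∈ p.2 ∧ T₂ ∉ p.1 ∧ T₁ ∉ p.2 ∧
    p.1.erase T₁ ⊆ S.R ∧ p.2.erase T₂ ⊆ S.R ∧ (p.1 ∩ p.2).Nonempty)).image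
    (fun p => p.1.erase T₁ ∪ p.2.erase T₂)

/-- configurations with at least two virtual members, one of them through `e` -/
def Sy.fF (S : Sy ι τ) (e : ι) : Finset (Finset τ) :=
  S.conf.filter (fun U => 2 ≤ (U ∩ S.Vt).card ∧ ∃ o ∈ U ∩ S.Vt, e ∈ S.ed o)

/-- the initial values of the atoms -/
noncomputable def Sy.y0 (S : Sy ι τ) (X0 : τ → ℝ) (ν : ℝ) (T : τ) : ℝ :=
  if T ∈ S.R then 2 * X0 T else if T ∈ S.Vt then ν else 0

/-- the hypotheses of the abstract nibble; `δ` is the exponent of the virtual weights -/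
structure Sy.Hyp (S : Sy ι τ) (J k : ℕ) (K δ n ν : ℝ) (E0 : Finset ι) (X0 x0 : τ → ℝ)
    {σ : Type} [Fintype σ] (Q : σ → Finset ι) : Prop where
  good : S.Good J
  E_lo : n ^ 2 / 4 ≤ (E0.card : ℝ)
  E_hi : (E0.card : ℝ) ≤ n ^ 2
  cτ : (Fintype.card τ : ℝ) ≤ n ^ 3
  cσ : (Fintype.card σ : ℝ) ≤ n
  ν_pos : 0 < ν
  ν_le : ν ≤ n ^ (-1 + δ)
  X_nonneg : ∀ T, 0 ≤ X0 T
  X_le : ∀ T, X0 T ≤ K / n
  X_ne : ∀ T, X0 T ≠ 0 → T ∈ S.R ∧ S.ed T ⊆ E0 ∧ {T} ∉ S.conf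
  X_one : ∀ e ∈ E0, ∑ T ∈ S.R.filter (fun T => e ∈ S.ed T), X0 T = 1
  x_nonneg : ∀ T, 0 ≤ x0 T
  x_le : ∀ T, x0 T ≤ ν
  x_ne : ∀ T, x0 T ≠ 0 → T ∈ S.Vt ∧ {T} ∉ S.conf
  x_lo : ∀ e ∈ E0, 1 / 8 ≤ ∑ T ∈ S.Vt.filter (fun T => e ∈ S.ed T), x0 T
  V_hi : ∀ e, ((S.Vt.filter (fun T => e ∈ S.ed T)).card : ℝ) * ν ≤ 4
  Q_sub : ∀ j, Q j ⊆ E0
  Q_card : ∀ j, ((Q j).card : ℝ) ≤ n
  hY : ∀ T ∈ S.R ∪ S.Vt, ∑ U ∈ S.conf.filter (fun U => T ∈ U ∧ U ≠ {T} ∧ U.erase T ⊆ S.R),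
    ∏ T' ∈ U.erase T, 2 * X0 T' ≤ K
  hF : ∀ e ∈ E0, ∑ U ∈ S.fF e, ∏ T ∈ U, S.y0 X0 ν T ≤ n ^ δ
  mA : ∀ T T', T ≠ T' → GG (n ^ (-(19 / 20) : ℝ)) (S.y0 X0 ν) (S.fA T T') k ≤
    n ^ (-(9 / 10) * k : ℝ)
  mA' : ∀ T T', T ≠ T' → GG (n ^ (-(19 / 20) : ℝ)) (S.y0 X0 ν) (S.fA' T T') k ≤
    n ^ (-(9 / 10) * k : ℝ)
  mB : ∀ T ∈ S.R ∪ S.Vt, ∀ e ∈ E0, e ∉ S.ed T →
    GG (n ^ (-(19 / 20) : ℝ)) (S.y0 X0 ν) (S.fB T e) k ≤ n ^ (-(9 / 10) * k : ℝ)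
  mE : ∀ T ∈ S.R ∪ S.Vt, ∀ T' ∈ S.R ∪ S.Vt, T ≠ T' →
    GG (n ^ (-(19 / 20) : ℝ)) (S.y0 X0 ν) (S.fE T T') k ≤ n ^ (-(9 / 10) * k : ℝ)

/-- the conclusion of the abstract nibble -/
structure Sy.Out (S : Sy ι τ) (C ω n ν : ℝ) (E0 : Finset ι) {σ : Type} (Q : σ → Finset ι)
    (M : Finset τ) (x : τ → ℝ) : Prop where
  M_sub : M ⊆ S.R
  M_ed : ∀ T ∈ M, S.ed T ⊆ E0
  M_disj : ∀ T ∈ M, ∀ T' ∈ M, T ≠ T' → Disjoint (S.ed T) (S.ed T')
  M_conf : ∀ U ∈ S.conf, ¬ U ⊆ M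
  deg : ∀ j, (((Q j \ M.biUnion S.ed).card : ℕ) : ℝ) ≤ n ^ (1 - ω / 2)
  x_nonneg : ∀ T, 0 ≤ x T
  x_le : ∀ T, x T ≤ C * ν
  x_ne : ∀ T, x T ≠ 0 → T ∈ S.Vt ∧ ∀ U ∈ S.conf, T ∈ U → ¬ U.erase T ⊆ M
  x_lo : ∀ e ∈ E0 \ M.biUnion S.ed, 1 / 16 ≤ ∑ T ∈ S.Vt.filter (fun T => e ∈ S.ed T), x T
  hF : ∀ e ∈ E0 \ M.biUnion S.ed, ∑ U ∈ (S.fF e).filter (fun U => U ∩ S.R ⊆ M ∧
    ∀ o ∈ U ∩ S.Vt, S.ed o ⊆ E0 \ M.biUnion S.ed), ν ^ (U ∩ S.Vt).card ≤ n ^ (-(ω / 2))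

end Sys

def ANStatement : Prop :=
  ∀ (J : ℕ) (K : ℝ), 1 ≤ K → ∃ (ω : ℝ) (k : ℕ) (C : ℝ), 0 < ω ∧ ω ≤ 1 / 100 ∧ 0 < C ∧ 1000 ≤ k ∧
    ∃ n₀ : ℕ, ∀ (ι τ σ : Type) [Fintype ι] [Fintype τ] [Fintype σ] [DecidableEq ι] [DecidableEq τ]
      (S : Sy ι τ) (n : ℕ) (ν : ℝ) (E0 : Finset ι) (X0 x0 : τ → ℝ) (Q : σ → Finset ι), n₀ ≤ n →
      S.Hyp J k K (ω / 8) n ν E0 X0 x0 Q →
      ∃ (M : Finset τ) (x : τ → ℝ), S.Out C ω n ν E0 Q M x

/-! ## Block C: the cover -/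

def CoverStatement : Prop :=
  ∀ (J : ℕ) (C : ℝ), 0 < C → ∃ η : ℝ, 0 < η ∧
    ∀ (ι τ κ : Type) [Fintype ι] [Fintype τ] [Nonempty τ] [Fintype κ] [DecidableEq ι]
      [DecidableEq τ] [DecidableEq κ] (S : Sy ι τ) (xe : τ → Finset κ) (M : Finset τ) (Ef : Finset ι) (x : τ → ℝ)
      (ν : ℝ), S.Good J → 0 < ν → (∀ T ∈ S.Vt, (xe T).card ≤ 2) → (∀ U ∈ S.conf, ¬ U ⊆ M) →
      M ⊆ S.R → (∀ T, 0 ≤ x T) → (∀ T, x T ≤ C * ν) →
      (∀ T, x T ≠ 0 → T ∈ S.Vt ∧ ∀ U ∈ S.conf, T ∈ U → ¬ U.erase T ⊆ M) →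
      (∀ e ∈ Ef, 1 / 16 ≤ ∑ T ∈ S.Vt.filter (fun T => e ∈ S.ed T), x T) →
      (∀ f, ((S.Vt.filter (fun T => f ∈ xe T ∧ S.ed T ⊆ Ef)).card : ℝ) * ν ≤ η) →
      (∀ e ∈ Ef, ∑ U ∈ (S.fF e).filter (fun U => U ∩ S.R ⊆ M ∧ ∀ o ∈ U ∩ S.Vt, S.ed o ⊆ Ef),
        ν ^ (U ∩ S.Vt).card ≤ η) →
      ∃ ch : ι → τ, (∀ e ∈ Ef, ch e ∈ S.Vt ∧ S.ed (ch e) = {e}) ∧
        (∀ e ∈ Ef, ∀ e' ∈ Ef, e ≠ e' → Disjoint (xe (ch e)) (xe (ch e'))) ∧
        ∀ U ∈ S.conf, ¬ U ⊆ M ∪ Ef.image ch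

/-! ## Block L: the boosters -/

section Bo

variable {V : Type} [Fintype V] [DecidableEq V] (c J : ℕ) (RT : Finset (Tri V))
  (hh : Tri V → (Fin (c + 2) → V))

/-- all faces of the boosters -/
def allB : Finset (Tri V) := RT.biUnion (fun r => ON c (hh r) ∪ OFF c (hh r))

/-- all new edges of the boosters -/
def bEs : Finset (Sym2 V) := RT.biUnion (fun r => bE c (hh r))

/-- no booster is used with both colours -/
def Cons (D : Finset (Tri V)) : Prop :=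
  ∀ r ∈ RT, D ∩ (ON c (hh r) ∪ OFF c (hh r)) ⊆ ON c (hh r) ∨
    D ∩ (ON c (hh r) ∪ OFF c (hh r)) ⊆ OFF c (hh r)

/-- the triangles of `E` -/
def triR (E : Finset (Sym2 V)) : Finset (Tri V) := univ.filter (fun T => NW.edg T.1 ⊆ E)

/-- the triples with one edge in `E` and two edges in `X` -/
def triV (E X : Finset (Sym2 V)) : Finset (Tri V) :=
  univ.filter (fun T => (NW.edg T.1 ∩ E).card = 1 ∧ NW.edg T.1 \ E ⊆ X)

open Classical in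
/-- the residual configurations -/
noncomputable def rconf (R : Finset (Tri V)) : Finset (Finset (Tri V)) :=
  (((triSys V J).conf.filter (fun D => Cons c RT hh D)).image (fun D => D \ allB c RT hh)).filter
    (fun U => U.Nonempty ∧ U ⊆ R)

/-- the system of triples -/
noncomputable def syT (E X : Finset (Sym2 V)) : Sy (Sym2 V) (Tri V) where
  ed := fun T => NW.edg T.1 ∩ E
  R := triR E
  Vt := triV E X
  conf := rconf c J RT hh (triR E ∪ triV E X)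

/-- the boosters are good: `n` vertices, `s` rows -/
structure Boosted (k : ℕ) (K K₂ θ : ℝ) (s : ℕ) (E' X : Finset (Sym2 V)) : Prop where
  mem : ∀ r ∈ RT, hh r ∈ Pl c E' r
  disj : ∀ r ∈ RT, ∀ r' ∈ RT, r ≠ r' → Disjoint (bE c (hh r)) (bE c (hh r'))
  clean : ∀ D ∈ (triSys V J).conf, Cons c RT hh D → ¬ D ⊆ allB c RT hh
  deg : ∀ v, (NW.deg (bEs c RT hh) v : ℝ) ≤ (Fintype.card V : ℝ) ^ (1 - θ / 2)
  thR : ∀ e, (((triR (E' \ bEs c RT hh)).filter (fun T => e ∈ NW.edg T.1 ∧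
    {T} ∈ (syT c J RT hh (E' \ bEs c RT hh) X).conf)).card : ℝ) ≤
      (Fintype.card V : ℝ) ^ (1 - θ / 2)
  thV : ∀ e ∈ E' \ bEs c RT hh, (((triV (E' \ bEs c RT hh) X).filter (fun T => e ∈ NW.edg T.1 ∧
    {T} ∈ (syT c J RT hh (E' \ bEs c RT hh) X).conf)).card : ℝ) * s ^ 2 ≤
      (Fintype.card V : ℝ) ^ (1 - θ / 2)
  hY : ∀ T ∈ triR (E' \ bEs c RT hh) ∪ triV (E' \ bEs c RT hh) X,
    ∑ U ∈ (syT c J RT hh (E' \ bEs c RT hh) X).conf.filter (fun U => T ∈ U ∧ U ≠ {T} ∧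
      U.erase T ⊆ triR (E' \ bEs c RT hh)), (2 * K / Fintype.card V) ^ (U.card - 1) ≤ K₂
  hF : ∀ e ∈ E' \ bEs c RT hh, ∑ U ∈ (syT c J RT hh (E' \ bEs c RT hh) X).fF e,
    ∏ T ∈ U, (syT c J RT hh (E' \ bEs c RT hh) X).y0 (fun _ => K / Fintype.card V)
      (s ^ 2 / Fintype.card V) T ≤ (Fintype.card V : ℝ) ^ (3 * J * θ)
  mA : ∀ T T', T ≠ T' → GG ((Fintype.card V : ℝ) ^ (-(19 / 20) : ℝ))
    ((syT c J RT hh (E' \ bEs c RT hh) X).y0 (fun _ => K / Fintype.card V)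
      (s ^ 2 / Fintype.card V)) ((syT c J RT hh (E' \ bEs c RT hh) X).fA T T') k ≤
    (Fintype.card V : ℝ) ^ (-(9 / 10) * k : ℝ)
  mA' : ∀ T T', T ≠ T' → GG ((Fintype.card V : ℝ) ^ (-(19 / 20) : ℝ))
    ((syT c J RT hh (E' \ bEs c RT hh) X).y0 (fun _ => K / Fintype.card V)
      (s ^ 2 / Fintype.card V)) ((syT c J RT hh (E' \ bEs c RT hh) X).fA' T T') k ≤
    (Fintype.card V : ℝ) ^ (-(9 / 10) * k : ℝ)
  mB : ∀ T ∈ triR (E' \ bEs c RT hh) ∪ triV (E' \ bEs c RT hh) X, ∀ e ∈ E' \ bEs c RT hh,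
    e ∉ NW.edg T.1 → GG ((Fintype.card V : ℝ) ^ (-(19 / 20) : ℝ))
    ((syT c J RT hh (E' \ bEs c RT hh) X).y0 (fun _ => K / Fintype.card V)
      (s ^ 2 / Fintype.card V)) ((syT c J RT hh (E' \ bEs c RT hh) X).fB T e) k ≤
    (Fintype.card V : ℝ) ^ (-(9 / 10) * k : ℝ)
  mE : ∀ T ∈ triR (E' \ bEs c RT hh) ∪ triV (E' \ bEs c RT hh) X,
    ∀ T' ∈ triR (E' \ bEs c RT hh) ∪ triV (E' \ bEs c RT hh) X, T ≠ T' →
    GG ((Fintype.card V : ℝ) ^ (-(19 / 20) : ℝ))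
    ((syT c J RT hh (E' \ bEs c RT hh) X).y0 (fun _ => K / Fintype.card V)
      (s ^ 2 / Fintype.card V)) ((syT c J RT hh (E' \ bEs c RT hh) X).fE T T') k ≤
    (Fintype.card V : ℝ) ^ (-(9 / 10) * k : ℝ)

end Bo

/-- the boosters exist. `C` bounds the multiplicities of the roots, `s` the number of rows;
`X` is the reserve (disjoint from `E'`) and `A ∪ X` contains all edges of the roots -/
def BoostStatement : Prop :=
  ∀ (J c C : ℕ) (ε K : ℝ), 3 ≤ J → 6 ≤ c → Even c → J < c → 0 < ε → 0 < K → ∃ K₂ : ℝ, 1 ≤ K₂ ∧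
    ∀ k : ℕ, 1000 ≤ k → ∃ θ₀ : ℝ, 0 < θ₀ ∧ ∀ θ : ℝ, 0 < θ → θ ≤ θ₀ → ∃ n₀ : ℕ,
      ∀ (V : Type) [Fintype V] [DecidableEq V] (E' A X : Finset (Sym2 V)) (RT : Finset (Tri V))
        (s : ℕ), n₀ ≤ Fintype.card V → (s : ℝ) ≤ (Fintype.card V : ℝ) ^ θ →
        (Fintype.card V : ℝ) ^ θ ≤ s + 1 →
        NW.NL E' → Disjoint E' A → Disjoint E' X →
        (∀ v, (3 / 4 + ε) * (Fintype.card V : ℝ) ≤ (NW.deg E' v : ℝ)) →
        (∀ r ∈ RT, NW.edg r.1 ⊆ A ∪ X) →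
        (∀ v, (RT.filter (fun r => v ∈ r.1)).card * s ≤ C * Fintype.card V) →
        (∀ e, (RT.filter (fun r => e ∈ NW.edg r.1)).card ≤ C) →
        (∀ e ∈ E', ((triV E' X).filter (fun T => e ∈ NW.edg T.1)).card * s ^ 2 ≤
          4 * Fintype.card V) →
        ∃ hh : Tri V → (Fin (c + 2) → V), Boosted c J RT hh k K K₂ θ s E' X

end F2
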