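import Pool.Agent.F2.SpecS
import Pool.Agent.NW.Conc

/-!
# Project F2, block L: the local lemma, selection of the boosters
-/

set_option autoImplicit false
set_option linter.unusedSectionVars false

namespace F2

open Finset NW F1

/-- the outcomes avoiding all events -/
def avoid {ι α Y : Type} [Fintype ι] [Fintype α] [Fintype Y] [DecidableEq ι] [DecidableEq α]
    (Ev : Y → Finset (ι → α)) : Finset (ι → α) := univ.filter (fun ω => ∀ y, ω ∉ Ev y)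

/-- the local lemma on a product of probability spaces, sum version, with the bound for the
expectation of a function of few coordinates -/
def LllStatement : Prop :=
  ∀ (L : ℕ) (ι α Y : Type) [Fintype ι] [Fintype α] [Fintype Y] [DecidableEq ι] [DecidableEq α]
    (w : ι → α → ℝ) (Ev : Y → Finset (ι → α)) (S : Y → Finset ι), 1 ≤ L → (∀ i, NWC.PW (w i)) →
    (∀ y, ∀ ω ω' : ι → α, (∀ i ∈ S y, ω i = ω' i) → ω ∈ Ev y → ω' ∈ Ev y) →
    (∀ y, (S y).card ≤ L) → (∀ y, (S y).Nonempty) →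
    (∀ i, ∑ y ∈ univ.filter (fun y => i ∈ S y), ∑ ω ∈ Ev y, NWC.prodW w ω ≤ 1 / (8 * L)) →
    0 < ∑ ω ∈ avoid Ev, NWC.prodW w ω ∧
    ∀ (T : Finset ι) (f : (ι → α) → ℝ), (∀ ω, 0 ≤ f ω) →
      (∀ ω ω' : ι → α, (∀ i ∈ T, ω i = ω' i) → f ω = f ω') →
      ∑ ω ∈ avoid Ev, NWC.prodW w ω * f ω ≤
        2 ^ T.card * (∑ ω, NWC.prodW w ω * f ω) * ∑ ω ∈ avoid Ev, NWC.prodW w ω

/-- selection of placements: the variables are the roots `i`, uniform in `P i`.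
`𝔅` are the forbidden sets of pairs (root, placement), `𝔉` a weighted list of sets of pairs -/
def SelectStatement : Prop :=
  ∀ (L : ℕ) (ι α : Type) [Fintype ι] [Fintype α] [DecidableEq ι] [DecidableEq α]
    (P : ι → Finset α) (𝔅 𝔉 : Finset (Finset (ι × α))) (b : Finset (ι × α) → ℝ), 1 ≤ L →
    (∀ i, (P i).Nonempty) → (∀ U ∈ 𝔅, U.card ≤ L ∧ U.Nonempty) → (∀ U ∈ 𝔉, U.card ≤ L) →
    (∀ U, 0 ≤ b U) →
    (∀ i, ∑ U ∈ 𝔅.filter (fun U => ∃ a, (i, a) ∈ U),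
      ∏ p ∈ U, (if p.2 ∈ P p.1 then (1 : ℝ) / (P p.1).card else 0) ≤ 1 / (8 * L)) →
    ∑ U ∈ 𝔉, b U * ∏ p ∈ U, (if p.2 ∈ P p.1 then (1 : ℝ) / (P p.1).card else 0) < 1 / 2 ^ L →
    ∃ h : ι → α, (∀ i, h i ∈ P i) ∧ (∀ U ∈ 𝔅, ∃ p ∈ U, h p.1 ≠ p.2) ∧
      ∑ U ∈ 𝔉.filter (fun U => ∀ p ∈ U, h p.1 = p.2), b U < 1

end F2
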