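import Pool.Agent.F2.SpecL
import Pool.Agent.F2.Mom

/-!
# Project F2, block L, second part: selection of the boosters

The placements of the boosters are chosen with the local lemma; all statements of `Boosted` follow
from moment bounds for families of sets of atoms (triples and placements).
-/

set_option autoImplicit false
set_option linter.unusedSectionVars false

namespace F2

open Finset NW F1
open Pool.Agent.F2 (HH GG Spread)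

section L2

variable {V : Type} [Fintype V] [DecidableEq V] (c J : ℕ)

/-- the probability of the placement `h` -/
noncomputable def yP (E : Finset (Sym2 V)) (RT : Finset (Tri V)) (h : Fin (c + 2) → V) : ℝ :=
  ∑ r ∈ RT.filter (fun r => h ∈ Pl c E r), 1 / ((Pl c E r).card : ℝ)

/-- weights of atoms -/
def yA (yτ : Tri V → ℝ) (yb : (Fin (c + 2) → V) → ℝ) (a : Atom V c) : ℝ := Sum.elim yτ yb a

/-- `1` for the chosen placements -/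
noncomputable def rz (RT : Finset (Tri V)) (hh : Tri V → (Fin (c + 2) → V))
    (h : Fin (c + 2) → V) : ℝ := if h ∈ RT.image hh then 1 else 0

/-! ### The families -/

open Classical in
noncomputable def LA (T T' : Tri V) : Finset (Finset (Atom V c)) :=
  univ.filter (fun U => ∃ D ∈ (triSys V J).conf, T ∈ D ∧ T' ∈ D ∧ IsLift (D \ {T}) U ∧
    Sum.inl T' ∈ U)

open Classical in
noncomputable def LA' (T T' : Tri V) : Finset (Finset (Atom V c)) :=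
  univ.filter (fun U => ∃ D ∈ (triSys V J).conf, T ∈ D ∧ T' ∈ D ∧ IsLift (D \ {T, T'}) U)

open Classical in
noncomputable def LB (T : Tri V) (e : Sym2 V) : Finset (Finset (Atom V c)) :=
  univ.filter (fun U => ∃ D ∈ (triSys V J).conf, T ∈ D ∧ (∃ T' ∈ D, e ∈ NW.edg T'.1) ∧
    IsLift (D \ {T}) U)

open Classical in
noncomputable def LE (T₁ T₂ : Tri V) : Finset (Finset (Atom V c)) :=
  univ.filter (fun U => ∃ D₁ ∈ (triSys V J).conf, ∃ D₂ ∈ (triSys V J).conf,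
    ∃ (Ts : Tri V) (U₁ U₂ : Finset (Atom V c)), T₁ ∈ D₁ ∧ T₂ ∈ D₂ ∧ T₂ ∉ D₁ ∧ T₁ ∉ D₂ ∧
      IsLift (D₁ \ {T₁}) U₁ ∧ IsLift (D₂ \ {T₂}) U₂ ∧ Sum.inl Ts ∈ U₁ ∧ Sum.inl Ts ∈ U₂ ∧
      U = U₁ ∪ U₂)

open Classical in
noncomputable def LF (e : Sym2 V) : Finset (Finset (Atom V c)) :=
  univ.filter (fun U => ∃ D ∈ (triSys V J).conf, (∃ T ∈ D, e ∈ NW.edg T.1) ∧ IsLift D U)

open Classical in
noncomputable def LY (T : Tri V) : Finset (Finset (Atom V c)) :=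
  univ.filter (fun U => (∃ D ∈ (triSys V J).conf, T ∈ D ∧ IsLift (D \ {T}) U) ∧
    (∃ h, Sum.inr h ∈ U) ∧ ∃ T', Sum.inl T' ∈ U)

open Classical in
noncomputable def LT (e : Sym2 V) (S0 : Finset (Tri V)) : Finset (Finset (Atom V c)) :=
  univ.filter (fun U => ∃ D ∈ (triSys V J).conf, ∃ T ∈ S0, T ∈ D ∧ e ∈ NW.edg T.1 ∧
    ∃ U' : Finset (Atom V c), IsLift (D \ {T}) U' ∧ (∀ a ∈ U', ∃ h, a = Sum.inr h) ∧
      U = insert (Sum.inl T) U')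

/-- the placements through `v` -/
def LD (v : V) : Finset (Finset (Atom V c)) :=
  (univ.filter (fun h : Fin (c + 2) → V => v ∈ univ.image h)).image (fun h => {Sum.inr h})

open Classical in
/-- the forbidden sets of placements -/
noncomputable def bad (V : Type) [Fintype V] [DecidableEq V] (c J : ℕ) :
    Finset (Finset (Fin (c + 2) → V)) :=
  univ.filter (fun U =>
    (∃ h h', rt c h ≠ rt c h' ∧ ¬ Disjoint (bE c h) (bE c h') ∧ U = {h, h'}) ∨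
    (2 ≤ U.card ∧ ∃ D ∈ (triSys V J).conf, IsLift D (U.image (Sum.inr : _ → Atom V c))))

/-- the probabilities of the placements -/
structure YBound (C s : ℕ) (B : ℝ) (E : Finset (Sym2 V)) (RT : Finset (Tri V))
    (yb : (Fin (c + 2) → V) → ℝ) : Prop where
  hn : 1 ≤ Fintype.card V
  hs : 1 ≤ s
  hB : 1 ≤ B
  rb : RBound C s RT
  nonneg : ∀ h, 0 ≤ yb h
  boo : ∀ h, yb h ≤ B / (Fintype.card V : ℝ) ^ (c - 1)
  inj : ∀ h, yb h ≠ 0 → Function.Injective h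
  root : ∀ h, yb h ≠ 0 → ∃ r ∈ RT, rt c h = r.1
  new : ∀ h, yb h ≠ 0 → bE c h ⊆ E
  rootE : ∀ h, yb h ≠ 0 → Disjoint (NW.edg (rt c h)) E
  one : ∀ r : Tri V, ∑ h ∈ univ.filter (fun h => rt c h = r.1), yb h ≤ 1

end L2

/-! ### Selection -/

/-- row L3, from `SelectStatement` -/
def BSelectStatement : Prop :=
  ∀ (L c : ℕ) (V : Type) [Fintype V] [DecidableEq V] (E : Finset (Sym2 V)) (RT : Finset (Tri V))
    (𝔅 : Finset (Finset (Fin (c + 2) → V))) (I : Type) [Fintype I] (b : I → ℝ)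
    (U : I → Finset (Fin (c + 2) → V)), 1 ≤ L → (∀ r ∈ RT, (Pl c E r).Nonempty) →
    (∀ W ∈ 𝔅, W.card ≤ L ∧ W.Nonempty) → (∀ i, (U i).card ≤ L) → (∀ i, 0 ≤ b i) →
    (∀ r ∈ RT, ∑ W ∈ 𝔅.filter (fun W => ∃ h ∈ W, rt c h = r.1), ∏ h ∈ W, yP c E RT h ≤
      1 / (8 * L)) →
    ∑ i, b i * ∏ h ∈ U i, yP c E RT h < 1 / 2 ^ L →
    ∃ hh : Tri V → (Fin (c + 2) → V), (∀ r ∈ RT, hh r ∈ Pl c E r) ∧
      (∀ W ∈ 𝔅, ∃ h ∈ W, h ∉ RT.image hh) ∧ ∑ i, b i * ∏ h ∈ U i, rz c RT hh h < 1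

/-- row L4, from `BSelectStatement` -/
def MSelectStatement : Prop :=
  ∀ (L c : ℕ) (V : Type) [Fintype V] [DecidableEq V] (E : Finset (Sym2 V)) (RT : Finset (Tri V))
    (𝔅 : Finset (Finset (Fin (c + 2) → V))) (ϱ : Type) [Fintype ϱ] (yτ : ϱ → Tri V → ℝ)
    (e a : ϱ → ℝ) (k : ϱ → ℕ) (FF : ϱ → Finset (Finset (Atom V c))), 1 ≤ L →
    (∀ r ∈ RT, (Pl c E r).Nonempty) → (∀ W ∈ 𝔅, W.card ≤ L ∧ W.Nonempty) →
    (∀ i, ∀ U ∈ FF i, k i * U.card ≤ L) → (∀ i T, 0 ≤ yτ i T) → (∀ i, 0 ≤ e i) →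
    (∀ i, 0 ≤ a i) →
    (∀ r ∈ RT, ∑ W ∈ 𝔅.filter (fun W => ∃ h ∈ W, rt c h = r.1), ∏ h ∈ W, yP c E RT h ≤
      1 / (8 * L)) →
    ∑ i, a i * GG (e i) (yA c (yτ i) (yP c E RT)) (FF i) (k i) < 1 / 2 ^ L →
    ∃ hh : Tri V → (Fin (c + 2) → V), (∀ r ∈ RT, hh r ∈ Pl c E r) ∧
      (∀ W ∈ 𝔅, ∃ h ∈ W, h ∉ RT.image hh) ∧
      ∑ i, a i * GG (e i) (yA c (yτ i) (rz c RT hh)) (FF i) (k i) < 1

/-! ### Lifts -/

/-- row L5 -/
def GGLiftStatement : Prop :=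
  ∀ (α γ : Type) [DecidableEq α] [DecidableEq γ] (e : ℝ) (y : α → ℝ) (y' : α ⊕ γ → ℝ)
    (UU : Finset (Finset α)) (LL : Finset (Finset (α ⊕ γ))) (k : ℕ), 0 ≤ e → e ≤ 1 →
    (∀ a, 0 ≤ y a) → (∀ b, 0 ≤ y' b) → (∀ a, y a ≤ y' (Sum.inl a)) →
    (∀ U ∈ UU, ∃ W ∈ LL, (∀ a, Sum.inl a ∈ W ↔ a ∈ U) ∧
      ∀ b, Sum.inr b ∈ W → y' (Sum.inr b) = 1) →
    GG e y UU k ≤ GG e y' LL k

/-- the lift of `D` -/
def lft {V : Type} [Fintype V] [DecidableEq V] (c : ℕ) (RT : Finset (Tri V))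
    (hh : Tri V → (Fin (c + 2) → V)) (D Z : Finset (Tri V)) : Finset (Atom V c) :=
  ((D \ Z) \ allB c RT hh).image Sum.inl ∪
    (RT.filter (fun r => ((ON c (hh r) ∪ OFF c (hh r)) ∩ D).Nonempty)).image
      (fun r => Sum.inr (hh r))

/-- row L6, from `TemplateStatement` -/
def LiftStatement : Prop :=
  ∀ (c : ℕ), 6 ≤ c → Even c →
    ∀ (V : Type) [Fintype V] [DecidableEq V] (E : Finset (Sym2 V)) (RT : Finset (Tri V))
      (hh : Tri V → (Fin (c + 2) → V)), (∀ r ∈ RT, hh r ∈ Pl c E r) →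
      (∀ r ∈ RT, Disjoint (NW.edg r.1) E) →
      (∀ r ∈ RT, ∀ r' ∈ RT, r ≠ r' → Disjoint (bE c (hh r)) (bE c (hh r'))) →
      ∀ D Z : Finset (Tri V), Cons c RT hh D → Z ⊆ D → Disjoint Z (allB c RT hh) →
        IsLift (D \ Z) (lft c RT hh D Z) ∧
        (∀ T, Sum.inl T ∈ lft c RT hh D Z ↔ T ∈ (D \ Z) \ allB c RT hh) ∧
        (∀ h, Sum.inr h ∈ lft c RT hh D Z → rz c RT hh h = 1)

/-- row L7, from `LiftStatement` and `TemplateStatement` -/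
def CleanStatement : Prop :=
  ∀ (c J : ℕ), 6 ≤ c → Even c → J < c →
    ∀ (V : Type) [Fintype V] [DecidableEq V] (E : Finset (Sym2 V)) (RT : Finset (Tri V))
      (hh : Tri V → (Fin (c + 2) → V)), (∀ r ∈ RT, hh r ∈ Pl c E r) →
      (∀ r ∈ RT, Disjoint (NW.edg r.1) E) → (∀ W ∈ bad V c J, ∃ h ∈ W, h ∉ RT.image hh) →
      (∀ r ∈ RT, ∀ r' ∈ RT, r ≠ r' → Disjoint (bE c (hh r)) (bE c (hh r'))) ∧
      ∀ D ∈ (triSys V J).conf, Cons c RT hh D → ¬ D ⊆ allB c RT hh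

/-! ### The families are spread -/

/-- row L10, from `SumStatement`, `BasicStatement` -/
def SpAStatement : Prop :=
  ∀ (c J C L : ℕ), 6 ≤ c → Even c → J < c → ∃ C₁ : ℝ, 1 ≤ C₁ ∧
    ∀ (V : Type) [Fintype V] [DecidableEq V] (E : Finset (Sym2 V)) (RT : Finset (Tri V)) (s : ℕ)
      (B u : ℝ) (yb : (Fin (c + 2) → V) → ℝ), YBound c C s B E RT yb → 0 ≤ u →
      u ≤ B / Fintype.card V → ∀ T T' : Tri V, T ≠ T' →
      Spread (yA c (fun _ => u) yb) (LA c J T T') L (C₁ * B ^ J / Fintype.card V) ∧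
      Spread (yA c (fun _ => u) yb) (LA' c J T T') L (C₁ * B ^ J / Fintype.card V)

/-- row L11, from `SumStatement`, `BasicStatement` -/
def SpBStatement : Prop :=
  ∀ (c J C L : ℕ), 6 ≤ c → Even c → J < c → ∃ C₁ : ℝ, 1 ≤ C₁ ∧
    ∀ (V : Type) [Fintype V] [DecidableEq V] (E : Finset (Sym2 V)) (RT : Finset (Tri V)) (s : ℕ)
      (B u : ℝ) (yb : (Fin (c + 2) → V) → ℝ), YBound c C s B E RT yb → 0 ≤ u →
      u ≤ B / Fintype.card V → ∀ (T : Tri V) (e : Sym2 V),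
      (e ∉ NW.edg T.1 →
        Spread (yA c (fun _ => u) yb) (LB c J T e) L (C₁ * B ^ J / Fintype.card V)) ∧
      Spread (yA c (fun _ => u) yb) (LF c J e) L (C₁ * B ^ J)

/-- row L12, from `SumStatement`, `DoubleStatement` -/
def SpEStatement : Prop :=
  ∀ (c J C L : ℕ), 6 ≤ c → Even c → J < c → ∃ C₁ : ℝ, 1 ≤ C₁ ∧
    ∀ (V : Type) [Fintype V] [DecidableEq V] (E : Finset (Sym2 V)) (RT : Finset (Tri V)) (s : ℕ)
      (B u : ℝ) (yb : (Fin (c + 2) → V) → ℝ), YBound c C s B E RT yb → 0 ≤ u →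
      u ≤ B / Fintype.card V → ∀ T₁ T₂ : Tri V,
      Spread (yA c (fun _ => u) yb) (LE c J T₁ T₂) L (C₁ * B ^ (2 * J) / Fintype.card V)

/-- row L13, from `SumStatement`, `BasicStatement`, `NewStatement` -/
def SpYStatement : Prop :=
  ∀ (c J C L : ℕ), 6 ≤ c → Even c → J < c → ∃ C₁ : ℝ, 1 ≤ C₁ ∧
    ∀ (V : Type) [Fintype V] [DecidableEq V] (E : Finset (Sym2 V)) (RT : Finset (Tri V)) (s : ℕ)
      (B u : ℝ) (yb : (Fin (c + 2) → V) → ℝ), YBound c C s B E RT yb → 0 ≤ u →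
      u ≤ B / Fintype.card V → ∀ T : Tri V, ¬ Disjoint (NW.edg T.1) E →
      Spread (yA c (fun _ => u) yb) (LY c J T) L
        (C₁ * B ^ J * (1 / s + 1 / Fintype.card V))

/-- row L14, from `SumStatement`, `NewStatement` -/
def SpTStatement : Prop :=
  ∀ (c J C L : ℕ), 6 ≤ c → Even c → J < c → ∃ C₁ : ℝ, 1 ≤ C₁ ∧
    ∀ (V : Type) [Fintype V] [DecidableEq V] (E : Finset (Sym2 V)) (RT : Finset (Tri V)) (s : ℕ)
      (B u : ℝ) (yb : (Fin (c + 2) → V) → ℝ), YBound c C s B E RT yb → 0 ≤ u →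
      ∀ (e : Sym2 V) (S0 : Finset (Tri V)), e ∈ E →
      ((S0.filter (fun T => e ∈ NW.edg T.1)).card : ℝ) * u ≤ 4 →
      Spread (yA c (fun _ => u) yb) (LT c J e S0) L
        (C₁ * B ^ J * (1 / s + 1 / Fintype.card V + u))

/-- row L15, from `OAStatement` -/
def SpDStatement : Prop :=
  ∀ (c C L : ℕ), 6 ≤ c → Even c → ∃ C₁ : ℝ, 1 ≤ C₁ ∧
    ∀ (V : Type) [Fintype V] [DecidableEq V] (E : Finset (Sym2 V)) (RT : Finset (Tri V)) (s : ℕ)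
      (B : ℝ) (yb : (Fin (c + 2) → V) → ℝ), YBound c C s B E RT yb → ∀ v : V,
      Spread (yA c (fun _ => 0) yb) (LD c v) L (C₁ * B * (Fintype.card V / s))

/-- row L16, from `SumStatement`, `NewStatement`, `OAStatement`, `TemplateStatement` -/
def BadStatement : Prop :=
  ∀ (c J C : ℕ), 6 ≤ c → Even c → J < c → 3 ≤ J → ∃ C₁ : ℝ, 1 ≤ C₁ ∧
    ∀ (V : Type) [Fintype V] [DecidableEq V] (E : Finset (Sym2 V)) (RT : Finset (Tri V)) (s : ℕ)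
      (B : ℝ) (yb : (Fin (c + 2) → V) → ℝ), YBound c C s B E RT yb → ∀ r : Tri V,
      ∑ W ∈ (bad V c J).filter (fun W => ∃ h ∈ W, rt c h = r.1), ∏ h ∈ W, yb h ≤
        C₁ * B ^ J * (1 / s + 1 / Fintype.card V)

/-- row L17, from `SumStatement`, `BasicStatement` -/
def TriSumStatement : Prop :=
  ∀ (J : ℕ) (K : ℝ), 0 < K → ∃ K₂ : ℝ, 1 ≤ K₂ ∧
    ∀ (V : Type) [Fintype V] [DecidableEq V] (T : Tri V), 1 ≤ Fintype.card V →
      ∑ D ∈ (triSys V J).conf.filter (fun D => T ∈ D), (2 * K / Fintype.card V) ^ (D.card - 1) ≤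
        K₂

/-! ### The selected boosters -/

section Sel

variable {V : Type} [Fintype V] [DecidableEq V]

/-- the hypotheses of `BoostStatement` -/
structure BHyp (n₀ C s : ℕ) (ε θ : ℝ) (E' A X : Finset (Sym2 V)) (RT : Finset (Tri V)) : Prop where
  hn : n₀ ≤ Fintype.card V
  s_le : (s : ℝ) ≤ (Fintype.card V : ℝ) ^ θ
  s_ge : (Fintype.card V : ℝ) ^ θ ≤ s + 1
  nl : NW.NL E'
  dA : Disjoint E' A
  dX : Disjoint E' X
  deg : ∀ v, (3 / 4 + ε) * (Fintype.card V : ℝ) ≤ (NW.deg E' v : ℝ)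
  root : ∀ r ∈ RT, NW.edg r.1 ⊆ A ∪ X
  vert : ∀ v, (RT.filter (fun r => v ∈ r.1)).card * s ≤ C * Fintype.card V
  pair : ∀ e, (RT.filter (fun r => e ∈ NW.edg r.1)).card ≤ C
  vt : ∀ e ∈ E', ((triV E' X).filter (fun T => e ∈ NW.edg T.1)).card * s ^ 2 ≤ 4 * Fintype.card V

/-- the moment bounds for the chosen placements; `k` and `k₂` are the orders of the moments -/
structure Sel (c J k k₂ s : ℕ) (K θ : ℝ) (E' X : Finset (Sym2 V)) (RT : Finset (Tri V))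
    (hh : Tri V → (Fin (c + 2) → V)) : Prop where
  mem : ∀ r ∈ RT, hh r ∈ Pl c E' r
  bad : ∀ W ∈ bad V c J, ∃ h ∈ W, h ∉ RT.image hh
  u_le : (2 * K + s ^ 2) / Fintype.card V ≤ 1
  gA : ∀ T T', T ≠ T' → GG ((Fintype.card V : ℝ) ^ (-(19 / 20) : ℝ))
    (yA c (fun _ => (2 * K + s ^ 2) / Fintype.card V) (rz c RT hh)) (LA c J T T') k ≤
      (Fintype.card V : ℝ) ^ (-(9 / 10) * k : ℝ)
  gA' : ∀ T T', T ≠ T' → GG ((Fintype.card V : ℝ) ^ (-(19 / 20) : ℝ))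
    (yA c (fun _ => (2 * K + s ^ 2) / Fintype.card V) (rz c RT hh)) (LA' c J T T') k ≤
      (Fintype.card V : ℝ) ^ (-(9 / 10) * k : ℝ)
  gB : ∀ T e, e ∉ NW.edg T.1 → GG ((Fintype.card V : ℝ) ^ (-(19 / 20) : ℝ))
    (yA c (fun _ => (2 * K + s ^ 2) / Fintype.card V) (rz c RT hh)) (LB c J T e) k ≤
      (Fintype.card V : ℝ) ^ (-(9 / 10) * k : ℝ)
  gE : ∀ T T', GG ((Fintype.card V : ℝ) ^ (-(19 / 20) : ℝ))
    (yA c (fun _ => (2 * K + s ^ 2) / Fintype.card V) (rz c RT hh)) (LE c J T T') k ≤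
      (Fintype.card V : ℝ) ^ (-(9 / 10) * k : ℝ)
  gF : ∀ e, GG 1 (yA c (fun _ => (2 * K + s ^ 2) / Fintype.card V) (rz c RT hh))
    (LF c J e) k₂ ≤ ((Fintype.card V : ℝ) ^ (3 * J * θ)) ^ k₂
  gY : ∀ T : Tri V, ¬ Disjoint (NW.edg T.1) E' → GG (2 * K / Fintype.card V)
    (yA c (fun _ => 2 * K / Fintype.card V) (rz c RT hh)) (LY c J T) k₂ ≤ 1
  gR : ∀ e ∈ E', GG (1 / Fintype.card V) (yA c (fun _ => 1 / Fintype.card V) (rz c RT hh))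
    (LT c J e univ) k₂ ≤ ((Fintype.card V : ℝ) ^ (-(θ / 2))) ^ k₂
  gV : ∀ e ∈ E', GG (s ^ 2 / Fintype.card V)
    (yA c (fun _ => s ^ 2 / Fintype.card V) (rz c RT hh))
    (LT c J e (triV E' X)) k₂ ≤ ((Fintype.card V : ℝ) ^ (-(θ / 2))) ^ k₂
  gD : ∀ v, GG 1 (yA c (fun _ => 0) (rz c RT hh)) (LD c v) k₂ ≤
    ((Fintype.card V : ℝ) ^ (1 - θ / 2) / (c + 2)) ^ k₂

end Sel

/-- row L18, from `PlaceStatement` -/
def YPStatement : Prop :=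
  ∀ (c C : ℕ) (ε : ℝ), 6 ≤ c → Even c → 0 < ε → ∃ B : ℝ, 1 ≤ B ∧ ∃ n₀ : ℕ,
    ∀ (V : Type) [Fintype V] [DecidableEq V] (E' A X : Finset (Sym2 V)) (RT : Finset (Tri V))
      (s : ℕ) (θ : ℝ), 1 ≤ s → BHyp n₀ C s ε θ E' A X RT →
      (∀ r ∈ RT, (Pl c E' r).Nonempty) ∧ YBound c C s B E' RT (yP c E' RT)

/-- row L19: the numbers -/
def NumStatement : Prop :=
  ∀ (J k k₂ : ℕ) (C₂ θ : ℝ), 1 ≤ J → 1000 ≤ k → 1 ≤ C₂ → 0 < θ → 4 * J * θ ≤ 1 / 50 →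
    12 / θ ≤ k₂ → ∃ n₀ : ℕ, ∀ n : ℕ, n₀ ≤ n → ∀ s : ℕ, (s : ℝ) ≤ (n : ℝ) ^ θ →
      (n : ℝ) ^ θ ≤ s + 1 →
      1 ≤ s ∧ 1 ≤ n ∧ C₂ * (s : ℝ) ^ 2 / n ≤ 1 ∧ C₂ * (1 / s + 1 / n : ℝ) ≤ 1 ∧
      (n : ℝ) ^ 6 * (n : ℝ) ^ ((9 / 10) * k : ℝ) *
        (C₂ * ((s : ℝ) ^ 2) ^ (2 * J) / n + C₂ * (n : ℝ) ^ (-(19 / 20) : ℝ)) ^ k ≤ 1 / C₂ ∧
      (n : ℝ) ^ 2 * (((n : ℝ) ^ (3 * J * θ))⁻¹) ^ k₂ * (C₂ * ((s : ℝ) ^ 2) ^ J + C₂) ^ k₂ ≤
        1 / C₂ ∧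
      (n : ℝ) ^ 3 * (C₂ * (1 / s + 1 / n : ℝ) + C₂ * (1 / n : ℝ)) ^ k₂ ≤ 1 / C₂ ∧
      (n : ℝ) ^ 2 * (((n : ℝ) ^ (-(θ / 2)))⁻¹) ^ k₂ *
        (C₂ * (1 / s + 1 / n + (s : ℝ) ^ 2 / n : ℝ) + C₂ * ((s : ℝ) ^ 2 / n : ℝ)) ^ k₂ ≤
        1 / C₂ ∧
      (n : ℝ) * (((n : ℝ) ^ (1 - θ / 2) / C₂)⁻¹) ^ k₂ * (C₂ * (n / s : ℝ) + C₂) ^ k₂ ≤ 1 / C₂

/-- row L20, from everything above -/
def SelStatement : Prop :=
  ∀ (J c C : ℕ) (ε K : ℝ), 3 ≤ J → 6 ≤ c → Even c → J < c → 0 < ε → 0 < K → ∀ k : ℕ, 1000 ≤ k →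
    ∃ θ₀ : ℝ, 0 < θ₀ ∧ ∀ θ : ℝ, 0 < θ → θ ≤ θ₀ → ∃ n₀ k₂ : ℕ, 1 ≤ k₂ ∧
      ∀ (V : Type) [Fintype V] [DecidableEq V] (E' A X : Finset (Sym2 V)) (RT : Finset (Tri V))
        (s : ℕ), BHyp n₀ C s ε θ E' A X RT →
        ∃ hh : Tri V → (Fin (c + 2) → V), Sel c J k k₂ s K θ E' X RT hh

/-! ### Consequences of `Sel` -/

/-- row L21: the moments `mA`, `mA'`, `mB`, `mE` (from `GGLiftStatement`, `LiftStatement`,
`CleanStatement`) -/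
def ConsMStatement : Prop :=
  ∀ (c J k k₂ C s n₀ : ℕ) (K θ ε : ℝ), 6 ≤ c → Even c → J < c → 0 < K → 1 ≤ k₂ →
    ∀ (V : Type) [Fintype V] [DecidableEq V] (E' A X : Finset (Sym2 V)) (RT : Finset (Tri V))
      (hh : Tri V → (Fin (c + 2) → V)), 1 ≤ n₀ → BHyp n₀ C s ε θ E' A X RT →
      Sel c J k k₂ s K θ E' X RT hh →
      (∀ T T', T ≠ T' → GG ((Fintype.card V : ℝ) ^ (-(19 / 20) : ℝ))
        ((syT c J RT hh (E' \ bEs c RT hh) X).y0 (fun _ => K / Fintype.card V)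
          (s ^ 2 / Fintype.card V)) ((syT c J RT hh (E' \ bEs c RT hh) X).fA T T') k ≤
        (Fintype.card V : ℝ) ^ (-(9 / 10) * k : ℝ)) ∧
      (∀ T T', T ≠ T' → GG ((Fintype.card V : ℝ) ^ (-(19 / 20) : ℝ))
        ((syT c J RT hh (E' \ bEs c RT hh) X).y0 (fun _ => K / Fintype.card V)
          (s ^ 2 / Fintype.card V)) ((syT c J RT hh (E' \ bEs c RT hh) X).fA' T T') k ≤
        (Fintype.card V : ℝ) ^ (-(9 / 10) * k : ℝ)) ∧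
      (∀ (T : Tri V), ∀ e ∈ E' \ bEs c RT hh,
        e ∉ NW.edg T.1 → GG ((Fintype.card V : ℝ) ^ (-(19 / 20) : ℝ))
        ((syT c J RT hh (E' \ bEs c RT hh) X).y0 (fun _ => K / Fintype.card V)
          (s ^ 2 / Fintype.card V)) ((syT c J RT hh (E' \ bEs c RT hh) X).fB T e) k ≤
        (Fintype.card V : ℝ) ^ (-(9 / 10) * k : ℝ)) ∧
      (∀ T T', T ≠ T' → GG ((Fintype.card V : ℝ) ^ (-(19 / 20) : ℝ))
        ((syT c J RT hh (E' \ bEs c RT hh) X).y0 (fun _ => K / Fintype.card V)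
          (s ^ 2 / Fintype.card V)) ((syT c J RT hh (E' \ bEs c RT hh) X).fE T T') k ≤
        (Fintype.card V : ℝ) ^ (-(9 / 10) * k : ℝ))

/-- row L22: `hY` and `hF` (from `GGLiftStatement`, `LiftStatement`, `CleanStatement`,
`TriSumStatement`) -/
def ConsYStatement : Prop :=
  ∀ (J : ℕ) (K : ℝ), 0 < K → ∃ K₂ : ℝ, 1 ≤ K₂ ∧
  ∀ (c k k₂ C s n₀ : ℕ) (θ ε : ℝ), 6 ≤ c → Even c → J < c → 1 ≤ k₂ →
    ∀ (V : Type) [Fintype V] [DecidableEq V] (E' A X : Finset (Sym2 V)) (RT : Finset (Tri V))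
      (hh : Tri V → (Fin (c + 2) → V)), 1 ≤ n₀ → BHyp n₀ C s ε θ E' A X RT →
      Sel c J k k₂ s K θ E' X RT hh →
      (∀ T ∈ triR (E' \ bEs c RT hh) ∪ triV (E' \ bEs c RT hh) X,
        ∑ U ∈ (syT c J RT hh (E' \ bEs c RT hh) X).conf.filter (fun U => T ∈ U ∧ U ≠ {T} ∧
          U.erase T ⊆ triR (E' \ bEs c RT hh)), (2 * K / Fintype.card V) ^ (U.card - 1) ≤ K₂) ∧
      (∀ e ∈ E' \ bEs c RT hh, ∑ U ∈ (syT c J RT hh (E' \ bEs c RT hh) X).fF e,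
        ∏ T ∈ U, (syT c J RT hh (E' \ bEs c RT hh) X).y0 (fun _ => K / Fintype.card V)
          (s ^ 2 / Fintype.card V) T ≤ (Fintype.card V : ℝ) ^ (3 * J * θ))

/-- row L23: `deg`, `thR`, `thV` (from `LiftStatement`, `CleanStatement`) -/
def ConsTStatement : Prop :=
  ∀ (c J k k₂ C s n₀ : ℕ) (K θ ε : ℝ), 6 ≤ c → Even c → J < c → 0 < K → 1 ≤ k₂ →
    ∀ (V : Type) [Fintype V] [DecidableEq V] (E' A X : Finset (Sym2 V)) (RT : Finset (Tri V))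
      (hh : Tri V → (Fin (c + 2) → V)), 1 ≤ n₀ → BHyp n₀ C s ε θ E' A X RT →
      Sel c J k k₂ s K θ E' X RT hh →
      (∀ v, (NW.deg (bEs c RT hh) v : ℝ) ≤ (Fintype.card V : ℝ) ^ (1 - θ / 2)) ∧
      (∀ e, (((triR (E' \ bEs c RT hh)).filter (fun T => e ∈ NW.edg T.1 ∧
        {T} ∈ (syT c J RT hh (E' \ bEs c RT hh) X).conf)).card : ℝ) ≤
          (Fintype.card V : ℝ) ^ (1 - θ / 2)) ∧
      (∀ e ∈ E' \ bEs c RT hh, (((triV (E' \ bEs c RT hh) X).filter (fun T => e ∈ NW.edg T.1 ∧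
        {T} ∈ (syT c J RT hh (E' \ bEs c RT hh) X).conf)).card : ℝ) * s ^ 2 ≤
          (Fintype.card V : ℝ) ^ (1 - θ / 2))

end F2
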