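import Pool.Agent.F2.Spec
import Pool.Agent.F1.TriGood

/-!
# Project F2, blocks S (geometry of lifted configurations) and L (local lemma)

Atoms: triples (`inl T`) and boosters with their whole placement (`inr h`).  For a set `K` of
known vertices the atom `a` has the exponent `ex a K = 2 - |V(a) ∩ K| + [root(a) ⊆ K]`.
-/

set_option autoImplicit false
set_option linter.unusedSectionVars false

namespace F2

open Finset NW F1

section S

variable {V : Type} [Fintype V] [DecidableEq V] {c : ℕ}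

/-- atoms: triples and placed boosters -/
abbrev Atom (V : Type) [Fintype V] [DecidableEq V] (c : ℕ) := Tri V ⊕ (Fin (c + 2) → V)

/-- the vertices of an atom -/
def av (a : Atom V c) : Finset V := Sum.elim (fun T => T.1) (fun h => univ.image h) a

/-- the triples of an atom -/
def fa (a : Atom V c) : Finset (Tri V) := Sum.elim (fun T => {T}) (fun h => ON c h ∪ OFF c h) a

/-- `1` if the atom is a booster whose root is in `K` -/
def rk (a : Atom V c) (K : Finset V) : ℤ :=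
  Sum.elim (fun _ => 0) (fun h => if rt c h ⊆ K then 1 else 0) a

/-- the exponent of an atom -/
def ex (a : Atom V c) (K : Finset V) : ℤ := 2 - ((av a ∩ K).card : ℤ) + rk a K

/-- the exponent of a list of atoms, placed one after the other -/
def exL (K : Finset V) : List (Atom V c) → ℤ
  | [] => 0
  | a :: l => ex a K + exL (K ∪ av a) l

/-- the vertices of a set of atoms -/
def vP (P : Finset (Atom V c)) : Finset V := P.biUnion av

/-- `U` lifts the set `D` of triples: every triple of `D` belongs to exactly one atom, every atom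
is used, boosters are used with one colour -/
structure IsLift (D : Finset (Tri V)) (U : Finset (Atom V c)) : Prop where
  cover : ∀ T ∈ D, ∃ a ∈ U, T ∈ fa a
  uniq : ∀ T ∈ D, ∀ a ∈ U, ∀ b ∈ U, T ∈ fa a → T ∈ fa b → a = b
  used : ∀ a ∈ U, (fa a ∩ D).Nonempty
  inj : ∀ h : Fin (c + 2) → V, Sum.inr h ∈ U → Function.Injective h
  col : ∀ h : Fin (c + 2) → V, Sum.inr h ∈ U →
    (ON c h ∪ OFF c h) ∩ D ⊆ ON c h ∨ (ON c h ∪ OFF c h) ∩ D ⊆ OFF c h

/-- the weights of the atoms are bounded: `B / n` for triples, `B / n ^ (c - 1)` for boosters of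
roots -/
structure WBound (B : ℝ) (RT : Finset (Tri V)) (y : Atom V c → ℝ) : Prop where
  nonneg : ∀ a, 0 ≤ y a
  tri : ∀ T, y (Sum.inl T) ≤ B / Fintype.card V
  boo : ∀ h, y (Sum.inr h) ≤ B / (Fintype.card V : ℝ) ^ (c - 1)
  inj : ∀ h, y (Sum.inr h) ≠ 0 → Function.Injective h
  root : ∀ h, y (Sum.inr h) ≠ 0 → ∃ r ∈ RT, rt c h = r.1

/-- the multiplicities of the roots -/
structure RBound (C s : ℕ) (RT : Finset (Tri V)) : Prop where
  vert : ∀ v, (RT.filter (fun r => v ∈ r.1)).card * s ≤ C * Fintype.card V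
  pair : ∀ e, (RT.filter (fun r => e ∈ NW.edg r.1)).card ≤ C

end S

/-! ### Row S1: one atom -/

def OAStatement : Prop :=
  ∀ (c L C : ℕ), 6 ≤ c → ∃ C₀ : ℝ, 1 ≤ C₀ ∧
    ∀ (V : Type) [Fintype V] [DecidableEq V] (RT : Finset (Tri V)) (s : ℕ) (B : ℝ)
      (y : Atom V c → ℝ) (K : Finset V), 1 ≤ Fintype.card V → 1 ≤ s → 1 ≤ B → RBound C s RT →
      WBound B RT y → K.card ≤ L →
      ∑ a, y a * (Fintype.card V : ℝ) ^ (-ex a K) ≤ C₀ * B ∧
      ∑ h ∈ univ.filter (fun h : Fin (c + 2) → V => (rt c h ∩ K).card ≤ 1),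
        y (Sum.inr h) * (Fintype.card V : ℝ) ^ (-ex (Sum.inr h : Atom V c) K) ≤ C₀ * B / s

/-! ### Row S2: from orderings to sums (from `OAStatement`) -/

def SumStatement : Prop :=
  ∀ (c L m C : ℕ), 6 ≤ c → ∃ C₀ : ℝ, 1 ≤ C₀ ∧
    ∀ (V : Type) [Fintype V] [DecidableEq V] (RT : Finset (Tri V)) (s : ℕ) (B : ℝ)
      (y : Atom V c → ℝ) (F : Finset V) (𝒰 : Finset (Finset (Atom V c))),
      1 ≤ Fintype.card V → 1 ≤ s → 1 ≤ B → RBound C s RT → WBound B RT y → F.card ≤ L →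
      (∀ U ∈ 𝒰, U.card ≤ m) →
      (∀ g : ℕ, (∀ U ∈ 𝒰, (∀ a ∈ U, y a ≠ 0) → ∃ l : List (Atom V c), l.Nodup ∧ l.toFinset = U ∧
          exL F l ≤ -(g : ℤ)) →
        ∑ U ∈ 𝒰, ∏ a ∈ U, y a ≤ (C₀ * B) ^ m / (Fintype.card V : ℝ) ^ g) ∧
      ((∀ U ∈ 𝒰, (∀ a ∈ U, y a ≠ 0) → ∃ (h : Fin (c + 2) → V) (l : List (Atom V c)),
          (Sum.inr h :: l).Nodup ∧
          (Sum.inr h :: l).toFinset = U ∧ exL F (Sum.inr h :: l) ≤ 0 ∧
          ((rt c h ∩ F).card ≤ 1 ∨ exL F (Sum.inr h :: l) ≤ -1)) →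
        ∑ U ∈ 𝒰, ∏ a ∈ U, y a ≤ (C₀ * B) ^ m * (1 / s + 1 / Fintype.card V))

/-! ### Row S3: one configuration -/

/-- the known part of `D` -/
def knw {V : Type} [Fintype V] [DecidableEq V] {c : ℕ} (D Z : Finset (Tri V))
    (U P : Finset (Atom V c)) : Finset (Tri V) :=
  Z ∪ (D ∩ (U ∩ P).biUnion fa)

def BasicStatement : Prop :=
  ∀ (c J : ℕ), 6 ≤ c → Even c → J < c →
    ∀ (V : Type) [Fintype V] [DecidableEq V] (D Z : Finset (Tri V)) (U P : Finset (Atom V c))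
      (F : Finset V) (l : List (Atom V c)), D ∈ (triSys V J).conf → Z ⊆ D → IsLift (D \ Z) U →
      vs Z ⊆ F → vP P ⊆ F → l.Nodup → l.toFinset = U \ P →
      exL F l ≤ 2 + ((knw D Z U P).card : ℤ) - ((vs D ∩ F).card : ℤ) ∧
      vs (knw D Z U P) ⊆ F ∧ (U \ P ≠ ∅ → knw D Z U P ≠ D) ∧
      (2 ≤ (knw D Z U P).card → U \ P ≠ ∅ → exL F l ≤ -1)

/-! ### Row S4: a new booster first -/

def NewStatement : Prop :=
  ∀ (c J : ℕ), 6 ≤ c → Even c → J < c →
    ∀ (V : Type) [Fintype V] [DecidableEq V] (D : Finset (Tri V)) (T : Tri V)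
      (U P : Finset (Atom V c)) (F : Finset V) (h : Fin (c + 2) → V) (l : List (Atom V c)),
      D ∈ (triSys V J).conf → T ∈ D → IsLift (D \ {T}) U → T.1 ⊆ F → vP P ⊆ F → rt c h ≠ T.1 →
      (Sum.inr h :: l).Nodup → (Sum.inr h :: l).toFinset = U \ P →
      exL F (Sum.inr h :: l) ≤ 0 ∧
        ((rt c h ∩ F).card ≤ 1 ∨ exL F (Sum.inr h :: l) ≤ -1)

/-! ### Row S5: two configurations with a common triple -/

def DoubleStatement : Prop :=
  ∀ (c J : ℕ), 6 ≤ c → Even c → J < c →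
    ∀ (V : Type) [Fintype V] [DecidableEq V] (D₁ D₂ : Finset (Tri V)) (T₁ T₂ Ts : Tri V)
      (U₁ U₂ P : Finset (Atom V c)) (F : Finset V),
      D₁ ∈ (triSys V J).conf → D₂ ∈ (triSys V J).conf → T₁ ∈ D₁ → T₂ ∈ D₂ → T₂ ∉ D₁ → T₁ ∉ D₂ →
      IsLift (D₁ \ {T₁}) U₁ → IsLift (D₂ \ {T₂}) U₂ → Sum.inl Ts ∈ U₁ → Sum.inl Ts ∈ U₂ →
      T₁.1 ⊆ F → T₂.1 ⊆ F → vP P ⊆ F → (U₁ ∪ U₂) \ P ≠ ∅ →
      ∃ l : List (Atom V c), l.Nodup ∧ l.toFinset = (U₁ ∪ U₂) \ P ∧ exL F l ≤ -1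

end F2
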