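import Pool.Agent.F2.SpecL2

/-!
# Project F2, block Z: the final assembly
-/

set_option autoImplicit false
set_option linter.unusedSectionVars false

namespace F2

open Finset NW F1
open Pool.Agent.F2 (HH GG Spread)

section Z

variable {V : Type} [Fintype V] [DecidableEq V]

/-- the omni-absorber `A`, `RT` for the reserve `X` of the graph `E` -/
structure Abs (E A X : Finset (Sym2 V)) (RT : Finset (Tri V)) : Prop where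
  X_sub : X ⊆ E
  A_sub : A ⊆ E \ X
  root : ∀ r ∈ RT, NW.edg r.1 ⊆ A ∪ X
  abs : ∀ L, L ⊆ X → NW.Divis (A ∪ L) → ∃ 𝒯 : Finset (Tri V), 𝒯 ⊆ RT ∧
    (∀ T ∈ 𝒯, ∀ T' ∈ 𝒯, T ≠ T' → Disjoint (NW.edg T.1) (NW.edg T'.1)) ∧
    𝒯.biUnion (fun T => NW.edg T.1) = A ∪ L

/-- the boosters, placed in `E \ (X ∪ A)` -/
structure Boo (c J : ℕ) (E A X : Finset (Sym2 V)) (RT : Finset (Tri V))
    (hh : Tri V → (Fin (c + 2) → V)) : Prop where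
  mem : ∀ r ∈ RT, hh r ∈ Pl c (E \ (X ∪ A)) r
  disj : ∀ r ∈ RT, ∀ r' ∈ RT, r ≠ r' → Disjoint (bE c (hh r)) (bE c (hh r'))
  clean : ∀ D ∈ (triSys V J).conf, Cons c RT hh D → ¬ D ⊆ allB c RT hh

/-- the graph without reserve, absorber and boosters -/
def Er (c : ℕ) (E A X : Finset (Sym2 V)) (RT : Finset (Tri V))
    (hh : Tri V → (Fin (c + 2) → V)) : Finset (Sym2 V) := (E \ (X ∪ A)) \ bEs c RT hh

/-- the edges not covered by `M` -/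
def Lo (E₂ : Finset (Sym2 V)) (M : Finset (Tri V)) : Finset (Sym2 V) :=
  E₂ \ M.biUnion (fun T => NW.edg T.1)

/-- `M` are triangles of `E₂`, `ch` covers the other edges by triangles with two reserve edges -/
structure Cov (c J : ℕ) (E₂ X : Finset (Sym2 V)) (RT : Finset (Tri V))
    (hh : Tri V → (Fin (c + 2) → V)) (M : Finset (Tri V)) (ch : Sym2 V → Tri V) : Prop where
  M_sub : M ⊆ triR E₂
  M_disj : ∀ T ∈ M, ∀ T' ∈ M, T ≠ T' → Disjoint (NW.edg T.1) (NW.edg T'.1)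
  ch_mem : ∀ e ∈ Lo E₂ M, ch e ∈ triV E₂ X ∧ NW.edg (ch e).1 ∩ E₂ = {e}
  ch_disj : ∀ e ∈ Lo E₂ M, ∀ e' ∈ Lo E₂ M, e ≠ e' →
    Disjoint (NW.edg (ch e).1 \ E₂) (NW.edg (ch e').1 \ E₂)
  free : ∀ U ∈ rconf c J RT hh (triR E₂ ∪ triV E₂ X), ¬ U ⊆ M ∪ (Lo E₂ M).image ch

/-- the unused reserve -/
def Lr (E₂ X : Finset (Sym2 V)) (M : Finset (Tri V)) (ch : Sym2 V → Tri V) : Finset (Sym2 V) :=
  X \ (Lo E₂ M).biUnion (fun e => NW.edg (ch e).1 \ E₂)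

/-- the final set of triangles; `𝒯` are the roots in use -/
def finT (c : ℕ) (E₂ : Finset (Sym2 V)) (RT : Finset (Tri V)) (hh : Tri V → (Fin (c + 2) → V))
    (𝒯 M : Finset (Tri V)) (ch : Sym2 V → Tri V) : Finset (Tri V) :=
  (M ∪ (Lo E₂ M).image ch) ∪
    (𝒯.biUnion (fun r => ON c (hh r)) ∪ (RT \ 𝒯).biUnion (fun r => OFF c (hh r)))

end Z

/-- row Z1, from `TemplateStatement` -/
def DivStatement : Prop :=
  ∀ (c J : ℕ), 6 ≤ c → Even c → ∀ (V : Type) [Fintype V] [DecidableEq V]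
    (E A X : Finset (Sym2 V)) (RT : Finset (Tri V)) (hh : Tri V → (Fin (c + 2) → V))
    (M : Finset (Tri V)) (ch : Sym2 V → Tri V), NW.Divis E → Abs E A X RT →
    Boo c J E A X RT hh → Cov c J (Er c E A X RT hh) X RT hh M ch →
    NW.Divis (A ∪ Lr (Er c E A X RT hh) X M ch)

/-- row Z2, from `TemplateStatement` -/
def DecStatement : Prop :=
  ∀ (c J : ℕ), 6 ≤ c → Even c → ∀ (V : Type) [Fintype V] [DecidableEq V]
    (E A X : Finset (Sym2 V)) (RT : Finset (Tri V)) (hh : Tri V → (Fin (c + 2) → V))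
    (M 𝒯 : Finset (Tri V)) (ch : Sym2 V → Tri V), NW.NL E → Abs E A X RT →
    Boo c J E A X RT hh → Cov c J (Er c E A X RT hh) X RT hh M ch → 𝒯 ⊆ RT →
    (∀ T ∈ 𝒯, ∀ T' ∈ 𝒯, T ≠ T' → Disjoint (NW.edg T.1) (NW.edg T'.1)) →
    𝒯.biUnion (fun T => NW.edg T.1) = A ∪ Lr (Er c E A X RT hh) X M ch →
    (∀ T ∈ finT c (Er c E A X RT hh) RT hh 𝒯 M ch,
      ∀ T' ∈ finT c (Er c E A X RT hh) RT hh 𝒯 M ch, T ≠ T' →
        Disjoint (NW.edg T.1) (NW.edg T'.1)) ∧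
    (finT c (Er c E A X RT hh) RT hh 𝒯 M ch).biUnion (fun T => NW.edg T.1) = E

/-- row Z3, from `TemplateStatement` -/
def FreeStatement : Prop :=
  ∀ (c J : ℕ), 6 ≤ c → Even c → ∀ (V : Type) [Fintype V] [DecidableEq V]
    (E A X : Finset (Sym2 V)) (RT : Finset (Tri V)) (hh : Tri V → (Fin (c + 2) → V))
    (M 𝒯 : Finset (Tri V)) (ch : Sym2 V → Tri V), NW.NL E → Abs E A X RT →
    Boo c J E A X RT hh → Cov c J (Er c E A X RT hh) X RT hh M ch → 𝒯 ⊆ RT →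
    (∀ T ∈ finT c (Er c E A X RT hh) RT hh 𝒯 M ch,
      ∀ T' ∈ finT c (Er c E A X RT hh) RT hh 𝒯 M ch, T ≠ T' →
        Disjoint (NW.edg T.1) (NW.edg T'.1)) →
    ∀ D ∈ (triSys V J).conf, ¬ D ⊆ finT c (Er c E A X RT hh) RT hh 𝒯 M ch

/-- row Z4, from `DivStatement`, `DecStatement`, `FreeStatement`, `F1.GirthStatement` -/
def FinStatement : Prop :=
  ∀ (c J : ℕ), 6 ≤ c → Even c → ∀ (V : Type) [Fintype V] [DecidableEq V]
    (E A X : Finset (Sym2 V)) (RT : Finset (Tri V)) (hh : Tri V → (Fin (c + 2) → V))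
    (M : Finset (Tri V)) (ch : Sym2 V → Tri V), NW.Divis E → Abs E A X RT →
    Boo c J E A X RT hh → Cov c J (Er c E A X RT hh) X RT hh M ch →
    ∃ 𝒯 : Finset (Finset V), NW.IsPack 𝒯 E ∧ 𝒯.biUnion NW.edg = E ∧
      ∀ U : Finset V, 4 ≤ U.card → U.card ≤ J + 2 →
        (𝒯.filter (fun t => t ⊆ U)).card + 2 < U.card

/-- row Z5: counting in the grid -/
def GridCountStatement : Prop :=
  ∀ (V : Type) [Fintype V] [DecidableEq V] (E E₂ : Finset (Sym2 V)) (s : ℕ) (ro co : V → ℕ),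
    NW.NL E → Grid E s ro co → E₂ ⊆ E \ Xs ro co E →
    (∀ v, NW.deg (Xs ro co E) v * s ≤ 4 * Fintype.card V) ∧
    (∀ e ∈ E₂, ((triV E₂ (Xs ro co E)).filter (fun T => e ∈ NW.edg T.1)).card * s ^ 2 ≤
      4 * Fintype.card V) ∧
    (∀ e ∈ E₂, Fintype.card V ≤
      4 * s ^ 2 * ((triV E₂ (Xs ro co E)).filter (fun T => e ∈ NW.edg T.1)).card)

/-- row Z6: `syT` is good -/
def SyGoodStatement : Prop :=
  ∀ (c J s : ℕ) (V : Type) [Fintype V] [DecidableEq V] (E₂ X : Finset (Sym2 V))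
    (RT : Finset (Tri V)) (hh : Tri V → (Fin (c + 2) → V)), (syT c J RT hh E₂ X).Good J

/-- row Z7: the hypotheses of the abstract nibble -/
def HypStatement : Prop :=
  ∀ (c J k C s : ℕ) (K K₂ K' θ ω : ℝ), 0 < K → K ≤ K' → K₂ ≤ K' → 1 ≤ s →
    ∀ (V : Type) [Fintype V] [DecidableEq V] (E' X : Finset (Sym2 V)) (RT : Finset (Tri V))
      (hh : Tri V → (Fin (c + 2) → V)) (w : Tri V → ℝ), 1 ≤ Fintype.card V →
      Boosted c J RT hh k K K₂ θ s E' X → NW.NL E' → Disjoint E' X →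
      (∀ v, Fintype.card V ≤ 2 * NW.deg (E' \ bEs c RT hh) v) →
      (∀ e ∈ E', ((triV E' X).filter (fun T => e ∈ NW.edg T.1)).card * s ^ 2 ≤
        4 * Fintype.card V) →
      (∀ e ∈ E' \ bEs c RT hh, Fintype.card V ≤
        4 * s ^ 2 * ((triV (E' \ bEs c RT hh) X).filter (fun T => e ∈ NW.edg T.1)).card) →
      (∀ T, 0 ≤ w T) → (∀ T, w T ≤ K / Fintype.card V) →
      (∀ T, w T ≠ 0 → NW.edg T.1 ⊆ E' \ bEs c RT hh ∧
        {T} ∉ (syT c J RT hh (E' \ bEs c RT hh) X).conf) →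
      (∀ e ∈ E' \ bEs c RT hh,
        ∑ T ∈ univ.filter (fun T : Tri V => e ∈ NW.edg T.1), w T = 1) →
      (s : ℝ) ^ 2 / Fintype.card V ≤ (Fintype.card V : ℝ) ^ (-1 + ω / 8) →
      (Fintype.card V : ℝ) ^ (3 * J * θ) ≤ (Fintype.card V : ℝ) ^ (ω / 8) →
      (Fintype.card V : ℝ) ^ (-(θ / 2)) ≤ 1 / 8 →
      ∃ x0 : Tri V → ℝ,
        (syT c J RT hh (E' \ bEs c RT hh) X).Hyp J k K' (ω / 8) (Fintype.card V : ℕ)
          ((s : ℝ) ^ 2 / Fintype.card V) (E' \ bEs c RT hh) w x0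
          (fun v : V => (E' \ bEs c RT hh).filter (fun e => v ∈ e))

/-- row Z8: from the abstract nibble to `Cov`, from `CoverStatement` -/
def ToCovStatement : Prop :=
  ∀ (J : ℕ) (C : ℝ), 0 < C → ∃ η : ℝ, 0 < η ∧
    ∀ (c s : ℕ) (ω : ℝ) (V : Type) [Fintype V] [DecidableEq V] (E₂ X : Finset (Sym2 V))
      (RT : Finset (Tri V)) (hh : Tri V → (Fin (c + 2) → V)) (M : Finset (Tri V)) (x : Tri V → ℝ),
      3 ≤ Fintype.card V → 1 ≤ s → NW.NL E₂ → Disjoint E₂ X →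
      (syT c J RT hh E₂ X).Good J →
      (syT c J RT hh E₂ X).Out C ω (Fintype.card V : ℕ) ((s : ℝ) ^ 2 / Fintype.card V) E₂
        (fun v : V => E₂.filter (fun e => v ∈ e)) M x →
      2 * (s : ℝ) ^ 2 * (Fintype.card V : ℝ) ^ (-(ω / 2)) ≤ η →
      (Fintype.card V : ℝ) ^ (-(ω / 2)) ≤ η →
      ∃ ch : Sym2 V → Tri V, Cov c J E₂ X RT hh M ch

/-- row Z9: the numbers -/
def NumZStatement : Prop :=
  ∀ (J C : ℕ) (ε κ η ω θ : ℝ), 3 ≤ J → 0 < ε → 0 < κ → 0 < η → 0 < ω → 0 < θ → ω ≤ 1 →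
    24 * J * θ ≤ ω → ∃ n₀ : ℕ, ∀ n s : ℕ, n₀ ≤ n → (s : ℝ) ≤ (n : ℝ) ^ θ →
      (n : ℝ) ^ θ ≤ s + 1 →
      1 ≤ n ∧ C ≤ s ∧ 1 ≤ s ∧ C * s ≤ n ∧
      (s : ℝ) ^ 2 / n ≤ (n : ℝ) ^ (-1 + ω / 8) ∧ (n : ℝ) ^ (3 * J * θ) ≤ (n : ℝ) ^ (ω / 8) ∧
      (n : ℝ) ^ (-(θ / 2)) ≤ 1 / 8 ∧ 2 * (s : ℝ) ^ 2 * (n : ℝ) ^ (-(ω / 2)) ≤ η ∧
      (n : ℝ) ^ (-(ω / 2)) ≤ η ∧ (n : ℝ) ^ (1 - θ / 2) ≤ κ * n ∧
      (n : ℝ) ^ (1 - θ / 2) ≤ ε * n ∧ (C : ℝ) ≤ ε * s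

/-- row Z10: degrees -/
def DegStatement : Prop :=
  ∀ (C s : ℕ) (a ε : ℝ) (V : Type) [Fintype V] [DecidableEq V] (E F A X : Finset (Sym2 V)),
    0 < ε → (∀ v, a * (Fintype.card V : ℝ) ≤ (NW.deg E v : ℝ)) →
    ((∀ v, NW.deg X v * s ≤ 4 * Fintype.card V) → (∀ v, NW.deg A v * s ≤ C * Fintype.card V) →
      1 ≤ s → ((C + 4 : ℕ) : ℝ) ≤ ε * s →
      ∀ v, (a - ε) * (Fintype.card V : ℝ) ≤ (NW.deg (E \ (X ∪ A)) v : ℝ)) ∧
    ((∀ v, (NW.deg F v : ℝ) ≤ ε * (Fintype.card V : ℝ)) →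
      ∀ v, (a - ε) * (Fintype.card V : ℝ) ≤ (NW.deg (E \ F) v : ℝ))

/-- row Z12: the form for simple graphs -/
def SimpleStatement : Prop :=
  ∀ (g : ℕ) (ε : ℝ), 0 < ε → ∃ n₀ : ℕ, ∀ n : ℕ, n₀ ≤ n →
    ∀ (G : SimpleGraph (Fin n)) [DecidableRel G.Adj],
      (∀ v, Even (G.degree v)) → 3 ∣ G.edgeFinset.card →
      (∀ v, (3 / 4 + ε) * (n : ℝ) ≤ (G.degree v : ℝ)) →
      ∃ 𝒯 : Finset (Finset (Fin n)), (∀ t ∈ 𝒯, G.IsNClique 3 t) ∧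
        (∀ u v : Fin n, G.Adj u v → ∃! t, t ∈ 𝒯 ∧ u ∈ t ∧ v ∈ t) ∧
        ∀ S : Finset (Fin n), 4 ≤ S.card → S.card < g →
          (𝒯.filter (fun t => t ⊆ S)).card + 2 < S.card

end F2
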